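import Pool.Agent.Lib.MP_96875a_lc.Basic
import Pool.Agent.Lib.MP_96875a_lc.Ord

section

/-!
The category of countable preorders. A morphism `Q ⟶ P` is a `Q`-name for a generic filter of
`P`; `h.rel q p` means that `q` forces `p` to be in the generic filter.
-/

open CategoryTheory

namespace Pool.Agent.Lib.ZFM

/-- countable nonempty preorders -/
structure CP : Type 1 where
  X : Type
  [pre : Preorder X]
  [cnt : Countable X]
  [ne : Nonempty X]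

attribute [instance] CP.pre CP.cnt CP.ne

namespace CP

/-- compatible conditions -/
def Compat {X : Type} [Preorder X] (p q : X) : Prop := ∃ r, r ≤ p ∧ r ≤ q

/-- dense sets of conditions -/
def Dense {X : Type} [Preorder X] (D : Set X) : Prop := ∀ p, ∃ p' ≤ p, p' ∈ D

/-- names of generic filters -/
@[ext] structure Hom (Q P : CP) : Type where
  rel : Q.X → P.X → Prop
  mono : ∀ {q q' : Q.X} {p : P.X}, q' ≤ q → rel q p → rel q' p
  loc : ∀ {q : Q.X} {p : P.X}, (∀ q' ≤ q, ∃ q'' ≤ q', rel q'' p) → rel q p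
  up : ∀ {q : Q.X} {p p' : P.X}, p ≤ p' → rel q p → rel q p'
  filt : ∀ {q : Q.X} {p p' : P.X}, rel q p → rel q p' →
    ∃ q' ≤ q, ∃ r, r ≤ p ∧ r ≤ p' ∧ rel q' r
  gen : ∀ (D : Set P.X), Dense D → ∀ q : Q.X, ∃ q' ≤ q, ∃ p ∈ D, rel q' p

-- BEGIN C1
/-- (task C1) the identity name -/
theorem id_loc {P : CP} {q p : P.X} (h : ∀ q' ≤ q, ∃ q'' ≤ q', ∀ r ≤ q'', Compat r p) :
    ∀ r ≤ q, Compat r p := by
  intro r hr
  obtain ⟨q'', hq'', H⟩ := h r hr
  obtain ⟨s, h1, h2⟩ := H q'' le_rfl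
  exact ⟨s, h1.trans hq'', h2⟩

theorem id_filt {P : CP} {q p p' : P.X} (h : ∀ r ≤ q, Compat r p) (h' : ∀ r ≤ q, Compat r p') :
    ∃ q' ≤ q, ∃ r, r ≤ p ∧ r ≤ p' ∧ ∀ s ≤ q', Compat s r := by
  obtain ⟨r, h1, h2⟩ := h q le_rfl
  obtain ⟨r', h3, h4⟩ := h' r h1
  exact ⟨r', h3.trans h1, r', h3.trans h2, h4, fun s hs => ⟨s, le_rfl, hs⟩⟩

theorem id_gen {P : CP} (D : Set P.X) (hD : Dense D) (q : P.X) :
    ∃ q' ≤ q, ∃ p ∈ D, ∀ r ≤ q', Compat r p := by
  obtain ⟨p, h1, h2⟩ := hD q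
  exact ⟨p, h1, p, h2, fun r hr => ⟨r, le_rfl, hr⟩⟩
-- END C1

/-- the identity -/
def Hom.id (P : CP) : Hom P P where
  rel q p := ∀ r ≤ q, Compat r p
  mono h H r hr := H r (hr.trans h)
  loc := id_loc
  up h H r hr := let ⟨s, h1, h2⟩ := H r hr; ⟨s, h1, h2.trans h⟩
  filt := id_filt
  gen := id_gen

-- BEGIN C2
/-- (task C2) composition of names -/
theorem comp_filt {R Q P : CP} (f : Hom R Q) (g : Hom Q P) {r : R.X} {p p' : P.X}
    (h : ∀ r' ≤ r, ∃ r'' ≤ r', ∃ q, f.rel r'' q ∧ g.rel q p)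
    (h' : ∀ r' ≤ r, ∃ r'' ≤ r', ∃ q, f.rel r'' q ∧ g.rel q p') :
    ∃ r' ≤ r, ∃ s, s ≤ p ∧ s ≤ p' ∧ ∀ r₁ ≤ r', ∃ r₂ ≤ r₁, ∃ q, f.rel r₂ q ∧ g.rel q s := by
  classical
  obtain ⟨r₁, hr₁, q₁, hf₁, hg₁⟩ := h r le_rfl
  obtain ⟨r₂, hr₂, q₂, hf₂, hg₂⟩ := h' r₁ hr₁
  obtain ⟨r₃, hr₃, q₃, hq₁, hq₂, hf₃⟩ := f.filt (f.mono hr₂ hf₁) hf₂
  have hD : Dense ({q : Q.X | (∃ s, s ≤ p ∧ s ≤ p' ∧ g.rel q s) ∨ ¬ Compat q q₃}) := by
    intro q
    by_cases hc : Compat q q₃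
    · obtain ⟨t, ht1, ht2⟩ := hc
      obtain ⟨t', ht', s, hs1, hs2, hs⟩ := g.filt (g.mono (ht2.trans hq₁) hg₁) (g.mono (ht2.trans hq₂) hg₂)
      exact ⟨t', ht'.trans ht1, Or.inl ⟨s, hs1, hs2, hs⟩⟩
    · exact ⟨q, le_rfl, Or.inr hc⟩
  obtain ⟨r₄, hr₄, q₄, hq₄, hf₄⟩ := f.gen _ hD r₃
  obtain ⟨r₅, hr₅, q₅, h54, h53, -⟩ := f.filt hf₄ (f.mono hr₄ hf₃)
  rcases hq₄ with ⟨s, hs1, hs2, hs⟩ | hq₄
  · exact ⟨r₄, hr₄.trans (hr₃.trans (hr₂.trans hr₁)), s, hs1, hs2,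
      fun r' hr' => ⟨r', le_rfl, q₄, f.mono hr' hf₄, hs⟩⟩
  · exact absurd ⟨q₅, h54, h53⟩ hq₄

theorem comp_gen {R Q P : CP} (f : Hom R Q) (g : Hom Q P) (D : Set P.X) (hD : Dense D) (r : R.X) :
    ∃ r' ≤ r, ∃ p ∈ D, ∀ r₁ ≤ r', ∃ r₂ ≤ r₁, ∃ q, f.rel r₂ q ∧ g.rel q p := by
  have hD' : Dense {q : Q.X | ∃ p ∈ D, g.rel q p} := by
    intro q
    obtain ⟨q', hq', p, hp, h⟩ := g.gen D hD q
    exact ⟨q', hq', p, hp, h⟩
  obtain ⟨r', hr', q, ⟨p, hp, hq⟩, hf⟩ := f.gen _ hD' r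
  exact ⟨r', hr', p, hp, fun r₁ h₁ => ⟨r₁, le_rfl, q, f.mono h₁ hf, hq⟩⟩
-- END C2

/-- composition -/
def Hom.comp {R Q P : CP} (f : Hom R Q) (g : Hom Q P) : Hom R P where
  rel r p := ∀ r' ≤ r, ∃ r'' ≤ r', ∃ q, f.rel r'' q ∧ g.rel q p
  mono h H r hr := H r (hr.trans h)
  loc {r p} H r' hr' := by
    obtain ⟨r₁, h₁, H₁⟩ := H r' hr'
    obtain ⟨r₂, h₂, q, hq⟩ := H₁ r₁ le_rfl
    exact ⟨r₂, h₂.trans h₁, q, hq⟩
  up h H r' hr' := by
    obtain ⟨r₁, h₁, q, hf, hg⟩ := H r' hr'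
    exact ⟨r₁, h₁, q, hf, g.up h hg⟩
  filt := comp_filt f g
  gen := comp_gen f g

-- BEGIN C3
/-- (task C3) category laws -/
theorem Hom.id_comp' {Q P : CP} (f : Hom Q P) : (Hom.id Q).comp f = f := by
  refine Hom.ext ?_
  funext r p
  refine propext ⟨fun H => f.loc fun q' hq' => ?_, fun H r' hr' => ?_⟩
  · obtain ⟨r'', h1, q, h2, h3⟩ := H q' hq'
    obtain ⟨t, h4, h5⟩ := h2 r'' le_rfl
    exact ⟨t, h4.trans h1, f.mono h5 h3⟩
  · exact ⟨r', le_rfl, r', fun s hs => ⟨s, le_rfl, hs⟩, f.mono hr' H⟩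

theorem Hom.comp_id' {Q P : CP} (f : Hom Q P) : f.comp (Hom.id P) = f := by
  refine Hom.ext ?_
  funext r p
  refine propext ⟨fun H => f.loc fun q' hq' => ?_, fun H r' hr' => ?_⟩
  · obtain ⟨r'', h1, q, h2, h3⟩ := H q' hq'
    have hD : Dense {x : P.X | x ≤ p ∨ ¬ Compat x p} := by
      intro x
      by_cases hx : Compat x p
      · obtain ⟨y, hy1, hy2⟩ := hx
        exact ⟨y, hy1, Or.inl hy2⟩
      · exact ⟨x, le_rfl, Or.inr hx⟩
    obtain ⟨r3, h4, x, hx, h5⟩ := f.gen _ hD r''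
    obtain ⟨r4, h6, y, hy1, hy2, h7⟩ := f.filt (f.mono h4 h2) h5
    rcases hx with hx | hx
    · exact ⟨r4, (h6.trans h4).trans h1, f.up (hy2.trans hx) h7⟩
    · obtain ⟨z, hz1, hz2⟩ := h3 y hy1
      exact (hx ⟨z, hz1.trans hy2, hz2⟩).elim
  · exact ⟨r', le_rfl, p, f.mono hr' H, fun s hs => ⟨s, le_rfl, hs⟩⟩

theorem Hom.assoc' {S R Q P : CP} (f : Hom S R) (g : Hom R Q) (h : Hom Q P) :
    (f.comp g).comp h = f.comp (g.comp h) := by
  refine Hom.ext ?_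
  funext s p
  refine propext ⟨fun H s' hs' => ?_, fun H s' hs' => ?_⟩
  · obtain ⟨s'', h1, q, h2, h3⟩ := H s' hs'
    obtain ⟨t, h4, r, h5, h6⟩ := h2 s'' le_rfl
    exact ⟨t, h4.trans h1, r, h5, fun r' hr' => ⟨r', le_rfl, q, g.mono hr' h6, h3⟩⟩
  · obtain ⟨s'', h1, r, h2, h3⟩ := H s' hs'
    have hD : Dense {x : R.X | (∃ q, g.rel x q ∧ h.rel q p) ∨ ¬ Compat x r} := by
      intro x
      by_cases hx : Compat x r
      · obtain ⟨y, hy1, hy2⟩ := hx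
        obtain ⟨y', hy3, q, hq⟩ := h3 y hy2
        exact ⟨y', hy3.trans hy1, Or.inl ⟨q, hq⟩⟩
      · exact ⟨x, le_rfl, Or.inr hx⟩
    obtain ⟨s3, h4, x, hx, h5⟩ := f.gen _ hD s''
    obtain ⟨s4, h6, y, hy1, hy2, h7⟩ := f.filt (f.mono h4 h2) h5
    rcases hx with hx | hx
    · obtain ⟨q, hq1, hq2⟩ := hx
      exact ⟨s4, (h6.trans h4).trans h1, q,
        fun t ht => ⟨t, le_rfl, x, f.mono (ht.trans h6) h5, hq1⟩, hq2⟩
    · exact (hx ⟨y, hy2, hy1⟩).elim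
-- END C3

instance : Category.{0} CP where
  Hom Q P := Hom Q P
  id P := Hom.id P
  comp f g := Hom.comp f g
  id_comp f := Hom.id_comp' f
  comp_id f := Hom.comp_id' f
  assoc f g h := Hom.assoc' f g h

theorem hom_ext {Q P : CP} {f g : Q ⟶ P} (h : ∀ q p, f.rel q p ↔ g.rel q p) : f = g :=
  Hom.ext (by funext q p; exact propext (h q p))

theorem comp_rel {R Q P : CP} (f : R ⟶ Q) (g : Q ⟶ P) (r : R.X) (p : P.X) :
    (f ≫ g).rel r p ↔ ∀ r' ≤ r, ∃ r'' ≤ r', ∃ q, f.rel r'' q ∧ g.rel q p := Iff.rfl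

theorem comp_rel_of {R Q P : CP} {f : R ⟶ Q} {g : Q ⟶ P} {r : R.X} {q : Q.X} {p : P.X}
    (hf : f.rel r q) (hg : g.rel q p) : (f ≫ g).rel r p :=
  fun r' hr' => ⟨r', le_rfl, q, f.mono hr' hf, hg⟩

-- BEGIN C4
/-- (task C4) two conditions in the generic filter are compatible; one may decide dense sets below
a condition in the generic filter -/
theorem Hom.compat {Q P : CP} (f : Q ⟶ P) {q : Q.X} {p p' : P.X} (h : f.rel q p)
    (h' : f.rel q p') : Compat p p' := by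
  obtain ⟨_, _, r, h1, h2, _⟩ := f.filt h h'
  exact ⟨r, h1, h2⟩

theorem Hom.gen_below {Q P : CP} (f : Q ⟶ P) {q : Q.X} {p : P.X} (h : f.rel q p) (D : Set P.X)
    (hD : ∀ p' ≤ p, ∃ p'' ≤ p', p'' ∈ D) : ∃ q' ≤ q, ∃ r ≤ p, r ∈ D ∧ f.rel q' r := by
  obtain ⟨q', hq', x, hx, hfx⟩ := f.gen {x | (x ∈ D ∧ x ≤ p) ∨ ¬ Compat x p} (by
    intro y
    by_cases hy : Compat y p
    · obtain ⟨z, hzy, hzp⟩ := hy
      obtain ⟨w, hwz, hwD⟩ := hD z hzp
      exact ⟨w, hwz.trans hzy, Or.inl ⟨hwD, hwz.trans hzp⟩⟩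
    · exact ⟨y, le_rfl, Or.inr hy⟩) q
  rcases hx with ⟨hxD, hxp⟩ | hx
  · exact ⟨q', hq', x, hxp, hxD, hfx⟩
  · exact absurd (Hom.compat f hfx (f.mono hq' h)) hx
-- END C4

/-- projections of preorders -/
structure IsProj {Q P : CP} (φ : Q.X → P.X) : Prop where
  mono : ∀ {q q' : Q.X}, q' ≤ q → φ q' ≤ φ q
  proj : ∀ (q : Q.X) (p : P.X), p ≤ φ q → ∃ q' ≤ q, φ q' ≤ p

-- BEGIN C5
/-- (task C5) names from projections -/
theorem ofProj_loc {Q P : CP} {φ : Q.X → P.X} (hφ : IsProj φ) {q : Q.X} {p : P.X}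
    (h : ∀ q' ≤ q, ∃ q'' ≤ q', ∀ r ≤ q'', Compat (φ r) p) : ∀ r ≤ q, Compat (φ r) p := by
  intro r hr
  obtain ⟨q'', hq'', H⟩ := h r hr
  obtain ⟨s, hs1, hs2⟩ := H q'' le_rfl
  exact ⟨s, hs1.trans (hφ.mono hq''), hs2⟩

theorem ofProj_filt {Q P : CP} {φ : Q.X → P.X} (hφ : IsProj φ) {q : Q.X} {p p' : P.X}
    (h : ∀ r ≤ q, Compat (φ r) p) (h' : ∀ r ≤ q, Compat (φ r) p') :
    ∃ q' ≤ q, ∃ r, r ≤ p ∧ r ≤ p' ∧ ∀ s ≤ q', Compat (φ s) r := by
  obtain ⟨a, ha1, ha2⟩ := h q le_rfl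
  obtain ⟨q₁, hq₁, hq₁a⟩ := hφ.proj q a ha1
  obtain ⟨b, hb1, hb2⟩ := h' q₁ hq₁
  obtain ⟨q₂, hq₂, hq₂b⟩ := hφ.proj q₁ b hb1
  refine ⟨q₂, hq₂.trans hq₁, φ q₂, ?_, hq₂b.trans hb2, ?_⟩
  · exact (hφ.mono hq₂).trans (hq₁a.trans ha2)
  · intro s hs
    exact ⟨φ s, le_rfl, hφ.mono hs⟩

theorem ofProj_gen {Q P : CP} {φ : Q.X → P.X} (hφ : IsProj φ) (D : Set P.X) (hD : Dense D)
    (q : Q.X) : ∃ q' ≤ q, ∃ p ∈ D, ∀ r ≤ q', Compat (φ r) p := by
  obtain ⟨p, hp, hpD⟩ := hD (φ q)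
  obtain ⟨q', hq', hq'p⟩ := hφ.proj q p hp
  exact ⟨q', hq', p, hpD, fun r hr => ⟨φ r, le_rfl, (hφ.mono hr).trans hq'p⟩⟩
-- END C5

/-- the name of a projection -/
def ofProj {Q P : CP} (φ : Q.X → P.X) (hφ : IsProj φ) : Q ⟶ P where
  rel q p := ∀ r ≤ q, Compat (φ r) p
  mono h H r hr := H r (hr.trans h)
  loc := ofProj_loc hφ
  up h H r hr := let ⟨s, h1, h2⟩ := H r hr; ⟨s, h1, h2.trans h⟩
  filt := ofProj_filt hφ
  gen := ofProj_gen hφ

-- BEGIN C6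
/-- (task C6) calculus of projections -/
theorem ofProj_rel_of {Q P : CP} {φ : Q.X → P.X} (hφ : IsProj φ) {q : Q.X} {p : P.X}
    (h : φ q ≤ p) : (ofProj φ hφ).rel q p :=
  fun r hr => ⟨φ r, le_rfl, (hφ.mono hr).trans h⟩

theorem c6_ofProj_rel_iff {Q P : CP} {φ : Q.X → P.X} (hφ : IsProj φ) (q : Q.X) (p : P.X) :
    (ofProj φ hφ).rel q p ↔ ∀ r ≤ q, Compat (φ r) p := Iff.rfl

theorem ofProj_comp_rel {R Q P : CP} {φ : R.X → Q.X} (hφ : IsProj φ) (g : Q ⟶ P) (r : R.X)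
    (p : P.X) : (ofProj φ hφ ≫ g).rel r p ↔ g.rel (φ r) p := by
  constructor
  · intro h
    apply g.loc
    intro x hx
    obtain ⟨r₁, hr₁, hr₁x⟩ := hφ.proj r x hx
    obtain ⟨r₂, hr₂, q, hq, hg⟩ := h r₁ hr₁
    obtain ⟨s, hs1, hs2⟩ := hq r₂ le_rfl
    exact ⟨s, hs1.trans ((hφ.mono hr₂).trans hr₁x), g.mono hs2 hg⟩
  · intro h r' hr'
    exact ⟨r', le_rfl, φ r', ofProj_rel_of hφ le_rfl, g.mono (hφ.mono hr') h⟩

theorem comp_ofProj_rel {R Q P : CP} (f : R ⟶ Q) {φ : Q.X → P.X} (hφ : IsProj φ) (r : R.X)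
    (p : P.X) : (f ≫ ofProj φ hφ).rel r p ↔ ∀ r' ≤ r, ∃ r'' ≤ r', ∃ q, f.rel r'' q ∧ φ q ≤ p := by
  constructor
  · intro h r' hr'
    obtain ⟨r₁, hr₁, q, hf, hq⟩ := h r' hr'
    -- below `q`, the conditions whose image is below `p` are dense
    obtain ⟨r₂, hr₂, x, hx, hxD, hfx⟩ := f.gen_below hf {x | φ x ≤ p} (by
      intro y hy
      obtain ⟨s, hs1, hs2⟩ := hq y hy
      obtain ⟨y', hy', hy's⟩ := hφ.proj y s hs1
      exact ⟨y', hy', hy's.trans hs2⟩)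
    exact ⟨r₂, hr₂.trans hr₁, x, hfx, hxD⟩
  · intro h r' hr'
    obtain ⟨r₁, hr₁, q, hf, hq⟩ := h r' hr'
    exact ⟨r₁, hr₁, q, hf, ofProj_rel_of hφ hq⟩

theorem IsProj.comp {R Q P : CP} {φ : R.X → Q.X} {ψ : Q.X → P.X} (hφ : IsProj φ)
    (hψ : IsProj ψ) : IsProj (Q := R) (P := P) (ψ ∘ φ) where
  mono h := hψ.mono (hφ.mono h)
  proj q p hp := by
    obtain ⟨x, hx, hxp⟩ := hψ.proj (φ q) p hp
    obtain ⟨q', hq', hq'x⟩ := hφ.proj q x hx
    exact ⟨q', hq', (hψ.mono hq'x).trans hxp⟩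

theorem ofProj_comp {R Q P : CP} {φ : R.X → Q.X} {ψ : Q.X → P.X} (hφ : IsProj φ)
    (hψ : IsProj ψ) : ofProj φ hφ ≫ ofProj ψ hψ = ofProj (ψ ∘ φ) (hφ.comp hψ) := by
  apply hom_ext
  intro r p
  rw [ofProj_comp_rel]
  constructor
  · intro h s hs
    exact h (φ s) (hφ.mono hs)
  · intro h x hx
    obtain ⟨s, hs, hsx⟩ := hφ.proj r x hx
    obtain ⟨t, ht1, ht2⟩ := h s hs
    exact ⟨t, ht1.trans (hψ.mono hsx), ht2⟩

theorem isProj_id (P : CP) : IsProj (Q := P) (P := P) id where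
  mono h := h
  proj _ p hp := ⟨p, hp, le_rfl⟩

theorem ofProj_id (P : CP) : ofProj id (isProj_id P) = 𝟙 P := by
  apply hom_ext
  intro r p
  exact Iff.rfl
-- END C6

/-- products -/
def prod (P Q : CP) : CP := ⟨P.X × Q.X⟩

-- BEGIN C7
/-- (task C7) the projections of a product are projections -/
theorem isProj_fst (P Q : CP) : IsProj (Q := prod P Q) (P := P) Prod.fst where
  mono h := h.1
  proj q p hp := ⟨(p, q.2), ⟨hp, le_rfl⟩, le_rfl⟩

theorem isProj_snd (P Q : CP) : IsProj (Q := prod P Q) (P := Q) Prod.snd where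
  mono h := h.2
  proj q p hp := ⟨(q.1, p), ⟨le_rfl, hp⟩, le_rfl⟩
-- END C7

def fst (P Q : CP) : prod P Q ⟶ P := ofProj Prod.fst (isProj_fst P Q)
def snd (P Q : CP) : prod P Q ⟶ Q := ofProj Prod.snd (isProj_snd P Q)

-- BEGIN C8
theorem c8_fst {R P Q : CP} (h : R ⟶ prod P Q) (r : R.X) (p : P.X) : (h ≫ fst P Q).rel r p ↔
    ∀ r' ≤ r, ∃ r'' ≤ r', ∃ y : (prod P Q).X, h.rel r'' y ∧ y.1 ≤ p :=
  comp_ofProj_rel h (isProj_fst P Q) r p

theorem c8_snd {R P Q : CP} (h : R ⟶ prod P Q) (r : R.X) (q : Q.X) : (h ≫ snd P Q).rel r q ↔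
    ∀ r' ≤ r, ∃ r'' ≤ r', ∃ y : (prod P Q).X, h.rel r'' y ∧ y.2 ≤ q :=
  comp_ofProj_rel h (isProj_snd P Q) r q

/-- (task C8) a name for a product is determined by its components -/
theorem rel_prod_iff {R P Q : CP} (h : R ⟶ prod P Q) (r : R.X) (p : P.X) (q : Q.X) :
    h.rel r (p, q) ↔ (h ≫ fst P Q).rel r p ∧ (h ≫ snd P Q).rel r q := by
  refine Iff.trans ?_ (and_congr (c8_fst h r p) (c8_snd h r q)).symm
  constructor
  · intro H
    exact ⟨fun r' hr' => ⟨r', le_rfl, (p, q), h.mono hr' H, le_rfl⟩,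
      fun r' hr' => ⟨r', le_rfl, (p, q), h.mono hr' H, le_rfl⟩⟩
  · rintro ⟨H1, H2⟩
    refine h.loc ?_
    intro r' hr'
    obtain ⟨r1, hr1, x1, hx1, hp1⟩ := H1 r' hr'
    obtain ⟨r2, hr2, x2, hx2, hp2⟩ := H2 r1 (hr1.trans hr')
    obtain ⟨r3, hr3, s, hs1, hs2, hs⟩ := h.filt (h.mono hr2 hx1) hx2
    exact ⟨r3, hr3.trans (hr2.trans hr1), h.up (p := s) (p' := (p, q)) ⟨hs1.1.trans hp1, hs2.2.trans hp2⟩ hs⟩

theorem prod_ext {R P Q : CP} {h h' : R ⟶ prod P Q} (h1 : h ≫ fst P Q = h' ≫ fst P Q)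
    (h2 : h ≫ snd P Q = h' ≫ snd P Q) : h = h' := by
  refine hom_ext ?_
  rintro r ⟨p, q⟩
  refine (rel_prod_iff h r p q).trans (Iff.trans ?_ (rel_prod_iff h' r p q).symm)
  rw [h1, h2]
-- END C8

-- BEGIN C9
/-- (task C9) product of two names -/
theorem map_filt {P P' Q Q' : CP} (f : P ⟶ P') (g : Q ⟶ Q') {x : (prod P Q).X}
    {y y' : (prod P' Q').X} (h : f.rel x.1 y.1 ∧ g.rel x.2 y.2)
    (h' : f.rel x.1 y'.1 ∧ g.rel x.2 y'.2) :
    ∃ x' ≤ x, ∃ z, z ≤ y ∧ z ≤ y' ∧ f.rel x'.1 z.1 ∧ g.rel x'.2 z.2 := by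
  obtain ⟨x1, hx1, z1, hz1, hz1', hf⟩ := f.filt h.1 h'.1
  obtain ⟨x2, hx2, z2, hz2, hz2', hg⟩ := g.filt h.2 h'.2
  exact ⟨(x1, x2), ⟨hx1, hx2⟩, (z1, z2), ⟨hz1, hz2⟩, ⟨hz1', hz2'⟩, hf, hg⟩

theorem map_gen {P P' Q Q' : CP} (f : P ⟶ P') (g : Q ⟶ Q') (D : Set (prod P' Q').X)
    (hD : Dense D) (x : (prod P Q).X) : ∃ x' ≤ x, ∃ y ∈ D, f.rel x'.1 y.1 ∧ g.rel x'.2 y.2 := by
  have hD1 : Dense {p1 : P'.X | ∃ x2 ≤ x.2, ∃ q, g.rel x2 q ∧ ((p1, q) : (prod P' Q').X) ∈ D} := by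
    intro p
    have hE : Dense {q : Q'.X | ∃ p1 ≤ p, ((p1, q) : (prod P' Q').X) ∈ D} := by
      intro q
      obtain ⟨y, hy, hyD⟩ := hD (p, q)
      exact ⟨y.2, hy.2, y.1, hy.1, hyD⟩
    obtain ⟨x2, hx2, q, ⟨p1, hp1, hpq⟩, hg⟩ := g.gen _ hE x.2
    exact ⟨p1, hp1, x2, hx2, q, hg, hpq⟩
  obtain ⟨x1, hx1, p1, ⟨x2, hx2, q, hg, hpq⟩, hf⟩ := f.gen _ hD1 x.1
  exact ⟨(x1, x2), ⟨hx1, hx2⟩, (p1, q), hpq, hf, hg⟩

theorem map_loc {P P' Q Q' : CP} (f : P ⟶ P') (g : Q ⟶ Q') {x : (prod P Q).X}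
    {y : (prod P' Q').X} (h : ∀ x' ≤ x, ∃ x'' ≤ x', f.rel x''.1 y.1 ∧ g.rel x''.2 y.2) :
    f.rel x.1 y.1 ∧ g.rel x.2 y.2 := by
  constructor
  · refine f.loc ?_
    intro q' hq'
    obtain ⟨x'', hx'', h1, _⟩ := h (q', x.2) ⟨hq', le_rfl⟩
    exact ⟨x''.1, hx''.1, h1⟩
  · refine g.loc ?_
    intro q' hq'
    obtain ⟨x'', hx'', _, h2⟩ := h (x.1, q') ⟨le_rfl, hq'⟩
    exact ⟨x''.2, hx''.2, h2⟩
-- END C9

/-- the product of two names -/
def map {P P' Q Q' : CP} (f : P ⟶ P') (g : Q ⟶ Q') : prod P Q ⟶ prod P' Q' where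
  rel x y := f.rel x.1 y.1 ∧ g.rel x.2 y.2
  mono h H := ⟨f.mono h.1 H.1, g.mono h.2 H.2⟩
  loc := map_loc f g
  up h H := ⟨f.up h.1 H.1, g.up h.2 H.2⟩
  filt := map_filt f g
  gen := map_gen f g

-- BEGIN C10
/-- (task C10) functoriality of products -/
theorem map_fst {P P' Q Q' : CP} (f : P ⟶ P') (g : Q ⟶ Q') :
    map f g ≫ fst P' Q' = fst P Q ≫ f := by
  refine hom_ext ?_
  intro x p
  have e1 : (map f g ≫ fst P' Q').rel x p ↔
      ∀ r' ≤ x, ∃ r'' ≤ r', ∃ y : (prod P' Q').X, (map f g).rel r'' y ∧ y.1 ≤ p :=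
    comp_ofProj_rel (map f g) (isProj_fst P' Q') x p
  have e2 : (fst P Q ≫ f).rel x p ↔ f.rel x.1 p := ofProj_comp_rel (isProj_fst P Q) f x p
  refine e1.trans (Iff.trans ?_ e2.symm)
  constructor
  · intro H
    refine f.loc ?_
    intro q' hq'
    obtain ⟨x'', hx'', y, hy, hyp⟩ := H (q', x.2) ⟨hq', le_rfl⟩
    exact ⟨x''.1, hx''.1, f.up hyp hy.1⟩
  · intro H x' hx'
    obtain ⟨x2, hx2, q, _, hq⟩ := g.gen Set.univ (fun q => ⟨q, le_rfl, trivial⟩) x'.2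
    exact ⟨(x'.1, x2), ⟨le_rfl, hx2⟩, (p, q), ⟨f.mono hx'.1 H, hq⟩, le_rfl⟩

theorem map_snd {P P' Q Q' : CP} (f : P ⟶ P') (g : Q ⟶ Q') :
    map f g ≫ snd P' Q' = snd P Q ≫ g := by
  refine hom_ext ?_
  intro x p
  have e1 : (map f g ≫ snd P' Q').rel x p ↔
      ∀ r' ≤ x, ∃ r'' ≤ r', ∃ y : (prod P' Q').X, (map f g).rel r'' y ∧ y.2 ≤ p :=
    comp_ofProj_rel (map f g) (isProj_snd P' Q') x p
  have e2 : (snd P Q ≫ g).rel x p ↔ g.rel x.2 p := ofProj_comp_rel (isProj_snd P Q) g x p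
  refine e1.trans (Iff.trans ?_ e2.symm)
  constructor
  · intro H
    refine g.loc ?_
    intro q' hq'
    obtain ⟨x'', hx'', y, hy, hyp⟩ := H (x.1, q') ⟨le_rfl, hq'⟩
    exact ⟨x''.2, hx''.2, g.up hyp hy.2⟩
  · intro H x' hx'
    obtain ⟨x2, hx2, q, _, hq⟩ := f.gen Set.univ (fun q => ⟨q, le_rfl, trivial⟩) x'.1
    exact ⟨(x2, x'.2), ⟨hx2, le_rfl⟩, (q, p), ⟨hq, g.mono hx'.2 H⟩, le_rfl⟩

theorem map_comp {P P' P'' Q Q' Q'' : CP} (f : P ⟶ P') (g : Q ⟶ Q') (f' : P' ⟶ P'')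
    (g' : Q' ⟶ Q'') : map f g ≫ map f' g' = map (f ≫ f') (g ≫ g') := by
  refine prod_ext ?_ ?_
  · rw [Category.assoc, map_fst, ← Category.assoc, map_fst, Category.assoc, map_fst]
  · rw [Category.assoc, map_snd, ← Category.assoc, map_snd, Category.assoc, map_snd]

theorem map_id (P Q : CP) : map (𝟙 P) (𝟙 Q) = 𝟙 (prod P Q) := by
  refine prod_ext ?_ ?_
  · rw [map_fst, Category.comp_id, Category.id_comp]
  · rw [map_snd, Category.comp_id, Category.id_comp]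
-- END C10

/-- the conditions below `p` -/
def below (P : CP) (p : P.X) : CP where
  X := {x : P.X // x ≤ p}
  ne := ⟨⟨p, le_rfl⟩⟩

/-- embeddings onto a downward closed set -/
structure IsEmb {Q P : CP} (φ : Q.X → P.X) : Prop where
  le_iff : ∀ a b : Q.X, φ a ≤ φ b ↔ a ≤ b
  down : ∀ (a : Q.X) (x : P.X), x ≤ φ a → ∃ b, φ b = x

-- BEGIN C11
/-- (task C11) embeddings -/
theorem IsEmb.isProj {Q P : CP} {φ : Q.X → P.X} (h : IsEmb φ) : IsProj φ where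
  mono {q q'} hq := (h.le_iff q' q).2 hq
  proj q p hp := by
    obtain ⟨b, rfl⟩ := h.down q p hp
    exact ⟨b, (h.le_iff b q).1 hp, le_rfl⟩

theorem isEmb_val (P : CP) (p : P.X) : IsEmb (Q := below P p) (P := P) Subtype.val where
  le_iff _ _ := Iff.rfl
  down a x hx := ⟨⟨x, le_trans hx a.2⟩, rfl⟩

theorem isProj_resMap (P : CP) {p' p : P.X} (h : p' ≤ p) :
    IsProj (Q := below P p') (P := below P p) (fun x => ⟨x.1, x.2.trans h⟩) where
  mono hq := hq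
  proj q x hx := ⟨⟨x.1, le_trans (show x.1 ≤ q.1 from hx) q.2⟩, (show x.1 ≤ q.1 from hx), le_rfl⟩

theorem IsEmb.prodMap {Q P Q' P' : CP} {φ : Q.X → P.X} {ψ : Q'.X → P'.X} (h : IsEmb φ)
    (h' : IsEmb ψ) : IsEmb (Q := prod Q Q') (P := prod P P') (Prod.map φ ψ) where
  le_iff a b := and_congr (h.le_iff a.1 b.1) (h'.le_iff a.2 b.2)
  down a x hx := by
    obtain ⟨b, hb⟩ := h.down a.1 x.1 hx.1
    obtain ⟨b', hb'⟩ := h'.down a.2 x.2 hx.2
    exact ⟨(b, b'), Prod.ext hb hb'⟩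

theorem isEmb_id (P : CP) : IsEmb (Q := P) (P := P) id where
  le_iff _ _ := Iff.rfl
  down _ x _ := ⟨x, rfl⟩

theorem map_ofProj {Q P Q' P' : CP} {φ : Q.X → P.X} {ψ : Q'.X → P'.X} (h : IsEmb φ)
    (h' : IsEmb ψ) :
    map (ofProj φ h.isProj) (ofProj ψ h'.isProj) = ofProj (Prod.map φ ψ) (h.prodMap h').isProj := by
  refine hom_ext ?_
  intro q p
  constructor
  · rintro ⟨H1, H2⟩ r hr
    obtain ⟨s1, h11, h12⟩ := H1 r.1 hr.1
    obtain ⟨s2, h21, h22⟩ := H2 r.2 hr.2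
    exact ⟨(s1, s2), ⟨h11, h21⟩, ⟨h12, h22⟩⟩
  · intro H
    constructor
    · intro r hr
      obtain ⟨s, hs1, hs2⟩ := H (r, q.2) ⟨hr, le_rfl⟩
      exact ⟨s.1, hs1.1, hs2.1⟩
    · intro r hr
      obtain ⟨s, hs1, hs2⟩ := H (q.1, r) ⟨le_rfl, hr⟩
      exact ⟨s.2, hs1.2, hs2.2⟩
-- END C11

def incl (P : CP) (p : P.X) : below P p ⟶ P := ofProj Subtype.val (isEmb_val P p).isProj
def resMap (P : CP) {p' p : P.X} (h : p' ≤ p) : below P p' ⟶ below P p :=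
  ofProj _ (isProj_resMap P h)

/-- the generic filter contains `p` -/
def Con {Q P : CP} (h : Q ⟶ P) (p : P.X) : Prop := ∀ q, h.rel q p

-- BEGIN C12
/-- (task C12) restrictions -/
theorem resMap_incl (P : CP) {p' p : P.X} (h : p' ≤ p) : resMap P h ≫ incl P p = incl P p' := by
  exact ofProj_comp (isProj_resMap P h) (isEmb_val P p).isProj

theorem resMap_comp (P : CP) {p'' p' p : P.X} (h' : p'' ≤ p') (h : p' ≤ p) :
    resMap P h' ≫ resMap P h = resMap P (h'.trans h) := by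
  exact ofProj_comp (isProj_resMap P h') (isProj_resMap P h)

theorem Con.comp {R Q P : CP} {h : Q ⟶ P} {p : P.X} (H : Con h p) (f : R ⟶ Q) :
    Con (f ≫ h) p := by
  intro r r' _
  obtain ⟨r'', hr'', q, _, hq⟩ := f.gen Set.univ (fun q => ⟨q, le_rfl, trivial⟩) r'
  exact ⟨r'', hr'', q, hq, H q⟩

theorem c12_con_incl_iff {Q P : CP} (h : Q ⟶ P) (q : Q.X) (p : P.X) :
    Con (incl Q q ≫ h) p ↔ h.rel q p := by
  have e : ∀ x : (below Q q).X, (incl Q q ≫ h).rel x p ↔ h.rel x.1 p := fun x =>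
    ofProj_comp_rel (isEmb_val Q q).isProj h x p
  constructor
  · intro H
    exact (e ⟨q, le_rfl⟩).1 (H ⟨q, le_rfl⟩)
  · intro H x
    exact (e x).2 (h.mono x.2 H)

theorem Con.loc {Q P : CP} {h : Q ⟶ P} {p : P.X}
    (H : Dn (fun (d : CP) (f : d ⟶ Q) => Con (f ≫ h) p)) : Con h p := by
  intro q
  refine h.loc ?_
  intro q' _
  have hD : Dense {x : P.X | x ≤ p ∨ ¬ Compat x p} := by
    intro y
    by_cases hy : Compat y p
    · obtain ⟨r, h1, h2⟩ := hy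
      exact ⟨r, h1, Or.inl h2⟩
    · exact ⟨y, le_rfl, Or.inr hy⟩
  obtain ⟨q'', hq'', x, hx, hr⟩ := h.gen _ hD q'
  refine ⟨q'', hq'', ?_⟩
  rcases hx with hx | hx
  · exact h.up hx hr
  · exfalso
    obtain ⟨e, g, hg⟩ := H (below Q q'') (incl Q q'')
    have h1 := Con.comp ((c12_con_incl_iff h q'' x).2 hr) g
    rw [← Category.assoc] at h1
    obtain ⟨z⟩ := e.ne
    exact hx (Hom.compat _ (h1 z) (hg z))

theorem con_incl_iff {Q P : CP} (h : Q ⟶ P) (q : Q.X) (p : P.X) :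
    Con (incl Q q ≫ h) p ↔ h.rel q p := c12_con_incl_iff h q p

theorem con_incl (P : CP) (p : P.X) : Con (incl P p) p := by
  intro x
  exact ofProj_rel_of _ x.2

theorem con_resMap (P : CP) {p' p : P.X} (h : p' ≤ p) : Con (resMap P h) ⟨p', h⟩ := by
  intro x
  exact ofProj_rel_of _ x.2

theorem con_prod_iff {R P Q : CP} (h : R ⟶ prod P Q) (p : P.X) (q : Q.X) :
    Con h (p, q) ↔ Con (h ≫ fst P Q) p ∧ Con (h ≫ snd P Q) q := by
  constructor
  · intro H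
    exact ⟨fun r => ((rel_prod_iff h r p q).1 (H r)).1, fun r => ((rel_prod_iff h r p q).1 (H r)).2⟩
  · rintro ⟨H1, H2⟩ r
    exact (rel_prod_iff h r p q).2 ⟨H1 r, H2 r⟩

theorem con_map {P P' Q Q' : CP} {f : P ⟶ P'} {g : Q ⟶ Q'} {p : P'.X} {q : Q'.X}
    (hf : Con f p) (hg : Con g q) : Con (map f g) (p, q) := by
  intro x
  exact ⟨hf _, hg _⟩

theorem Con.up {Q P : CP} {h : Q ⟶ P} {p p' : P.X} (H : Con h p) (hp : p ≤ p') : Con h p' := by
  intro q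
  exact Hom.up h hp (H q)
-- END C12

-- BEGIN C13
/-- (task C13) lifting along embeddings -/
theorem exists_lift {R Q P : CP} {φ : Q.X → P.X} (hφ : IsEmb φ) (h : R ⟶ P)
    (H : ∀ r, ∃ r' ≤ r, ∃ q, h.rel r' (φ q)) :
    ∃ h' : R ⟶ Q, h' ≫ ofProj φ hφ.isProj = h := by
  let k : Hom R Q :=
    { rel := fun r q => h.rel r (φ q)
      mono := fun h1 h2 => h.mono h1 h2
      loc := fun h1 => h.loc h1
      up := fun h1 h2 => h.up ((hφ.le_iff _ _).2 h1) h2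
      filt := by
        intro r p p' h1 h2
        obtain ⟨r', hr', x, hx1, hx2, hx⟩ := h.filt h1 h2
        obtain ⟨b, rfl⟩ := hφ.down p x hx1
        exact ⟨r', hr', b, (hφ.le_iff _ _).1 hx1, (hφ.le_iff _ _).1 hx2, hx⟩
      gen := by
        intro D hD r
        obtain ⟨r₁, hr₁, q, hq⟩ := H r
        obtain ⟨r₂, hr₂, x, hx, ⟨b, hbD, rfl⟩, hfx⟩ :=
          Hom.gen_below h hq {x | ∃ b ∈ D, φ b = x} (by
            intro y hy
            obtain ⟨b, rfl⟩ := hφ.down q y hy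
            obtain ⟨b', hb', hb'D⟩ := hD b
            exact ⟨φ b', (hφ.le_iff _ _).2 hb', b', hb'D, rfl⟩)
        exact ⟨r₂, hr₂.trans hr₁, b, hbD, hfx⟩ }
  refine ⟨k, hom_ext ?_⟩
  intro r p
  rw [comp_ofProj_rel]
  constructor
  · intro h1
    apply h.loc
    intro r' hr'
    obtain ⟨r'', hr'', q, hq, hqp⟩ := h1 r' hr'
    exact ⟨r'', hr'', h.up hqp hq⟩
  · intro h1 r' hr'
    obtain ⟨r₁, hr₁, q, hq⟩ := H r'
    obtain ⟨r₂, hr₂, x, hx1, hx2, hx⟩ := h.filt (h.mono (hr₁.trans hr') h1) hq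
    obtain ⟨b, rfl⟩ := hφ.down q x hx2
    exact ⟨r₂, hr₂.trans hr₁, b, hx, hx1⟩

theorem c13_rel_iff {R Q P : CP} {φ : Q.X → P.X} (hφ : IsEmb φ) (f : R ⟶ Q) (r : R.X) (q : Q.X) :
    f.rel r q ↔ (f ≫ ofProj φ hφ.isProj).rel r (φ q) := by
  rw [comp_ofProj_rel]
  constructor
  · intro h r' hr'
    exact ⟨r', le_rfl, q, f.mono hr' h, le_rfl⟩
  · intro h
    apply f.loc
    intro r' hr'
    obtain ⟨r'', hr'', x, hx, hxq⟩ := h r' hr'
    exact ⟨r'', hr'', f.up ((hφ.le_iff _ _).1 hxq) hx⟩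

theorem ofProj_mono {R Q P : CP} {φ : Q.X → P.X} (hφ : IsEmb φ) {f f' : R ⟶ Q}
    (h : f ≫ ofProj φ hφ.isProj = f' ≫ ofProj φ hφ.isProj) : f = f' := by
  apply hom_ext
  intro r q
  rw [c13_rel_iff hφ f, c13_rel_iff hφ f', h]

theorem exists_lift_below {R P : CP} (h : R ⟶ P) {p : P.X} (H : Con h p) :
    ∃ h' : R ⟶ below P p, h' ≫ incl P p = h :=
  exists_lift (Q := below P p) (isEmb_val P p) h (fun r => ⟨r, le_rfl, ⟨p, le_rfl⟩, H r⟩)

theorem incl_mono {R P : CP} {p : P.X} {f f' : R ⟶ below P p}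
    (h : f ≫ incl P p = f' ≫ incl P p) : f = f' :=
  ofProj_mono (isEmb_val P p) h

theorem exists_lift_prod {R P T : CP} (h : R ⟶ prod P T) {p : P.X} (H : Con (h ≫ fst P T) p) :
    ∃ h' : R ⟶ prod (below P p) T, h' ≫ map (incl P p) (𝟙 T) = h := by
  have e : map (incl P p) (𝟙 T) =
      ofProj (Prod.map Subtype.val id) ((isEmb_val P p).prodMap (isEmb_id T)).isProj := by
    rw [← ofProj_id T]
    exact map_ofProj (isEmb_val P p) (isEmb_id T)
  rw [e]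
  refine exists_lift (Q := prod (below P p) T) ((isEmb_val P p).prodMap (isEmb_id T)) h ?_
  intro r
  obtain ⟨r₁, hr₁, x, hx, hxp⟩ := (comp_ofProj_rel h (isProj_fst P T) r p).1 (H r) r le_rfl
  exact ⟨r₁, hr₁, (⟨x.1, hxp⟩, x.2), hx⟩
-- END C13

end CP

end Pool.Agent.Lib.ZFM
end

section

/-!
Cohen forcing, absorption of countable forcings into a Cohen real, and the truth lemma.
-/

open CategoryTheory

namespace Pool.Agent.Lib.ZFM

namespace CP

/-- Cohen conditions: finite sequences of natural numbers -/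
structure Cn : Type where
  l : List ℕ

instance : Preorder Cn where
  le a b := b.l <+: a.l
  le_refl a := List.prefix_refl _
  le_trans _ _ _ h h' := h'.trans h

theorem Cn.le_def (a b : Cn) : a ≤ b ↔ b.l <+: a.l := Iff.rfl

instance : Countable Cn :=
  Function.Injective.countable (f := Cn.l) (fun a b h => by cases a; cases b; simp_all)

instance : Nonempty Cn := ⟨⟨[]⟩⟩

/-- Cohen forcing -/
def Coh : CP := ⟨Cn⟩

/-- prepend a finite sequence to a Cohen real -/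
def shiftFun (s : List ℕ) : Coh.X → Coh.X := fun c => (⟨s ++ c.l⟩ : Cn)

-- BEGIN A1
/-- (task A1) shifts -/
theorem isEmb_shift (s : List ℕ) : IsEmb (Q := Coh) (P := Coh) (shiftFun s) where
  le_iff a b := List.prefix_append_right_inj s
  down a x hx := by
    obtain ⟨t, ht⟩ := hx
    refine ⟨(⟨Cn.l a ++ t⟩ : Cn), ?_⟩
    have h1 : s ++ (Cn.l a ++ t) = Cn.l x := by
      rw [← ht]
      exact (List.append_assoc _ _ _).symm
    exact congrArg Cn.mk h1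

theorem a1_comp (s t : List ℕ) : shiftFun t ∘ shiftFun s = shiftFun (t ++ s) := by
  funext c
  exact congrArg Cn.mk (List.append_assoc t s (Cn.l c)).symm

theorem shift_comp_aux (s t : List ℕ) :
    ofProj (shiftFun s) (isEmb_shift s).isProj ≫ ofProj (shiftFun t) (isEmb_shift t).isProj =
      ofProj (shiftFun (t ++ s)) (isEmb_shift (t ++ s)).isProj := by
  rw [ofProj_comp]
  congr 1
  exact a1_comp s t
-- END A1

/-- the name `c ↦ s⌢c` -/
def shift (s : List ℕ) : Coh ⟶ Coh := ofProj (shiftFun s) (isEmb_shift s).isProj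

-- BEGIN A2
/-- (task A2) -/
theorem con_shift (s : List ℕ) : Con (shift s) (⟨s⟩ : Cn) :=
  fun q => ofProj_rel_of _ (List.prefix_append s (Cn.l q))

theorem con_comp_shift {Q : CP} (h : Q ⟶ Coh) (s : List ℕ) : Con (h ≫ shift s) (⟨s⟩ : Cn) :=
  (con_shift s).comp h

theorem shift_shift (s t : List ℕ) : shift s ≫ shift t = shift (t ++ s) :=
  shift_comp_aux s t
-- END A2

/-- `p` is a reduction of `e`: every extension of `p` is compatible with `e` -/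
def Red {E P : CP} (g : E ⟶ P) (p : P.X) (e : E.X) : Prop := ∀ p' ≤ p, ∃ e' ≤ e, g.rel e' p'

-- BEGIN A3
/-- (task A3) reductions -/
theorem exists_red {E P : CP} (g : E ⟶ P) (e : E.X) : ∃ p, Red g p e := by
  by_contra hc
  have hD : Dense {p' : P.X | ∀ e' ≤ e, ¬ g.rel e' p'} := by
    intro p
    by_contra hp
    refine hc ⟨p, fun p' hp' => ?_⟩
    by_contra hn
    exact hp ⟨p', hp', fun e' he' hg => hn ⟨e', he', hg⟩⟩
  obtain ⟨e', he', p, hp, hg⟩ := g.gen _ hD e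
  exact hp e' he' hg

theorem Red.mono {E P : CP} {g : E ⟶ P} {p p' : P.X} {e : E.X} (h : Red g p e) (hp : p' ≤ p) :
    Red g p' e :=
  fun x hx => h x (hx.trans hp)

theorem Red.up {E P : CP} {g : E ⟶ P} {p : P.X} {e e' : E.X} (h : Red g p e) (he : e ≤ e') :
    Red g p e' := by
  intro x hx
  obtain ⟨e'', h1, h2⟩ := h x hx
  exact ⟨e'', h1.trans he, h2⟩

theorem Red.dense {E P : CP} {g : E ⟶ P} {p : P.X} {e : E.X} (h : Red g p e) (D : Set E.X)
    (hD : Dense D) : ∃ p' ≤ p, ∃ e' ≤ e, e' ∈ D ∧ Red g p' e' := by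
  obtain ⟨e₁, he₁, h₁⟩ := h p le_rfl
  obtain ⟨e', he', hD'⟩ := hD e₁
  obtain ⟨p₁, hp₁⟩ := exists_red g e'
  obtain ⟨e₂, he₂, h₂⟩ := hp₁ p₁ le_rfl
  obtain ⟨_, _, r, hr1, hr2, _⟩ := g.filt h₂ (g.mono (he₂.trans he') h₁)
  exact ⟨r, hr2, e', he'.trans he₁, hD', hp₁.mono hr1⟩
-- END A3

/-- below a reduction of `e` which is below `y`, the condition `e` can be extended to force `y` -/
theorem Red.force {E P : CP} {g : E ⟶ P} {p y : P.X} {e : E.X} (h : Red g p e) (hp : p ≤ y) :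
    ∃ p' ≤ p, ∃ e' ≤ e, g.rel e' y ∧ Red g p' e' := by
  obtain ⟨p', hp', e', he', hD, hr⟩ := h.dense {x | g.rel x y ∨ ∀ x' ≤ x, ¬ g.rel x' y} (by
    intro x
    by_cases hx : ∃ x' ≤ x, g.rel x' y
    · obtain ⟨x', hx', hg⟩ := hx
      exact ⟨x', hx', Or.inl hg⟩
    · exact ⟨x, le_rfl, Or.inr fun x' hx' hg => hx ⟨x', hx', hg⟩⟩)
  rcases hD with hD | hD
  · exact ⟨p', hp', e', he', hD, hr⟩
  · obtain ⟨e'', he'', hg⟩ := hr p' le_rfl
    exact absurd (g.up (hp'.trans hp) hg) (hD e'' he'')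

/-- the state reached from `ε` after reading the moves in the list (last move first) -/
def StR {E P : CP} (g : E ⟶ P) (en : ℕ → E.X) (ε : E.X) (p : P.X) : List ℕ → E.X → Prop
  | [], e => e = ε
  | k :: l, e => ∃ e₀, StR g en ε p l e₀ ∧
      ((en k ≤ e₀ ∧ Red g p (en k) ∧ e = en k) ∨
        ((¬ en k ≤ e₀ ∨ ∀ p' ≤ p, ¬ Red g p' (en k)) ∧ e = e₀))

/-- the state after reading the Cohen condition `s` -/
def St {E P : CP} (g : E ⟶ P) (en : ℕ → E.X) (ε : E.X) (p : P.X) (s : Cn) (e : E.X) : Prop :=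
  StR g en ε p s.l.reverse e

section State

variable {E P : CP} {g : E ⟶ P} {en : ℕ → E.X} {ε : E.X}

-- BEGIN A4
/-- (task A4) properties of the state relation -/
theorem a4_unique {p : P.X} : ∀ (l : List ℕ) (e e' : E.X), StR g en ε p l e → StR g en ε p l e' →
    e = e'
  | [], e, e', h, h' => by
    have h1 : e = ε := h
    have h2 : e' = ε := h'
    rw [h1, h2]
  | k :: l, e, e', h, h' => by
    obtain ⟨e₀, h₀, h⟩ := h
    obtain ⟨e₁, h₁, h'⟩ := h'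
    have e01 : e₀ = e₁ := a4_unique l e₀ e₁ h₀ h₁
    subst e01
    rcases h with ⟨ha, hb, hc⟩ | ⟨ha, hc⟩ <;> rcases h' with ⟨ha', hb', hc'⟩ | ⟨ha', hc'⟩
    · rw [hc, hc']
    · rcases ha' with ha' | ha'
      · exact absurd ha ha'
      · exact absurd hb (ha' p le_rfl)
    · rcases ha with ha | ha
      · exact absurd ha' ha
      · exact absurd hb' (ha p le_rfl)
    · rw [hc, hc']

theorem a4_mono {p p' : P.X} (hp : p' ≤ p) : ∀ (l : List ℕ) (e : E.X), StR g en ε p l e →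
    StR g en ε p' l e
  | [], _, h => h
  | k :: l, e, h => by
    obtain ⟨e₀, h₀, h⟩ := h
    refine ⟨e₀, a4_mono hp l e₀ h₀, ?_⟩
    rcases h with ⟨ha, hb, hc⟩ | ⟨ha, hc⟩
    · exact Or.inl ⟨ha, hb.mono hp, hc⟩
    · exact Or.inr ⟨ha.imp id (fun H x hx => H x (hx.trans hp)), hc⟩

theorem a4_exists (p : P.X) : ∀ (l : List ℕ), ∃ p' ≤ p, ∃ e, StR g en ε p' l e
  | [] => ⟨p, le_rfl, ε, rfl⟩
  | k :: l => by
    obtain ⟨p', hp', e₀, h₀⟩ := a4_exists p l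
    by_cases h1 : en k ≤ e₀
    · by_cases h2 : ∃ p'' ≤ p', Red g p'' (en k)
      · obtain ⟨p'', hp'', hr⟩ := h2
        exact ⟨p'', hp''.trans hp', en k, e₀, a4_mono hp'' l e₀ h₀, Or.inl ⟨h1, hr, rfl⟩⟩
      · exact ⟨p', hp', e₀, e₀, h₀, Or.inr ⟨Or.inr fun x hx hr => h2 ⟨x, hx, hr⟩, rfl⟩⟩
    · exact ⟨p', hp', e₀, e₀, h₀, Or.inr ⟨Or.inl h1, rfl⟩⟩

theorem a4_le {p : P.X} {l : List ℕ} {e : E.X} (h : StR g en ε p l e) :
    ∀ (u : List ℕ) (e' : E.X), StR g en ε p (u ++ l) e' → e' ≤ e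
  | [], e', h' => (a4_unique l e' e h' h).le
  | k :: u, e', h' => by
    obtain ⟨e₀, h₀, h'⟩ := h'
    have h1 : e₀ ≤ e := a4_le h u e₀ h₀
    rcases h' with ⟨ha, _, hc⟩ | ⟨_, hc⟩
    · rw [hc]
      exact ha.trans h1
    · rw [hc]
      exact h1

theorem a4_red {p : P.X} (hε : Red g p ε) : ∀ (l : List ℕ) (e : E.X), StR g en ε p l e →
    Red g p e
  | [], e, h => by
    have h1 : e = ε := h
    rw [h1]
    exact hε
  | k :: l, e, h => by
    obtain ⟨e₀, h₀, h⟩ := h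
    rcases h with ⟨_, hb, hc⟩ | ⟨_, hc⟩
    · rw [hc]
      exact hb
    · rw [hc]
      exact a4_red hε l e₀ h₀

theorem St.unique {p : P.X} {s : Cn} {e e' : E.X} (h : St g en ε p s e) (h' : St g en ε p s e') :
    e = e' :=
  a4_unique _ _ _ h h'

theorem St.mono {p p' : P.X} {s : Cn} {e : E.X} (h : St g en ε p s e) (hp : p' ≤ p) :
    St g en ε p' s e :=
  a4_mono hp _ _ h

theorem St.exists (p : P.X) (s : Cn) : ∃ p' ≤ p, ∃ e, St g en ε p' s e :=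
  a4_exists p _

theorem St.le {p : P.X} {s s' : Cn} {e e' : E.X} (hs : s' ≤ s) (h : St g en ε p s e)
    (h' : St g en ε p s' e') : e' ≤ e := by
  obtain ⟨t, ht⟩ := hs
  have h1 : s'.l.reverse = t.reverse ++ s.l.reverse := by
    rw [← ht, List.reverse_append]
  have h2 : StR g en ε p (t.reverse ++ s.l.reverse) e' := by
    rw [← h1]
    exact h'
  exact a4_le h _ _ h2

theorem St.red {p : P.X} {s : Cn} {e : E.X} (hε : Red g p ε) (h : St g en ε p s e) :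
    Red g p e :=
  a4_red hε _ _ h
-- END A4

-- BEGIN A5
/-- (task A5) the state can be moved to any reduced condition -/
theorem St.move {p : P.X} {s : Cn} {e e' : E.X} (hen : Function.Surjective en)
    (h : St g en ε p s e) (he : e' ≤ e) (hr : Red g p e') :
    ∃ s' ≤ s, St g en ε p s' e' := by
  obtain ⟨k, rfl⟩ := hen e'
  refine ⟨⟨s.l ++ [k]⟩, List.prefix_append _ _, ?_⟩
  unfold St
  rw [List.reverse_append, List.reverse_singleton, List.singleton_append]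
  exact ⟨e, h, Or.inl ⟨he, hr, rfl⟩⟩
-- END A5

/-- for compatible `p, p'` and comparable `s, s'` the states are comparable -/
theorem St.le' {p p' : P.X} {s s' : Cn} {e e' : E.X} (hp : p' ≤ p) (hs : s' ≤ s)
    (h : St g en ε p s e) (h' : St g en ε p' s' e') : e' ≤ e :=
  St.le hs (h.mono hp) h'

end State

/-- the relation which defines the absorbing name -/
def absRel {E P : CP} (g : E ⟶ P) (en : ℕ → E.X) (ε : E.X) (p : P.X)
    (a : (prod (below P p) Coh).X) (x : E.X) : Prop :=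
  ∀ b ≤ a, ∃ c ≤ b, ∃ e, St g en ε c.1.1 c.2 e ∧ e ≤ x

-- BEGIN A6
/-- (task A6) the absorbing name is a name -/
theorem a6_absRel_of {E P : CP} {g : E ⟶ P} {en : ℕ → E.X} {ε : E.X} {p : P.X}
    {b : (prod (below P p) Coh).X} {x : E.X} (h : St g en ε b.1.1 b.2 x) :
    absRel g en ε p b x := by
  intro b' hb'
  obtain ⟨p'', hp'', e'', h''⟩ := St.exists (g := g) (en := en) (ε := ε) b'.1.1 b'.2
  refine ⟨(⟨p'', hp''.trans b'.1.2⟩, b'.2), ⟨hp'', le_rfl⟩, e'', h'', ?_⟩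
  exact St.le' (hp''.trans hb'.1) hb'.2 h h''

theorem absRel_filt {E P : CP} {g : E ⟶ P} {en : ℕ → E.X} {ε : E.X} {p : P.X}
    {a : (prod (below P p) Coh).X} {x x' : E.X} (h : absRel g en ε p a x)
    (h' : absRel g en ε p a x') :
    ∃ b ≤ a, ∃ y, y ≤ x ∧ y ≤ x' ∧ absRel g en ε p b y := by
  obtain ⟨c, hc, e, he, hex⟩ := h a le_rfl
  obtain ⟨c', hc', e', he', hex'⟩ := h' c hc
  have h1 : e' ≤ e := St.le' (p := c.1.1) (p' := c'.1.1) hc'.1 hc'.2 he he'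
  exact ⟨c', hc'.trans hc, e', h1.trans hex, hex', a6_absRel_of he'⟩

theorem absRel_gen {E P : CP} {g : E ⟶ P} {en : ℕ → E.X} {ε : E.X} {p : P.X}
    (hen : Function.Surjective en) (hε : Red g p ε) (D : Set E.X) (hD : Dense D)
    (a : (prod (below P p) Coh).X) : ∃ b ≤ a, ∃ x ∈ D, absRel g en ε p b x := by
  obtain ⟨p₁, hp₁, e, he⟩ := St.exists (g := g) (en := en) (ε := ε) a.1.1 a.2
  have hr : Red g p₁ e := St.red (hε.mono (hp₁.trans a.1.2)) he
  obtain ⟨p₂, hp₂, e', he', heD, hr'⟩ := hr.dense D hD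
  obtain ⟨s', hs', hst⟩ := St.move hen (he.mono hp₂) he' hr'
  exact ⟨(⟨p₂, (hp₂.trans hp₁).trans a.1.2⟩, s'), ⟨hp₂.trans hp₁, hs'⟩, e', heD,
    a6_absRel_of hst⟩
-- END A6

-- BEGIN A7
/-- (task A7) Cohen absorption -/
theorem absorb {E P : CP} (g : E ⟶ P) :
    ∃ (p : P.X) (t : prod (below P p) Coh ⟶ E), t ≫ g = fst (below P p) Coh ≫ incl P p := by
  classical
  obtain ⟨en, hen⟩ := exists_surjective_nat E.X
  have ε : E.X := en 0
  obtain ⟨p, hε⟩ := exists_red g ε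
  have t : {t : Hom (prod (below P p) Coh) E // t.rel = fun a x => absRel g en ε p a x} :=
    ⟨{ rel := fun a x => absRel g en ε p a x
       mono := fun h H b hb => H b (hb.trans h)
       loc := fun H b hb => by
         obtain ⟨a', ha', h'⟩ := H b hb
         obtain ⟨c, hc, e, h1, h2⟩ := h' a' le_rfl
         exact ⟨c, hc.trans ha', e, h1, h2⟩
       up := fun h H b hb => by
         obtain ⟨c, hc, e, h1, h2⟩ := H b hb
         exact ⟨c, hc, e, h1, h2.trans h⟩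
       filt := fun h h' => absRel_filt h h'
       gen := fun D hD a => absRel_gen hen hε D hD a }, rfl⟩
  obtain ⟨t, ht⟩ := t
  have htr : ∀ a x, t.rel a x ↔ absRel g en ε p a x := fun a x => by rw [ht]
  refine ⟨p, t, hom_ext fun a y => ?_⟩
  have hR : (fst (below P p) Coh ≫ incl P p).rel a y ↔ ∀ r ≤ a.1, Compat r.1 y :=
    ofProj_comp_rel (isProj_fst (below P p) Coh) (incl P p) a y
  rw [comp_rel, hR]
  constructor
  · intro H r hr
    obtain ⟨a', ha', x, hx, hxy⟩ := H (r, a.2) ⟨hr, le_rfl⟩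
    obtain ⟨c, hc, e, h1, h2⟩ := (htr _ _).1 hx a' le_rfl
    have h3 : Red g c.1.1 e := St.red (hε.mono c.1.2) h1
    obtain ⟨e', he', h4⟩ := h3 c.1.1 le_rfl
    obtain ⟨z, hz1, hz2⟩ := Hom.compat g h4 (g.mono (he'.trans h2) hxy)
    have h5 : c.1.1 ≤ r.1 := (hc.trans ha').1
    exact ⟨z, hz1.trans h5, hz2⟩
  · intro H a' ha'
    obtain ⟨q, hq1, hq2⟩ := H a'.1 ha'.1
    obtain ⟨q', hq', e₀, h1⟩ := St.exists (g := g) (en := en) (ε := ε) q a'.2
    have hq'p : q' ≤ p := hq'.trans (hq1.trans a'.1.2)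
    have h2 : Red g q' e₀ := St.red (hε.mono hq'p) h1
    obtain ⟨q'', hq'', e', he', h3, h4⟩ := h2.force (hq'.trans hq2)
    obtain ⟨s', hs', h5⟩ := St.move hen (h1.mono hq'') he' h4
    have hq''p : q'' ≤ p := hq''.trans hq'p
    refine ⟨(⟨q'', hq''p⟩, s'), ⟨hq''.trans (hq'.trans hq1), hs'⟩, e', (htr _ _).2 ?_, h3⟩
    intro b hb
    obtain ⟨p₃, hp₃, e, h6⟩ := St.exists (g := g) (en := en) (ε := ε) b.1.1 b.2
    have hb1 : b.1.1 ≤ q'' := hb.1
    have hb2 : b.2 ≤ s' := hb.2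
    exact ⟨(⟨p₃, hp₃.trans b.1.2⟩, b.2), ⟨hp₃, le_rfl⟩, e, h6, St.le' (hp₃.trans hb1) hb2 h5 h6⟩
-- END A7

/-- monotone and local predicates over the object `E` -/
structure IsML {E : CP} (Θ : ∀ R : CP, (R ⟶ E) → Prop) : Prop where
  mono : ∀ {R S : CP} (x : R ⟶ E) (u : S ⟶ R), Θ R x → Θ S (u ≫ x)
  loc : ∀ {R : CP} (x : R ⟶ E), Dn (fun S (u : S ⟶ R) => Θ S (u ≫ x)) → Θ R x

-- BEGIN A8
/-- (task A8) adding a generic factor does not matter -/
theorem IsML.of_prod {E : CP} {Θ : ∀ R : CP, (R ⟶ E) → Prop} (h : IsML Θ) {Q T : CP} (x : Q ⟶ E)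
    (H : Θ (prod Q T) (fst Q T ≫ x)) : Θ Q x := by
  refine h.loc x ?_
  intro d f
  refine ⟨prod d T, fst d T, ?_⟩
  have h1 := h.mono (fst Q T ≫ x) (map f (𝟙 T)) H
  rw [← Category.assoc, map_fst] at h1
  exact h1
-- END A8

-- BEGIN A9
/-- (task A9) a statement about a generic point which holds somewhere is forced by a condition -/
theorem IsML.exists_con {E : CP} {Θ : ∀ R : CP, (R ⟶ E) → Prop} (h : IsML Θ) {Q : CP}
    (g : Q ⟶ E) (H : Θ Q g) : ∃ e : E.X, ∀ (R : CP) (x : R ⟶ E), Con x e → Θ R x := by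
  obtain ⟨p, t, ht⟩ := absorb g
  have h1 : Θ _ (t ≫ g) := h.mono g t H
  rw [ht] at h1
  have h2 : Θ (below E p) (incl E p) := h.of_prod _ h1
  refine ⟨p, fun R x hx => ?_⟩
  obtain ⟨x', hx'⟩ := exists_lift_below x hx
  rw [← hx']
  exact h.mono _ _ h2
-- END A9

-- BEGIN A10
/-- (task A10) the truth lemma -/
theorem IsML.truth {E : CP} {Θ : ∀ R : CP, (R ⟶ E) → Prop} (h : IsML Θ) {Q : CP}
    (g : Q ⟶ E) (H : Θ Q g) (q : Q.X) :
    ∃ q' ≤ q, ∃ e : E.X, g.rel q' e ∧ ∀ (R : CP) (x : R ⟶ E), Con x e → Θ R x := by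
  classical
  obtain ⟨F, hF⟩ : ∃ F : E.X → Prop, ∀ e, F e ↔ ∀ (R : CP) (x : R ⟶ E), Con x e → Θ R x :=
    ⟨_, fun _ => Iff.rfl⟩
  have hD : Dense {e : E.X | F e ∨ ∀ e' ≤ e, ¬ F e'} := by
    intro e
    by_cases hc : ∃ e' ≤ e, F e'
    · obtain ⟨e', he', h1⟩ := hc
      exact ⟨e', he', Or.inl h1⟩
    · push Not at hc
      exact ⟨e, le_rfl, Or.inr hc⟩
  obtain ⟨q', hq', e, he, hge⟩ := g.gen _ hD q
  rcases he with he | he
  · exact ⟨q', hq', e, hge, (hF e).1 he⟩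
  · exfalso
    have hcon : Con (incl Q q' ≫ g) e := (con_incl_iff g q' e).2 hge
    obtain ⟨g', hg'⟩ := exists_lift_below _ hcon
    have hML : IsML (E := below E e) (fun R x => Θ R (x ≫ incl E e)) := by
      refine ⟨fun x u hx => ?_, fun x hx => ?_⟩
      · show Θ _ ((u ≫ x) ≫ incl E e)
        rw [Category.assoc]
        exact h.mono _ u hx
      · refine h.loc _ (hx.imp fun S u hu => ?_)
        rw [← Category.assoc]
        exact hu
    have h0 : Θ _ (g' ≫ incl E e) := by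
      rw [hg']
      exact h.mono _ _ H
    obtain ⟨e₁, h₁⟩ := hML.exists_con g' h0
    refine he e₁.1 e₁.2 ((hF _).2 fun R x hx => ?_)
    obtain ⟨x', hx'⟩ := exists_lift_below x hx
    have h2 := h₁ R (x' ≫ resMap E e₁.2) ((con_resMap E e₁.2).comp x')
    have h3 : (x' ≫ resMap E e₁.2) ≫ incl E e = x := by
      rw [Category.assoc, resMap_incl, hx']
    show Θ R x
    rw [← h3]
    exact h2
-- END A10

-- BEGIN A11
/-- equality of two restrictions of an element is a monotone and local predicate -/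
theorem a11_isML (U : FU CP) {E Q : CP} (f g : E ⟶ Q) (η : U.El Q) :
    IsML (E := E) (fun R (x : R ⟶ E) => U.eq (U.res (x ≫ f) η) (U.res (x ≫ g) η)) where
  mono x u h := by
    have h1 := U.eq_res u h
    rw [← U.res_comp, ← U.res_comp] at h1
    rw [Category.assoc, Category.assoc]
    exact h1
  loc x h := by
    refine U.eq_loc (h.imp fun d u h1 => ?_)
    rw [← U.res_comp, ← U.res_comp, ← Category.assoc, ← Category.assoc]
    exact h1

/-- (task A11) the dichotomy: an element over `P × C` either does not depend on the Cohen real below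
some condition, or takes different values at mutually generic Cohen reals -/
theorem dichotomy (U : FU CP) (P : CP) (p : P.X) (η : U.El (prod (below P p) Coh)) :
    (∃ (p' : P.X) (hp : p' ≤ p) (s : List ℕ) (w : U.El (below P p')),
      U.eq (U.res (map (resMap P hp) (shift s)) η) (U.res (fst (below P p') Coh) w)) ∨
    (∀ (d : CP) (f : d ⟶ prod (prod (below P p) Coh) Coh),
      ¬ U.eq (U.res (f ≫ fst _ _) η) (U.res (f ≫ map (fst _ _) (𝟙 Coh)) η)) := by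
  by_cases hcase : ∀ (d : CP) (f : d ⟶ prod (prod (below P p) Coh) Coh),
      ¬ U.eq (U.res (f ≫ fst _ _) η) (U.res (f ≫ map (fst _ _) (𝟙 Coh)) η)
  · exact Or.inr hcase
  left
  push Not at hcase
  obtain ⟨d, f, hf⟩ := hcase
  obtain ⟨e, he⟩ := (a11_isML U (fst (prod (below P p) Coh) Coh)
    (map (fst (below P p) Coh) (𝟙 Coh)) η).exists_con f hf
  obtain ⟨⟨⟨p', hp⟩, s⟩, s'⟩ := e
  have hcon : Con (map (map (resMap P hp) (shift s.l)) (shift s'.l))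
      (((⟨p', hp⟩, s), s') : (prod (prod (below P p) Coh) Coh).X) :=
    con_map (con_map (con_resMap P hp) (con_shift s.l)) (con_shift s'.l)
  have h1 := he _ _ hcon
  rw [map_fst, map_comp, map_fst, Category.comp_id] at h1
  have h2 : map (fst (below P p') Coh ≫ resMap P hp) (shift s'.l) =
      map (fst (below P p') Coh) (𝟙 Coh) ≫ map (resMap P hp) (shift s'.l) := by
    rw [map_comp, Category.id_comp]
  rw [h2] at h1
  have hdesc : ∀ (e0 : CP) (u u' : e0 ⟶ prod (below P p') Coh),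
      u ≫ fst (below P p') Coh = u' ≫ fst (below P p') Coh →
      U.eq (U.res u (U.res (map (resMap P hp) (shift s.l)) η))
        (U.res u' (U.res (map (resMap P hp) (shift s.l)) η)) := by
    intro e0 u u' huu
    rw [← U.res_comp, ← U.res_comp]
    have h3 : ∀ v : e0 ⟶ prod (below P p') Coh,
        U.eq (U.res (fst e0 Coh ≫ v ≫ map (resMap P hp) (shift s.l)) η)
          (U.res (map (v ≫ fst (below P p') Coh) (𝟙 Coh) ≫ map (resMap P hp) (shift s'.l)) η) := by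
      intro v
      have h4 := U.eq_res (map v (𝟙 Coh)) h1
      rw [← U.res_comp, ← U.res_comp, ← Category.assoc, map_fst, Category.assoc,
        ← Category.assoc (map v (𝟙 Coh)), map_comp, Category.comp_id] at h4
      exact h4
    have h5 := h3 u'
    rw [← huu] at h5
    have h6 := U.eq_trans (h3 u) (U.eq_symm h5)
    have h7 := (a11_isML U (u ≫ map (resMap P hp) (shift s.l))
      (u' ≫ map (resMap P hp) (shift s.l)) η).of_prod (Q := e0) (T := Coh) (𝟙 e0)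
    rw [Category.comp_id, Category.id_comp, Category.id_comp] at h7
    exact h7 h6
  obtain ⟨w, hw⟩ := U.exists_descend (fst (below P p') Coh)
    (U.res (map (resMap P hp) (shift s.l)) η) hdesc
  exact ⟨p', hp, s.l, w, U.eq_symm hw⟩
-- END A11

end CP

end Pool.Agent.Lib.ZFM
end

section

/-!
Reading branches of a Cohen tree: a perfect set of mutually generic reals.
-/

open CategoryTheory

namespace Pool.Agent.Lib.ZFM

namespace CP

/-- tree conditions: a labelling of the binary sequences of length `< m` by natural numbers -/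
structure Tn : Type where
  m : ℕ
  g : List Bool → ℕ
  zero : ∀ u, m ≤ u.length → g u = 0

instance : Preorder Tn where
  le a b := b.m ≤ a.m ∧ ∀ u : List Bool, u.length < b.m → a.g u = b.g u
  le_refl a := ⟨le_rfl, fun _ _ => rfl⟩
  le_trans a b c h h' := ⟨h'.1.trans h.1, fun u hu => by rw [h.2 u (hu.trans_le h'.1), h'.2 u hu]⟩

theorem Tn.le_def (a b : Tn) : a ≤ b ↔ b.m ≤ a.m ∧ ∀ u : List Bool, u.length < b.m → a.g u = b.g u :=
  Iff.rfl

-- BEGIN R1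
/-- (task R1) -/
theorem countable_Tn : Countable Tn := by
  have hfin : ∀ m : ℕ, Finite {u : List Bool // u.length < m} := fun m =>
    (List.finite_length_lt Bool m).to_subtype
  let f : Tn → Σ m : ℕ, ({u : List Bool // u.length < m} → ℕ) := fun a =>
    ⟨a.m, fun u => a.g u.1⟩
  have hf : Function.Injective f := by
    rintro ⟨m, g, hg⟩ ⟨m', g', hg'⟩ h
    simp only [f, Sigma.mk.injEq] at h
    obtain ⟨rfl, h⟩ := h
    have h := eq_of_heq h
    have : g = g' := by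
      funext u
      rcases Nat.lt_or_ge u.length m with hu | hu
      · exact congrFun h ⟨u, hu⟩
      · rw [hg u hu, hg' u hu]
    subst this
    rfl
  exact hf.countable
-- END R1

instance : Countable Tn := countable_Tn

instance : Nonempty Tn := ⟨⟨0, fun _ => 0, fun _ _ => rfl⟩⟩

/-- the forcing which adds a Cohen labelling of the binary tree -/
def Tree : CP := ⟨Tn⟩

/-- the code (finite part of the characteristic function of the graph) of a finite sequence -/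
def cd (l : List ℕ) : List Bool :=
  (List.range l.length).map (fun k => decide (l[k.unpair.1]? = some k.unpair.2))

/-- the labels along a binary sequence -/
def rd (γ : List Bool → ℕ) (u : List Bool) : List ℕ :=
  (List.range u.length).map (fun k => γ (u.take k))

-- BEGIN R2
/-- (task R2) codes and labels -/
theorem cd_length (l : List ℕ) : (cd l).length = l.length := by
  simp [cd]

theorem cd_prefix {l l' : List ℕ} (h : l <+: l') : cd l <+: cd l' := by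
  obtain ⟨t, rfl⟩ := h
  unfold cd
  rw [List.length_append, List.range_add, List.map_append]
  have e : (List.range l.length).map (fun k => decide (l[k.unpair.1]? = some k.unpair.2)) =
      (List.range l.length).map (fun k => decide ((l ++ t)[k.unpair.1]? = some k.unpair.2)) := by
    refine List.map_congr_left fun k hk => ?_
    have hk' : k.unpair.1 < l.length := (Nat.unpair_left_le k).trans_lt (List.mem_range.1 hk)
    rw [List.getElem?_append_left hk']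
  rw [e]
  exact List.prefix_append _ _

theorem cd_ne {l l' : List ℕ} {k : ℕ} (hk : k < l.length) (hk' : k < l'.length)
    (h : l[k]? ≠ l'[k]?) (h1 : Nat.pair k (l[k]?.getD 0) < l.length)
    (h1' : Nat.pair k (l[k]?.getD 0) < l'.length) :
    ∃ i, i < l.length ∧ i < l'.length ∧ (cd l)[i]? ≠ (cd l')[i]? := by
  refine ⟨Nat.pair k (l[k]?.getD 0), h1, h1', ?_⟩
  have e : l[k]? = some (l[k]?.getD 0) := by
    rw [List.getElem?_eq_getElem hk]; simp
  generalize l[k]?.getD 0 = n at h1 h1' e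
  have e1 : (cd l)[Nat.pair k n]? = some true := by
    unfold cd
    rw [List.getElem?_map, List.getElem?_range h1]
    simp [Nat.unpair_pair, e]
  have e2 : (cd l')[Nat.pair k n]? = some false := by
    unfold cd
    rw [List.getElem?_map, List.getElem?_range h1']
    have h2 : ¬ (l'[k]? = some n) := fun h2 => h (by rw [e, h2])
    simp only [Nat.unpair_pair, Option.map_some, Option.some.injEq, decide_eq_false_iff_not]
    exact h2
  rw [e1, e2]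
  simp

theorem rd_length (γ : List Bool → ℕ) (u : List Bool) : (rd γ u).length = u.length := by
  simp [rd]

theorem rd_prefix (γ : List Bool → ℕ) {u u' : List Bool} (h : u <+: u') :
    rd γ u <+: rd γ u' := by
  obtain ⟨t, rfl⟩ := h
  unfold rd
  rw [List.length_append, List.range_add, List.map_append]
  have e : (List.range u.length).map (fun k => γ (u.take k)) =
      (List.range u.length).map (fun k => γ ((u ++ t).take k)) := by
    refine List.map_congr_left fun k hk => ?_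
    rw [List.take_append_of_le_length (List.mem_range.1 hk).le]
  rw [e]
  exact List.prefix_append _ _

theorem rd_congr {γ γ' : List Bool → ℕ} {u : List Bool}
    (h : ∀ v : List Bool, v.length < u.length → γ v = γ' v) : rd γ u = rd γ' u := by
  unfold rd
  refine List.map_congr_left fun k hk => h _ ?_
  rw [List.length_take]
  exact (min_le_left _ _).trans_lt (List.mem_range.1 hk)
-- END R2

/-- the real `r` is obtained by reading the labels of the tree `g` along the code of `c` -/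
def Reads {d : CP} (g : d ⟶ Tree) (c r : d ⟶ Coh) : Prop :=
  ∀ (q : d.X) (γ : Tn) (σ : Cn), σ.l.length ≤ γ.m → g.rel q γ → c.rel q σ →
    r.rel q (⟨rd γ.g (cd σ.l)⟩ : Cn)

-- BEGIN R3
/-- (task R3) conditions in a generic filter can be made long; conditions of the same length agree -/
theorem exists_long (d : CP) (c : d ⟶ Coh) (q : d.X) (n : ℕ) :
    ∃ q' ≤ q, ∃ σ : Cn, n ≤ σ.l.length ∧ c.rel q' σ := by
  obtain ⟨q', hq', σ, hσ, h⟩ := c.gen ({σ : Cn | n ≤ σ.l.length} : Set Cn) (by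
    intro p
    refine ⟨(⟨(p : Cn).l ++ List.replicate n 0⟩ : Cn), List.prefix_append _ _, ?_⟩
    show n ≤ ((p : Cn).l ++ List.replicate n 0).length
    simp) q
  exact ⟨q', hq', σ, hσ, h⟩

theorem exists_long_tree (d : CP) (g : d ⟶ Tree) (q : d.X) (n : ℕ) :
    ∃ q' ≤ q, ∃ γ : Tn, n ≤ γ.m ∧ g.rel q' γ := by
  obtain ⟨q', hq', σ, hσ, h⟩ := g.gen ({γ : Tn | n ≤ γ.m} : Set Tn) (by
    intro p
    refine ⟨(⟨max (p : Tn).m n, (p : Tn).g, fun u hu => (p : Tn).zero u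
      ((le_max_left _ _).trans hu)⟩ : Tn), ⟨le_max_left _ _, fun _ _ => rfl⟩, ?_⟩
    exact le_max_right (p : Tn).m n) q
  exact ⟨q', hq', σ, hσ, h⟩

theorem rel_prefix {d : CP} (c : d ⟶ Coh) {q : d.X} {σ τ : Cn} (h : c.rel q σ) (h' : c.rel q τ)
    (hl : σ.l.length ≤ τ.l.length) : σ.l <+: τ.l := by
  obtain ⟨q', -, r, h1, h2, -⟩ := c.filt h h'
  have h1 : σ.l <+: (r : Cn).l := h1
  have h2 : τ.l <+: (r : Cn).l := h2
  exact List.prefix_of_prefix_length_le h1 h2 hl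

theorem rel_tree {d : CP} (g : d ⟶ Tree) {q : d.X} {γ δ : Tn} (h : g.rel q γ) (h' : g.rel q δ)
    (u : List Bool) (hu : u.length < γ.m) (hu' : u.length < δ.m) : γ.g u = δ.g u := by
  obtain ⟨q', -, r, h1, h2, -⟩ := g.filt h h'
  have h1 := (Tn.le_def r γ).1 h1
  have h2 := (Tn.le_def r δ).1 h2
  rw [← h1.2 u hu, ← h2.2 u hu']
-- END R3

-- BEGIN R4
/-- (task R4) naturality and uniqueness of reading -/
theorem Reads.res {d e : CP} {g : d ⟶ Tree} {c r : d ⟶ Coh} (h : Reads g c r) (f : e ⟶ d) :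
    Reads (f ≫ g) (f ≫ c) (f ≫ r) := by
  intro q γ σ hl hg hc q' hq'
  obtain ⟨q₁, h1, x, hx, hgx⟩ := hg q' hq'
  obtain ⟨q₂, h2, y, hy, hcy⟩ := hc q₁ (h1.trans hq')
  obtain ⟨q₃, h3, z, hz1, hz2, hz⟩ := f.filt (f.mono h2 hx) hy
  exact ⟨q₃, h3.trans (h2.trans h1), z, hz,
    h z γ σ hl (g.mono hz1 hgx) (c.mono hz2 hcy)⟩

theorem r4_aux {d : CP} {g : d ⟶ Tree} {c r r' : d ⟶ Coh} (h : Reads g c r)
    (h' : Reads g c r') {q : d.X} {x : Coh.X} (hx : r.rel q x) : r'.rel q x := by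
  refine r'.loc fun q' hq' => ?_
  obtain ⟨q₁, h1, σ, hσ, hc⟩ := exists_long d c q' (x : Cn).l.length
  obtain ⟨q₂, h2, γ, hγ, hg⟩ := exists_long_tree d g q₁ σ.l.length
  have h3 := h q₂ γ σ hγ hg (c.mono h2 hc)
  have h4 := h' q₂ γ σ hγ hg (c.mono h2 hc)
  refine ⟨q₂, h2.trans h1, r'.up ?_ h4⟩
  have h5 : r.rel q₂ x := r.mono (h2.trans (h1.trans hq')) hx
  exact rel_prefix r h5 h3 (by rw [rd_length, cd_length]; exact hσ)

theorem Reads.unique {d : CP} {g : d ⟶ Tree} {c r r' : d ⟶ Coh} (h : Reads g c r)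
    (h' : Reads g c r') : r = r' :=
  hom_ext fun _ _ => ⟨fun hx => r4_aux h h' hx, fun hx => r4_aux h' h hx⟩
-- END R4

/-- two reals are different everywhere -/
def Apart {d : CP} (c c' : d ⟶ Coh) : Prop :=
  ∀ q : d.X, ∃ q' ≤ q, ∃ (σ τ : Cn), c.rel q' σ ∧ c'.rel q' τ ∧
    ∃ k, k < σ.l.length ∧ k < τ.l.length ∧ σ.l[k]? ≠ τ.l[k]?

-- BEGIN R5
theorem r5_apart_symm {d : CP} {c c' : d ⟶ Coh} (h : Apart c c') : Apart c' c := by
  intro q
  obtain ⟨q', hq', σ, τ, h1, h2, k, hk, hk', hne⟩ := h q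
  exact ⟨q', hq', τ, σ, h2, h1, k, hk', hk, fun e => hne e.symm⟩

theorem r5_rel {d : CP} {c c' : d ⟶ Coh}
    (h : ∀ (e : CP) (u : e ⟶ d), ¬ Apart (u ≫ c) (u ≫ c')) {q : d.X} {σ : Cn}
    (hc : c.rel q σ) : c'.rel q σ := by
  by_contra hn
  have h1 : ∃ q' ≤ q, ∀ q'' ≤ q', ¬ c'.rel q'' σ := by
    by_contra h2
    push Not at h2
    exact hn (c'.loc h2)
  obtain ⟨q', hq', hq2⟩ := h1
  apply h (below d q') (incl d q')
  intro x
  obtain ⟨x', hx', τ, hτ, hcτ⟩ := exists_long (below d q') (incl d q' ≫ c') x σ.l.length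
  have h3 : c'.rel x'.1 τ := (ofProj_comp_rel _ _ _ _).1 hcτ
  have h4 : c.rel x'.1 σ := c.mono (x'.2.trans hq') hc
  have h5 : (incl d q' ≫ c).rel x' σ := (ofProj_comp_rel _ _ _ _).2 h4
  refine ⟨x', hx', σ, τ, h5, hcτ, ?_⟩
  by_contra h6
  push Not at h6
  have h7 : σ.l <+: τ.l := by
    rw [List.prefix_iff_getElem?]
    intro i hi
    rw [← h6 i hi (hi.trans_le hτ)]
    exact List.getElem?_eq_getElem hi
  exact hq2 x'.1 x'.2 (c'.up (show (τ : Cn) ≤ σ from h7) h3)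

/-- (task R5) two reals which are not apart at any extension are equal -/
theorem eq_of_not_apart {d : CP} {c c' : d ⟶ Coh}
    (h : ∀ (e : CP) (u : e ⟶ d), ¬ Apart (u ≫ c) (u ≫ c')) : c = c' :=
  hom_ext fun _ _ => ⟨fun hc => r5_rel h hc,
    fun hc => r5_rel (fun e u hu => h e u (r5_apart_symm hu)) hc⟩

theorem Apart.res {d e : CP} {c c' : d ⟶ Coh} (h : Apart c c') (u : e ⟶ d) :
    Apart (u ≫ c) (u ≫ c') := by
  intro q
  obtain ⟨q', hq', x, hx, hu⟩ := u.gen {x | ∃ (σ τ : Cn), c.rel x σ ∧ c'.rel x τ ∧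
    ∃ k, k < σ.l.length ∧ k < τ.l.length ∧ σ.l[k]? ≠ τ.l[k]?} (fun y => h y) q
  obtain ⟨σ, τ, h1, h2, h3⟩ := hx
  exact ⟨q', hq', σ, τ, comp_rel_of hu h1, comp_rel_of hu h2, h3⟩
-- END R5

-- BEGIN R6
/-- extend the labelling `g` of height `m` by the words `t a` above the nodes `a` of length `m` -/
def r6_ext (m L : ℕ) (g : List Bool → ℕ) (t : List Bool → List ℕ) (w : List Bool) : ℕ :=
  if w.length < m then g w
  else if w.length < m + L then ((t (w.take m))[w.length - m]?).getD 0 else 0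

theorem r6_zero (m L : ℕ) (g : List Bool → ℕ) (t : List Bool → List ℕ) (u : List Bool)
    (hu : m + L ≤ u.length) : r6_ext m L g t u = 0 := by
  unfold r6_ext
  rw [if_neg (by omega), if_neg (by omega)]

theorem r6_prefix (m L : ℕ) (g : List Bool → ℕ) (t : List Bool → List ℕ) (u : List Bool)
    (hu : u.length = m + L) (hL : (t (u.take m)).length ≤ L) :
    rd g (u.take m) ++ t (u.take m) <+: rd (r6_ext m L g t) u := by
  have hm : (u.take m).length = m := by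
    rw [List.length_take]; omega
  have hrd : (rd g (u.take m)).length = m := by
    unfold rd
    rw [List.length_map, List.length_range, hm]
  rw [List.prefix_iff_getElem?]
  intro i hi
  rw [List.length_append, hrd] at hi
  have hiu : i < u.length := by omega
  have htk : (u.take i).length = i := by
    rw [List.length_take]; omega
  have hR : (rd (r6_ext m L g t) u)[i]? = some (r6_ext m L g t (u.take i)) := by
    unfold rd
    rw [List.getElem?_map, List.getElem?_range hiu]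
    rfl
  rw [hR]
  congr 1
  unfold r6_ext
  rw [htk]
  by_cases him : i < m
  · rw [if_pos him, List.getElem_append_left (by rw [hrd]; exact him)]
    unfold rd
    rw [List.getElem_map, List.getElem_range, List.take_take]
    congr 2
    omega
  · rw [if_neg him, if_pos (by omega), List.getElem_append_right (by rw [hrd]; omega)]
    rw [List.take_take]
    have h1 : min m i = m := by omega
    rw [h1]
    simp only [hrd]
    rw [List.getElem?_eq_getElem (by omega)]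
    rfl

theorem r6_fin {P : CP} (D : Set (prod P Coh).X) (hD : Dense D) (p : P.X) (g : List Bool → ℕ)
    (S : Finset (List Bool)) :
    ∃ p' ≤ p, ∃ t : List Bool → List ℕ, ∀ a ∈ S,
      ∃ x ∈ D, ((p', (⟨rd g a ++ t a⟩ : Cn)) : (prod P Coh).X) ≤ x := by
  classical
  induction S using Finset.induction_on with
  | empty => exact ⟨p, le_rfl, fun _ => [], fun a ha => by simp at ha⟩
  | insert a S ha ih =>
    obtain ⟨p', hp', t, ht⟩ := ih
    obtain ⟨x, hx, hxD⟩ := hD ((p', (⟨rd g a⟩ : Cn)) : (prod P Coh).X)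
    obtain ⟨r, hr⟩ := hx.2
    refine ⟨x.1, hx.1.trans hp', Function.update t a r, ?_⟩
    intro b hb
    rcases eq_or_ne b a with rfl | hba
    · refine ⟨x, hxD, le_rfl, ?_⟩
      rw [Function.update_self]
      exact ⟨[], by rw [List.append_nil]; exact hr.symm⟩
    · rw [Function.update_of_ne hba]
      obtain ⟨y, hy, hy'⟩ := ht b (Finset.mem_of_mem_insert_of_ne hb hba)
      exact ⟨y, hy, hx.1.trans hy'.1, hy'.2⟩

theorem r6_fin₂ {P : CP} (D : Set (prod (prod P Coh) Coh).X) (hD : Dense D) (p : P.X)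
    (g : List Bool → ℕ) (S : Finset (List Bool × List Bool)) (hS : ∀ a ∈ S, a.1 ≠ a.2) :
    ∃ p' ≤ p, ∃ t : List Bool → List ℕ, ∀ a ∈ S,
      ∃ x ∈ D, (((p', (⟨rd g a.1 ++ t a.1⟩ : Cn)), (⟨rd g a.2 ++ t a.2⟩ : Cn)) :
        (prod (prod P Coh) Coh).X) ≤ x := by
  classical
  induction S using Finset.induction_on with
  | empty => exact ⟨p, le_rfl, fun _ => [], fun a ha => by simp at ha⟩
  | insert a S ha ih =>
    obtain ⟨p', hp', t, ht⟩ := ih (fun b hb => hS b (Finset.mem_insert_of_mem hb))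
    have hne : a.1 ≠ a.2 := hS a (Finset.mem_insert_self _ _)
    obtain ⟨x, hx, hxD⟩ := hD (((p', (⟨rd g a.1 ++ t a.1⟩ : Cn)), (⟨rd g a.2 ++ t a.2⟩ : Cn)) :
        (prod (prod P Coh) Coh).X)
    obtain ⟨r, hr⟩ := hx.1.2
    obtain ⟨r', hr'⟩ := hx.2
    refine ⟨x.1.1, hx.1.1.trans hp',
      Function.update (Function.update t a.1 (t a.1 ++ r)) a.2 (t a.2 ++ r'), ?_⟩
    have hpre : ∀ c, t c <+:
        Function.update (Function.update t a.1 (t a.1 ++ r)) a.2 (t a.2 ++ r') c := by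
      intro c
      rcases eq_or_ne c a.2 with rfl | h2
      · rw [Function.update_self]; exact List.prefix_append _ _
      · rw [Function.update_of_ne h2]
        rcases eq_or_ne c a.1 with rfl | h1
        · rw [Function.update_self]; exact List.prefix_append _ _
        · rw [Function.update_of_ne h1]
    intro b hb
    rcases eq_or_ne b a with rfl | hba
    · refine ⟨x, hxD, ⟨le_rfl, ?_⟩, ?_⟩
      · rw [Function.update_of_ne hne, Function.update_self]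
        exact ⟨[], by rw [List.append_nil, ← List.append_assoc]; exact hr.symm⟩
      · rw [Function.update_self]
        exact ⟨[], by rw [List.append_nil, ← List.append_assoc]; exact hr'.symm⟩
    · obtain ⟨y, hy, hy'⟩ := ht b (Finset.mem_of_mem_insert_of_ne hb hba)
      refine ⟨y, hy, ⟨hx.1.1.trans hy'.1.1, ?_⟩, ?_⟩
      · refine List.IsPrefix.trans (l₂ := rd g b.1 ++ t b.1) hy'.1.2 ?_
        exact (List.prefix_append_right_inj _).mpr (hpre b.1)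
      · refine List.IsPrefix.trans (l₂ := rd g b.2 ++ t b.2) hy'.2 ?_
        exact (List.prefix_append_right_inj _).mpr (hpre b.2)

/-- (task R6) extending a tree condition so that all branches meet a dense set. `t u` is the
extension of the labels above the node `u` of length `m` -/
theorem exists_tree {P : CP} (D : Set (prod P Coh).X) (hD : Dense D) (p : P.X) (γ : Tn) :
    ∃ p' ≤ p, ∃ γ' ≤ γ, ∀ u : List Bool, u.length = γ'.m →
      ∃ x ∈ D, ((p', (⟨rd γ'.g u⟩ : Cn)) : (prod P Coh).X) ≤ x := by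
  classical
  have hfin : {u : List Bool | u.length = γ.m}.Finite := List.finite_length_eq Bool γ.m
  obtain ⟨p', hp', t, ht⟩ := r6_fin D hD p γ.g hfin.toFinset
  set L : ℕ := hfin.toFinset.sup (fun a => (t a).length) with hLdef
  refine ⟨p', hp', ⟨γ.m + L, r6_ext γ.m L γ.g t, r6_zero γ.m L γ.g t⟩, ?_, ?_⟩
  · refine ⟨Nat.le_add_right _ _, ?_⟩
    intro u hu
    show r6_ext γ.m L γ.g t u = γ.g u
    unfold r6_ext
    rw [if_pos hu]
  · intro u hu
    have hu' : u.length = γ.m + L := hu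
    have hm : (u.take γ.m) ∈ hfin.toFinset := by
      rw [Set.Finite.mem_toFinset, Set.mem_ofPred_eq, List.length_take]; omega
    obtain ⟨x, hx, hx'⟩ := ht _ hm
    have hL : (t (u.take γ.m)).length ≤ L :=
      Finset.le_sup (f := fun a => (t a).length) hm
    exact ⟨x, hx, hx'.1, List.IsPrefix.trans (l₂ := rd γ.g (u.take γ.m) ++ t (u.take γ.m)) hx'.2
      (r6_prefix γ.m L γ.g t u hu' hL)⟩

theorem exists_tree₂ {P : CP} (D : Set (prod (prod P Coh) Coh).X) (hD : Dense D) (p : P.X)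
    (γ : Tn) : ∃ p' ≤ p, ∃ γ' ≤ γ, ∀ u v : List Bool, u.length = γ'.m → v.length = γ'.m →
      u.take γ.m ≠ v.take γ.m →
      ∃ x ∈ D, (((p', (⟨rd γ'.g u⟩ : Cn)), (⟨rd γ'.g v⟩ : Cn)) : (prod (prod P Coh) Coh).X) ≤ x := by
  classical
  have hfin : {u : List Bool | u.length = γ.m}.Finite := List.finite_length_eq Bool γ.m
  obtain ⟨p', hp', t, ht⟩ := r6_fin₂ D hD p γ.g
    ((hfin.toFinset ×ˢ hfin.toFinset).filter (fun a => a.1 ≠ a.2))
    (fun a ha => (Finset.mem_filter.mp ha).2)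
  set L : ℕ := hfin.toFinset.sup (fun a => (t a).length) with hLdef
  refine ⟨p', hp', ⟨γ.m + L, r6_ext γ.m L γ.g t, r6_zero γ.m L γ.g t⟩, ?_, ?_⟩
  · refine ⟨Nat.le_add_right _ _, ?_⟩
    intro u hu
    show r6_ext γ.m L γ.g t u = γ.g u
    unfold r6_ext
    rw [if_pos hu]
  · intro u v hu hv huv
    have hu' : u.length = γ.m + L := hu
    have hv' : v.length = γ.m + L := hv
    have hm : (u.take γ.m) ∈ hfin.toFinset := by
      rw [Set.Finite.mem_toFinset, Set.mem_ofPred_eq, List.length_take]; omega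
    have hm' : (v.take γ.m) ∈ hfin.toFinset := by
      rw [Set.Finite.mem_toFinset, Set.mem_ofPred_eq, List.length_take]; omega
    obtain ⟨x, hx, hx'⟩ := ht (u.take γ.m, v.take γ.m)
      (Finset.mem_filter.mpr ⟨Finset.mem_product.mpr ⟨hm, hm'⟩, huv⟩)
    have hL : (t (u.take γ.m)).length ≤ L :=
      Finset.le_sup (f := fun a => (t a).length) hm
    have hL' : (t (v.take γ.m)).length ≤ L :=
      Finset.le_sup (f := fun a => (t a).length) hm'
    exact ⟨x, hx, ⟨hx'.1.1, List.IsPrefix.trans (l₂ := rd γ.g (u.take γ.m) ++ t (u.take γ.m))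
      hx'.1.2 (r6_prefix γ.m L γ.g t u hu' hL)⟩,
      List.IsPrefix.trans (l₂ := rd γ.g (v.take γ.m) ++ t (v.take γ.m)) hx'.2
      (r6_prefix γ.m L γ.g t v hv' hL')⟩
-- END R6

/-- the relation which defines the reading name -/
def rdRel {d P : CP} (zg : d ⟶ prod P Tree) (c : d ⟶ Coh) (q : d.X) (x : (prod P Coh).X) : Prop :=
  ∀ q' ≤ q, ∃ q'' ≤ q', ∃ (p : P.X) (γ : Tn) (σ : Cn), zg.rel q'' (p, γ) ∧ c.rel q'' σ ∧
    σ.l.length = γ.m ∧ ((p, (⟨rd γ.g (cd σ.l)⟩ : Cn)) : (prod P Coh).X) ≤ x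

/-- the relation which defines the name of a pair of readings -/
def rdRel₂ {d P : CP} (zg : d ⟶ prod P Tree) (c c' : d ⟶ Coh) (q : d.X)
    (x : (prod (prod P Coh) Coh).X) : Prop :=
  ∀ q' ≤ q, ∃ q'' ≤ q', ∃ (p : P.X) (γ : Tn) (σ τ : Cn), zg.rel q'' (p, γ) ∧ c.rel q'' σ ∧
    c'.rel q'' τ ∧ σ.l.length = γ.m ∧ τ.l.length = γ.m ∧
    (((p, (⟨rd γ.g (cd σ.l)⟩ : Cn)), (⟨rd γ.g (cd τ.l)⟩ : Cn)) : (prod (prod P Coh) Coh).X) ≤ x

-- BEGIN R7
theorem r7_trunc {d : CP} (c : d ⟶ Coh) (q : d.X) (n : ℕ) :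
    ∃ q' ≤ q, ∃ σ : Cn, σ.l.length = n ∧ c.rel q' σ := by
  obtain ⟨q', hq', σ, hσ, h⟩ := exists_long d c q n
  refine ⟨q', hq', ⟨σ.l.take n⟩, by simp [hσ], c.up ?_ h⟩
  exact List.take_prefix n σ.l

theorem r7_le {γ γ' : Tn} {σ σ' : Cn} (hγ : γ' ≤ γ) (hl : σ.l.length ≤ γ.m)
    (hσ : σ.l <+: σ'.l) : rd γ.g (cd σ.l) <+: rd γ'.g (cd σ'.l) := by
  have e : rd γ.g (cd σ.l) = rd γ'.g (cd σ.l) :=
    rd_congr fun v hv => (hγ.2 v (hv.trans_le (by rw [cd_length]; exact hl))).symm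
  rw [e]
  exact rd_prefix _ (cd_prefix hσ)

theorem r7_rel {d P : CP} {zg : d ⟶ prod P Tree} {c : d ⟶ Coh} {q : d.X}
    {x : (prod P Coh).X} {p : P.X} {γ : Tn} {σ : Cn} (h1 : zg.rel q (p, γ)) (h2 : c.rel q σ)
    (h3 : σ.l.length = γ.m) (h4 : ((p, (⟨rd γ.g (cd σ.l)⟩ : Cn)) : (prod P Coh).X) ≤ x) :
    rdRel zg c q x :=
  fun q' hq' => ⟨q', le_rfl, p, γ, σ, zg.mono hq' h1, c.mono hq' h2, h3, h4⟩

/-- (task R7) -/
theorem rdRel_filt {d P : CP} {zg : d ⟶ prod P Tree} {c : d ⟶ Coh} {q : d.X}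
    {x x' : (prod P Coh).X} (h : rdRel zg c q x) (h' : rdRel zg c q x') :
    ∃ q' ≤ q, ∃ y, y ≤ x ∧ y ≤ x' ∧ rdRel zg c q' y := by
  obtain ⟨q₁, hq₁, p₁, γ₁, σ₁, a1, a2, a3, a4⟩ := h q le_rfl
  obtain ⟨q₂, hq₂, p₂, γ₂, σ₂, b1, b2, b3, b4⟩ := h' q₁ hq₁
  obtain ⟨q₃, hq₃, ⟨p₃, γ₃⟩, c1, c2, c3⟩ := zg.filt (zg.mono hq₂ a1) b1
  obtain ⟨q₄, hq₄, σ, d1, d2⟩ := r7_trunc c q₃ γ₃.m
  have c1a : p₃ ≤ p₁ := c1.1
  have c1b : γ₃ ≤ γ₁ := c1.2
  have c2a : p₃ ≤ p₂ := c2.1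
  have c2b : γ₃ ≤ γ₂ := c2.2
  have e1 : σ₁.l <+: σ.l := rel_prefix c (c.mono (hq₄.trans (hq₃.trans hq₂)) a2) d2
    (by rw [a3, d1]; exact c1b.1)
  have e2 : σ₂.l <+: σ.l := rel_prefix c (c.mono (hq₄.trans hq₃) b2) d2
    (by rw [b3, d1]; exact c2b.1)
  refine ⟨q₄, hq₄.trans (hq₃.trans (hq₂.trans hq₁)), (p₃, (⟨rd γ₃.g (cd σ.l)⟩ : Cn)), ?_, ?_,
    r7_rel (zg.mono hq₄ c3) d2 d1 le_rfl⟩
  · refine le_trans ?_ a4
    exact ⟨c1a, r7_le c1b a3.le e1⟩
  · refine le_trans ?_ b4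
    exact ⟨c2a, r7_le c2b b3.le e2⟩

theorem rdRel_gen {d P : CP} (zg : d ⟶ prod P Tree) (c : d ⟶ Coh) (D : Set (prod P Coh).X)
    (hD : Dense D) (q : d.X) : ∃ q' ≤ q, ∃ x ∈ D, rdRel zg c q' x := by
  obtain ⟨q₁, hq₁, ⟨p, γ⟩, h1, h2⟩ := zg.gen {y : (prod P Tree).X | ∀ u : List Bool,
    u.length = (y.2 : Tn).m → ∃ x ∈ D,
      ((y.1, (⟨rd (y.2 : Tn).g u⟩ : Cn)) : (prod P Coh).X) ≤ x} (by
    rintro ⟨p, γ⟩
    obtain ⟨p', hp', γ', hγ', h⟩ := exists_tree D hD p γ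
    exact ⟨(p', γ'), ⟨hp', hγ'⟩, h⟩) q
  obtain ⟨q₂, hq₂, σ, h3, h4⟩ := r7_trunc c q₁ (γ : Tn).m
  obtain ⟨x, hx, hx'⟩ := h1 (cd σ.l) (by rw [cd_length]; exact h3)
  exact ⟨q₂, hq₂.trans hq₁, x, hx, r7_rel (zg.mono hq₂ h2) h4 h3 hx'⟩
-- END R7

-- BEGIN R8
theorem r8_trunc (d : CP) (c : d ⟶ Coh) (q : d.X) (n : ℕ) :
    ∃ q' ≤ q, ∃ σ : Cn, σ.l.length = n ∧ c.rel q' σ := by
  obtain ⟨q', hq', σ, hσ, h⟩ := exists_long d c q n
  refine ⟨q', hq', ⟨σ.l.take n⟩, ?_, ?_⟩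
  · rw [List.length_take]; omega
  · exact c.up (p := (σ : Cn)) (List.take_prefix n σ.l : (⟨σ.l.take n⟩ : Cn).l <+: σ.l) h

theorem r8_rd {γ γ' : Tn} (hγ : γ' ≤ γ) {σ σ' : List ℕ} (hσ : σ <+: σ')
    (hl : σ.length = γ.m) : rd γ.g (cd σ) <+: rd γ'.g (cd σ') := by
  have h1 : rd γ.g (cd σ) = rd γ'.g (cd σ) := by
    apply rd_congr
    intro v hv
    rw [cd_length, hl] at hv
    exact (hγ.2 v hv).symm
  rw [h1]
  exact rd_prefix γ'.g (cd_prefix hσ)

theorem r8_getElem {α : Type} {l l' : List α} (h : l <+: l') {i : ℕ} (hi : i < l.length) :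
    l'[i]? = l[i]? := by
  obtain ⟨t, rfl⟩ := h
  rw [List.getElem?_append_left hi]

/-- (task R8) -/
theorem rdRel₂_filt {d P : CP} {zg : d ⟶ prod P Tree} {c c' : d ⟶ Coh} {q : d.X}
    {x x' : (prod (prod P Coh) Coh).X} (h : rdRel₂ zg c c' q x) (h' : rdRel₂ zg c c' q x') :
    ∃ q' ≤ q, ∃ y, y ≤ x ∧ y ≤ x' ∧ rdRel₂ zg c c' q' y := by
  obtain ⟨q1, hq1, p1, γ1, σ1, τ1, hz1, hc1, hc1', hl1, hl1', hx1⟩ := h q le_rfl
  obtain ⟨q2, hq2, p2, γ2, σ2, τ2, hz2, hc2, hc2', hl2, hl2', hx2⟩ := h' q1 hq1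
  obtain ⟨q3, hq3, y, hy1, hy2, hy⟩ := zg.filt (zg.mono hq2 hz1) hz2
  obtain ⟨q4, hq4, σ, hσl, hσ⟩ := r8_trunc d c q3 y.2.m
  obtain ⟨q5, hq5, τ, hτl, hτ⟩ := r8_trunc d c' q4 y.2.m
  have hm1 : γ1.m ≤ y.2.m := hy1.2.1
  have hm2 : γ2.m ≤ y.2.m := hy2.2.1
  have e1 : σ1.l <+: σ.l := rel_prefix c (q := q5)
    (c.mono (hq5.trans (hq4.trans (hq3.trans hq2))) hc1) (c.mono hq5 hσ) (by omega)
  have e2 : τ1.l <+: τ.l := rel_prefix c' (q := q5)
    (c'.mono (hq5.trans (hq4.trans (hq3.trans hq2))) hc1') hτ (by omega)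
  have e3 : σ2.l <+: σ.l := rel_prefix c (q := q5)
    (c.mono (hq5.trans (hq4.trans hq3)) hc2) (c.mono hq5 hσ) (by omega)
  have e4 : τ2.l <+: τ.l := rel_prefix c' (q := q5)
    (c'.mono (hq5.trans (hq4.trans hq3)) hc2') hτ (by omega)
  have hA : (((y.1, (⟨rd y.2.g (cd σ.l)⟩ : Cn)), (⟨rd y.2.g (cd τ.l)⟩ : Cn)) :
      (prod (prod P Coh) Coh).X) ≤
      ((p1, (⟨rd γ1.g (cd σ1.l)⟩ : Cn)), (⟨rd γ1.g (cd τ1.l)⟩ : Cn)) :=
    ⟨⟨hy1.1, r8_rd hy1.2 e1 hl1⟩, r8_rd hy1.2 e2 hl1'⟩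
  have hB : (((y.1, (⟨rd y.2.g (cd σ.l)⟩ : Cn)), (⟨rd y.2.g (cd τ.l)⟩ : Cn)) :
      (prod (prod P Coh) Coh).X) ≤
      ((p2, (⟨rd γ2.g (cd σ2.l)⟩ : Cn)), (⟨rd γ2.g (cd τ2.l)⟩ : Cn)) :=
    ⟨⟨hy2.1, r8_rd hy2.2 e3 hl2⟩, r8_rd hy2.2 e4 hl2'⟩
  refine ⟨q5, hq5.trans (hq4.trans (hq3.trans (hq2.trans hq1))),
    ((y.1, (⟨rd y.2.g (cd σ.l)⟩ : Cn)), (⟨rd y.2.g (cd τ.l)⟩ : Cn)), le_trans hA hx1,
    le_trans hB hx2, ?_⟩
  intro q' hq'
  exact ⟨q', le_rfl, y.1, y.2, σ, τ, zg.mono (hq'.trans (hq5.trans hq4)) hy,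
    c.mono (hq'.trans hq5) hσ, c'.mono hq' hτ, hσl, hτl, le_rfl⟩

theorem rdRel₂_gen {d P : CP} (zg : d ⟶ prod P Tree) {c c' : d ⟶ Coh} (hc : Apart c c')
    (D : Set (prod (prod P Coh) Coh).X) (hD : Dense D) (q : d.X) :
    ∃ q' ≤ q, ∃ x ∈ D, rdRel₂ zg c c' q' x := by
  obtain ⟨q1, hq1, σ, τ, hσ, hτ, k, hk, hk', hne⟩ := hc q
  -- make the words long
  obtain ⟨q2, hq2, σ', hσ'l, hσ'⟩ := exists_long d c q1
    (max σ.l.length (Nat.pair k (σ.l[k]?.getD 0) + 1))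
  obtain ⟨q3, hq3, τ', hτ'l, hτ'⟩ := exists_long d c' q2
    (max τ.l.length (Nat.pair k (σ.l[k]?.getD 0) + 1))
  have hσσ : σ.l <+: σ'.l := rel_prefix c (q := q2) (c.mono hq2 hσ) hσ'
    (le_trans (le_max_left _ _) hσ'l)
  have hττ : τ.l <+: τ'.l := rel_prefix c' (q := q3) (c'.mono (hq3.trans hq2) hτ) hτ'
    (le_trans (le_max_left _ _) hτ'l)
  have hs1 : σ'.l[k]? = σ.l[k]? := r8_getElem hσσ hk
  have ht1 : τ'.l[k]? = τ.l[k]? := r8_getElem hττ hk'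
  have hb1 : Nat.pair k (σ'.l[k]?.getD 0) < σ'.l.length := by
    rw [hs1]
    have := le_trans (le_max_right _ _) hσ'l
    omega
  have hb2 : Nat.pair k (σ'.l[k]?.getD 0) < τ'.l.length := by
    rw [hs1]
    have := le_trans (le_max_right _ _) hτ'l
    omega
  obtain ⟨i, hi, hi', hcd⟩ := cd_ne (l := σ'.l) (l' := τ'.l) (k := k)
    (hk.trans_le hσσ.length_le) (hk'.trans_le hττ.length_le) (by rw [hs1, ht1]; exact hne) hb1 hb2
  set N : ℕ := max σ'.l.length τ'.l.length with hN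
  have hN1 : σ'.l.length ≤ N := le_max_left _ _
  have hN2 : τ'.l.length ≤ N := le_max_right _ _
  let D1 : Set (prod P Tree).X := {y | N ≤ y.2.m ∧ ∀ u v : List Bool, u.length = y.2.m →
    v.length = y.2.m → u.take N ≠ v.take N →
    ∃ x ∈ D, (((y.1, (⟨rd y.2.g u⟩ : Cn)), (⟨rd y.2.g v⟩ : Cn)) : (prod (prod P Coh) Coh).X) ≤ x}
  have hD1 : Dense D1 := by
    rintro ⟨p, γ0⟩
    obtain ⟨p', hp', γ', hγ', H⟩ := exists_tree₂ D hD p
      ⟨max γ0.m N, γ0.g, fun u hu => γ0.zero u (le_trans (le_max_left _ _) hu)⟩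
    have h1 : max γ0.m N ≤ γ'.m := hγ'.1
    refine ⟨((p', γ') : (prod P Tree).X), ⟨hp', ⟨le_trans (le_max_left _ _) h1, ?_⟩⟩,
      le_trans (le_max_right _ _) h1, ?_⟩
    · intro u hu
      exact hγ'.2 u (lt_of_lt_of_le hu (le_max_left _ _))
    · intro u v hu hv huv
      refine H u v hu hv ?_
      intro heq
      apply huv
      have h2 := congrArg (List.take N) heq
      simp only [List.take_take] at h2
      have h3 : min N (max γ0.m N) = N := min_eq_left (le_max_right _ _)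
      rwa [h3] at h2
  obtain ⟨q4, hq4, y, hy, hyr⟩ := zg.gen D1 hD1 q3
  obtain ⟨q5, hq5, s, hsl, hs⟩ := r8_trunc d c q4 y.2.m
  obtain ⟨q6, hq6, t, htl, ht⟩ := r8_trunc d c' q5 y.2.m
  have hyN : N ≤ y.2.m := hy.1
  have es : σ'.l <+: s.l := rel_prefix c (q := q6)
    (c.mono (hq6.trans (hq5.trans (hq4.trans hq3))) hσ') (c.mono hq6 hs) (by omega)
  have et : τ'.l <+: t.l := rel_prefix c' (q := q6)
    (c'.mono (hq6.trans (hq5.trans hq4)) hτ') ht (by omega)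
  have hcs : (cd s.l)[i]? = (cd σ'.l)[i]? :=
    r8_getElem (cd_prefix es) (by rw [cd_length]; exact hi)
  have hct : (cd t.l)[i]? = (cd τ'.l)[i]? :=
    r8_getElem (cd_prefix et) (by rw [cd_length]; exact hi')
  have hdiff : (cd s.l).take N ≠ (cd t.l).take N := by
    intro heq
    have h2 : ((cd s.l).take N)[i]? = ((cd t.l).take N)[i]? := by rw [heq]
    rw [List.getElem?_take_of_lt (by omega), List.getElem?_take_of_lt (by omega), hcs, hct] at h2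
    exact hcd h2
  obtain ⟨x, hxD, hx⟩ := hy.2 (cd s.l) (cd t.l) (by rw [cd_length]; exact hsl)
    (by rw [cd_length]; exact htl) hdiff
  refine ⟨q6, hq6.trans (hq5.trans (hq4.trans (hq3.trans (hq2.trans hq1)))), x, hxD, ?_⟩
  intro q' hq'
  exact ⟨q', le_rfl, y.1, y.2, s, t, zg.mono (hq'.trans (hq6.trans hq5)) hyr,
    c.mono (hq'.trans hq6) hs, c'.mono hq' ht, hsl, htl, hx⟩
-- END R8

-- BEGIN R9
theorem r9_trunc {d : CP} (c : d ⟶ Coh) (q : d.X) (n : ℕ) :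
    ∃ q' ≤ q, ∃ σ : Cn, σ.l.length = n ∧ c.rel q' σ := by
  obtain ⟨q', hq', σ, hσ, h⟩ := exists_long d c q n
  refine ⟨q', hq', ⟨σ.l.take n⟩, by simp [hσ], c.up ?_ h⟩
  exact List.take_prefix n σ.l

theorem r9_le {γ γ' : Tn} {σ σ' : Cn} (hγ : γ' ≤ γ) (hl : σ.l.length ≤ γ.m)
    (hσ : σ.l <+: σ'.l) : rd γ.g (cd σ.l) <+: rd γ'.g (cd σ'.l) := by
  have e : rd γ.g (cd σ.l) = rd γ'.g (cd σ.l) :=
    rd_congr fun v hv => (hγ.2 v (hv.trans_le (by rw [cd_length]; exact hl))).symm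
  rw [e]
  exact rd_prefix _ (cd_prefix hσ)

theorem r9_rel {d P : CP} {zg : d ⟶ prod P Tree} {c : d ⟶ Coh} {q : d.X}
    {x : (prod P Coh).X} {p : P.X} {γ : Tn} {σ : Cn} (h1 : zg.rel q (p, γ)) (h2 : c.rel q σ)
    (h3 : σ.l.length = γ.m) (h4 : ((p, (⟨rd γ.g (cd σ.l)⟩ : Cn)) : (prod P Coh).X) ≤ x) :
    rdRel zg c q x :=
  fun q' hq' => ⟨q', le_rfl, p, γ, σ, zg.mono hq' h1, c.mono hq' h2, h3, h4⟩

theorem r9_fst {d A B : CP} (f : d ⟶ prod A B) (q : d.X) (p : A.X) :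
    (f ≫ fst A B).rel q p ↔
      ∀ r' ≤ q, ∃ r'' ≤ r', ∃ x : (prod A B).X, f.rel r'' x ∧ x.1 ≤ p :=
  comp_ofProj_rel f (isProj_fst A B) q p

theorem r9_snd {d A B : CP} (f : d ⟶ prod A B) (q : d.X) (p : B.X) :
    (f ≫ snd A B).rel q p ↔
      ∀ r' ≤ q, ∃ r'' ≤ r', ∃ x : (prod A B).X, f.rel r'' x ∧ x.2 ≤ p :=
  comp_ofProj_rel f (isProj_snd A B) q p

/-- the reading name -/
def r9_hom {d P : CP} (zg : d ⟶ prod P Tree) (c : d ⟶ Coh) : d ⟶ prod P Coh where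
  rel := rdRel zg c
  mono h H q' hq' := H q' (hq'.trans h)
  loc {q x} H q' hq' := by
    obtain ⟨q₁, h1, H1⟩ := H q' hq'
    obtain ⟨q₂, h2, H2⟩ := H1 q₁ le_rfl
    exact ⟨q₂, h2.trans h1, H2⟩
  up h H q' hq' := by
    obtain ⟨q'', h1, p, γ, σ, h2, h3, h4, h5⟩ := H q' hq'
    exact ⟨q'', h1, p, γ, σ, h2, h3, h4, h5.trans h⟩
  filt := rdRel_filt
  gen := rdRel_gen zg c

/-- (task R9) reading one real -/
theorem exists_read {d P : CP} (zg : d ⟶ prod P Tree) (c : d ⟶ Coh) :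
    ∃ r : d ⟶ prod P Coh, r ≫ fst P Coh = zg ≫ fst P Tree ∧
      Reads (zg ≫ snd P Tree) c (r ≫ snd P Coh) := by
  refine ⟨r9_hom zg c, hom_ext fun q p => ?_, ?_⟩
  · rw [r9_fst, r9_fst]
    constructor
    · intro H r' hr'
      obtain ⟨r₁, h1, x, h2, h3⟩ := H r' hr'
      obtain ⟨r₂, h4, p₀, γ, σ, h5, -, -, h6⟩ := h2 r₁ le_rfl
      exact ⟨r₂, h4.trans h1, (p₀, γ), h5, le_trans h6.1 h3⟩
    · intro H r' hr'
      obtain ⟨r₁, h1, ⟨p₀, γ⟩, h2, h3⟩ := H r' hr'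
      obtain ⟨r₂, h4, σ, h5, h6⟩ := r9_trunc c r₁ (γ : Tn).m
      exact ⟨r₂, h4.trans h1, (p₀, (⟨rd (γ : Tn).g (cd σ.l)⟩ : Cn)),
        r9_rel (zg.mono h4 h2) h6 h5 le_rfl, h3⟩
  · intro q γ σ hl hg hc
    have hg := (r9_snd zg q γ).1 hg
    refine (r9_snd (r9_hom zg c) q (⟨rd γ.g (cd σ.l)⟩ : Cn)).2 ?_
    intro q' hq'
    obtain ⟨q₁, h1, ⟨p₀, δ⟩, h2, h3⟩ := hg q' hq'
    have h3 : (δ : Tn) ≤ γ := h3
    obtain ⟨q₂, h4, σ', h5, h6⟩ := r9_trunc c q₁ (δ : Tn).m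
    have h7 : σ.l <+: σ'.l := rel_prefix c (c.mono (h4.trans (h1.trans hq')) hc) h6
      (by rw [h5]; exact hl.trans h3.1)
    exact ⟨q₂, h4.trans h1, (p₀, (⟨rd (δ : Tn).g (cd σ'.l)⟩ : Cn)),
      r9_rel (zg.mono h4 h2) h6 h5 le_rfl, r9_le h3 hl h7⟩
-- END R9

-- BEGIN R10
theorem r10_trunc {d : CP} (c : d ⟶ Coh) (q : d.X) (n : ℕ) :
    ∃ q' ≤ q, ∃ σ : Cn, σ.l.length = n ∧ c.rel q' σ := by
  obtain ⟨q', hq', σ, hσ, h⟩ := exists_long d c q n
  refine ⟨q', hq', ⟨σ.l.take n⟩, by simp [hσ], c.up ?_ h⟩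
  exact List.take_prefix n σ.l

theorem r10_le {γ γ' : Tn} {σ σ' : Cn} (hγ : γ' ≤ γ) (hl : σ.l.length ≤ γ.m)
    (hσ : σ.l <+: σ'.l) : rd γ.g (cd σ.l) <+: rd γ'.g (cd σ'.l) := by
  have e : rd γ.g (cd σ.l) = rd γ'.g (cd σ.l) :=
    rd_congr fun v hv => (hγ.2 v (hv.trans_le (by rw [cd_length]; exact hl))).symm
  rw [e]
  exact rd_prefix _ (cd_prefix hσ)

theorem r10_rel {d P : CP} {zg : d ⟶ prod P Tree} {c c' : d ⟶ Coh} {q : d.X}
    {x : (prod (prod P Coh) Coh).X} {p : P.X} {γ : Tn} {σ τ : Cn} (h1 : zg.rel q (p, γ))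
    (h2 : c.rel q σ) (h2' : c'.rel q τ) (h3 : σ.l.length = γ.m) (h3' : τ.l.length = γ.m)
    (h4 : (((p, (⟨rd γ.g (cd σ.l)⟩ : Cn)), (⟨rd γ.g (cd τ.l)⟩ : Cn)) :
      (prod (prod P Coh) Coh).X) ≤ x) :
    rdRel₂ zg c c' q x :=
  fun q' hq' => ⟨q', le_rfl, p, γ, σ, τ, zg.mono hq' h1, c.mono hq' h2, c'.mono hq' h2', h3,
    h3', h4⟩

theorem r10_fst {d A B : CP} (f : d ⟶ prod A B) (q : d.X) (p : A.X) :
    (f ≫ fst A B).rel q p ↔
      ∀ r' ≤ q, ∃ r'' ≤ r', ∃ x : (prod A B).X, f.rel r'' x ∧ x.1 ≤ p :=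
  comp_ofProj_rel f (isProj_fst A B) q p

theorem r10_snd {d A B : CP} (f : d ⟶ prod A B) (q : d.X) (p : B.X) :
    (f ≫ snd A B).rel q p ↔
      ∀ r' ≤ q, ∃ r'' ≤ r', ∃ x : (prod A B).X, f.rel r'' x ∧ x.2 ≤ p :=
  comp_ofProj_rel f (isProj_snd A B) q p

theorem r10_fst_fst {d P : CP} (f : d ⟶ prod (prod P Coh) Coh) (q : d.X) (p : P.X) :
    (f ≫ fst (prod P Coh) Coh ≫ fst P Coh).rel q p ↔
      ∀ r' ≤ q, ∃ r'' ≤ r', ∃ x : (prod (prod P Coh) Coh).X, f.rel r'' x ∧ x.1.1 ≤ p := by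
  have e1 : fst (prod P Coh) Coh ≫ fst P Coh =
      ofProj (Q := prod (prod P Coh) Coh) (P := P) (Prod.fst ∘ Prod.fst)
        ((isProj_fst (prod P Coh) Coh).comp (isProj_fst P Coh)) :=
    ofProj_comp _ _
  rw [e1]
  exact comp_ofProj_rel f _ q p

theorem r10_fst_snd {d P : CP} (f : d ⟶ prod (prod P Coh) Coh) (q : d.X) (p : Coh.X) :
    (f ≫ fst (prod P Coh) Coh ≫ snd P Coh).rel q p ↔
      ∀ r' ≤ q, ∃ r'' ≤ r', ∃ x : (prod (prod P Coh) Coh).X, f.rel r'' x ∧ x.1.2 ≤ p := by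
  have e1 : fst (prod P Coh) Coh ≫ snd P Coh =
      ofProj (Q := prod (prod P Coh) Coh) (P := Coh) (Prod.snd ∘ Prod.fst)
        ((isProj_fst (prod P Coh) Coh).comp (isProj_snd P Coh)) :=
    ofProj_comp _ _
  rw [e1]
  exact comp_ofProj_rel f _ q p

/-- the pair of readings -/
def r10_hom {d P : CP} (zg : d ⟶ prod P Tree) {c c' : d ⟶ Coh} (hc : Apart c c') :
    d ⟶ prod (prod P Coh) Coh where
  rel := rdRel₂ zg c c'
  mono h H q' hq' := H q' (hq'.trans h)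
  loc {q x} H q' hq' := by
    obtain ⟨q₁, h1, H1⟩ := H q' hq'
    obtain ⟨q₂, h2, H2⟩ := H1 q₁ le_rfl
    exact ⟨q₂, h2.trans h1, H2⟩
  up h H q' hq' := by
    obtain ⟨q'', h1, p, γ, σ, τ, h2, h3, h4, h5, h6, h7⟩ := H q' hq'
    exact ⟨q'', h1, p, γ, σ, τ, h2, h3, h4, h5, h6, h7.trans h⟩
  filt := rdRel₂_filt
  gen := rdRel₂_gen zg hc

/-- (task R10) reading two different reals gives a mutually generic pair -/
theorem exists_read₂ {d P : CP} (zg : d ⟶ prod P Tree) {c c' : d ⟶ Coh} (hc : Apart c c') :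
    ∃ r : d ⟶ prod (prod P Coh) Coh,
      r ≫ fst (prod P Coh) Coh ≫ fst P Coh = zg ≫ fst P Tree ∧
      Reads (zg ≫ snd P Tree) c (r ≫ fst (prod P Coh) Coh ≫ snd P Coh) ∧
      Reads (zg ≫ snd P Tree) c' (r ≫ snd (prod P Coh) Coh) := by
  refine ⟨r10_hom zg hc, hom_ext fun q p => ?_, ?_, ?_⟩
  · rw [r10_fst_fst, r10_fst]
    constructor
    · intro H r' hr'
      obtain ⟨r₁, h1, x, h2, h3⟩ := H r' hr'
      obtain ⟨r₂, h4, p₀, γ, σ, τ, h5, -, -, -, -, h6⟩ := h2 r₁ le_rfl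
      exact ⟨r₂, h4.trans h1, (p₀, γ), h5, le_trans h6.1.1 h3⟩
    · intro H r' hr'
      obtain ⟨r₁, h1, ⟨p₀, γ⟩, h2, h3⟩ := H r' hr'
      obtain ⟨r₂, h4, σ, h5, h6⟩ := r10_trunc c r₁ (γ : Tn).m
      obtain ⟨r₃, h7, τ, h8, h9⟩ := r10_trunc c' r₂ (γ : Tn).m
      exact ⟨r₃, h7.trans (h4.trans h1),
        ((p₀, (⟨rd (γ : Tn).g (cd σ.l)⟩ : Cn)), (⟨rd (γ : Tn).g (cd τ.l)⟩ : Cn)),
        r10_rel (zg.mono (h7.trans h4) h2) (c.mono h7 h6) h9 h5 h8 le_rfl, h3⟩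
  · intro q γ σ hl hg hc'
    have hg := (r10_snd zg q γ).1 hg
    refine (r10_fst_snd (r10_hom zg hc) q (⟨rd γ.g (cd σ.l)⟩ : Cn)).2 ?_
    intro q' hq'
    obtain ⟨q₁, h1, ⟨p₀, δ⟩, h2, h3⟩ := hg q' hq'
    have h3 : (δ : Tn) ≤ γ := h3
    obtain ⟨q₂, h4, σ', h5, h6⟩ := r10_trunc c q₁ (δ : Tn).m
    obtain ⟨q₃, h7, τ', h8, h9⟩ := r10_trunc c' q₂ (δ : Tn).m
    have h10 : σ.l <+: σ'.l := rel_prefix c (c.mono (h4.trans (h1.trans hq')) hc') h6
      (by rw [h5]; exact hl.trans h3.1)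
    exact ⟨q₃, h7.trans (h4.trans h1),
      ((p₀, (⟨rd (δ : Tn).g (cd σ'.l)⟩ : Cn)), (⟨rd (δ : Tn).g (cd τ'.l)⟩ : Cn)),
      r10_rel (zg.mono (h7.trans h4) h2) (c.mono h7 h6) h9 h5 h8 le_rfl, r10_le h3 hl h10⟩
  · intro q γ σ hl hg hc'
    have hg := (r10_snd zg q γ).1 hg
    refine (r10_snd (r10_hom zg hc) q (⟨rd γ.g (cd σ.l)⟩ : Cn)).2 ?_
    intro q' hq'
    obtain ⟨q₁, h1, ⟨p₀, δ⟩, h2, h3⟩ := hg q' hq'
    have h3 : (δ : Tn) ≤ γ := h3
    obtain ⟨q₂, h4, σ', h5, h6⟩ := r10_trunc c q₁ (δ : Tn).m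
    obtain ⟨q₃, h7, τ', h8, h9⟩ := r10_trunc c' q₂ (δ : Tn).m
    have h10 : σ.l <+: τ'.l :=
      rel_prefix c' (c'.mono (h7.trans (h4.trans (h1.trans hq'))) hc') h9
        (by rw [h8]; exact hl.trans h3.1)
    exact ⟨q₃, h7.trans (h4.trans h1),
      ((p₀, (⟨rd (δ : Tn).g (cd σ'.l)⟩ : Cn)), (⟨rd (δ : Tn).g (cd τ'.l)⟩ : Cn)),
      r10_rel (zg.mono (h7.trans h4) h2) (c.mono h7 h6) h9 h5 h8 le_rfl, r10_le h3 hl h10⟩
-- END R10

-- BEGIN R11
/-- (task R11) the version used below: for an element `η` over `P' × Coh` (with `P'` = conditions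
below `p`) which takes different values at mutually generic reals, reading is injective -/
theorem read_injective (U : FU CP) {P d : CP} (η : U.El (prod P Coh))
    (hη : ∀ (e : CP) (f : e ⟶ prod (prod P Coh) Coh),
      ¬ U.eq (U.res (f ≫ fst _ _) η) (U.res (f ≫ map (fst _ _) (𝟙 Coh)) η))
    (zg : d ⟶ prod P Tree) (c c' : d ⟶ Coh) (r r' : d ⟶ prod P Coh)
    (hr : r ≫ fst P Coh = zg ≫ fst P Tree) (hr' : r' ≫ fst P Coh = zg ≫ fst P Tree)
    (h : Reads (zg ≫ snd P Tree) c (r ≫ snd P Coh))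
    (h' : Reads (zg ≫ snd P Tree) c' (r' ≫ snd P Coh))
    (heq : U.eq (U.res r η) (U.res r' η)) : c = c' := by
  refine eq_of_not_apart fun e u hu => ?_
  obtain ⟨f, f1, f2, f3⟩ := exists_read₂ (u ≫ zg) hu
  have g1 : f ≫ fst (prod P Coh) Coh = u ≫ r := by
    refine prod_ext ?_ ?_
    · rw [Category.assoc, f1, Category.assoc, Category.assoc, hr]
    · have k := h.res u
      rw [← Category.assoc u zg] at k
      have k2 := Reads.unique f2 k
      rw [Category.assoc, Category.assoc]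
      exact k2
  have g2 : f ≫ map (fst P Coh) (𝟙 Coh) = u ≫ r' := by
    refine prod_ext ?_ ?_
    · rw [Category.assoc, map_fst, f1, Category.assoc, Category.assoc, hr']
    · have k := h'.res u
      rw [← Category.assoc u zg] at k
      have k2 := Reads.unique f3 k
      rw [Category.assoc, map_snd, Category.comp_id, Category.assoc]
      exact k2
  apply hη e f
  rw [g1, g2, U.res_comp, U.res_comp]
  exact U.eq_res u heq
-- END R11

end CP

end Pool.Agent.Lib.ZFM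
end

section

/-!
The covering theorem: in the universe of names over countable preorders, for every decreasing
sequence `B n` of subsets of a set there are a stage, an `n` and a surjection (functional relation)
from `B (n + 1)` onto `B n`.
-/

open CategoryTheory

namespace Pool.Agent.Lib.ZFM

namespace CP

variable (U : FU CP) {P : CP} (F : Fam U.El P)

/-- indices: an element of the family `F`, evaluated at a name over `(P | p) × Coh` -/
structure Idx : Type 1 where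
  p : P.X
  i : F.ι
  m : prod (below P p) Coh ⟶ F.obj i
  hm : m ≫ F.hom i = fst (below P p) Coh ≫ incl P p

variable {U F}

/-- the element with index `j` -/
def Idx.η (j : Idx U F) : U.El (prod (below P j.p) Coh) := U.res j.m (F.el j.i)

/-- `x` is the value of `η j` at some Cohen real -/
def AtN {Q : CP} (z : Q ⟶ P) (x : U.El Q) (j : Idx U F) : Prop :=
  ∃ h : Q ⟶ prod (below P j.p) Coh, h ≫ fst _ _ ≫ incl P j.p = z ∧ U.eq x (U.res h j.η)

/-- `η j` does not depend on the Cohen real and `x` is its value -/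
def AtT {Q : CP} (z : Q ⟶ P) (x : U.El Q) (j : Idx U F) : Prop :=
  ∃ (w : U.El (below P j.p)) (z' : Q ⟶ below P j.p), U.eq j.η (U.res (fst _ _) w) ∧
    z' ≫ incl P j.p = z ∧ U.eq x (U.res z' w)

variable (F) in
/-- `x` is forced to be definable from `z` -/
def IsT {Q : CP} (z : Q ⟶ P) (x : U.El Q) : Prop :=
  Dn (fun d (f : d ⟶ Q) => ∃ j : Idx U F, AtT (f ≫ z) (U.res f x) j)

variable (F) in
/-- `x` is forced not to be definable from `z` -/
def IsN {Q : CP} (z : Q ⟶ P) (x : U.El Q) : Prop :=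
  ∀ (d : CP) (f : d ⟶ Q), ¬ IsT F (f ≫ z) (U.res f x)

/-- `j` is the least T-index of `x` -/
def LeastT {Q : CP} (z : Q ⟶ P) (x : U.El Q) (j : Idx U F) : Prop :=
  AtT z x j ∧ ∀ j', WellOrderingRel j' j → ∀ (d : CP) (f : d ⟶ Q), ¬ AtT (f ≫ z) (U.res f x) j'

/-- `j` is the least N-index of `x` -/
def LeastN {Q : CP} (z : Q ⟶ P) (x : U.El Q) (j : Idx U F) : Prop :=
  Dn (fun d (f : d ⟶ Q) => AtN (f ≫ z) (U.res f x) j) ∧
    ∀ j', WellOrderingRel j' j → ∀ (d : CP) (f : d ⟶ Q), ¬ AtN (f ≫ z) (U.res f x) j'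

-- BEGIN K1
/-- (task K1) monotonicity and congruence -/
theorem AtN.res {Q R : CP} {z : Q ⟶ P} {x : U.El Q} {j : Idx U F} (h : AtN z x j) (f : R ⟶ Q) :
    AtN (f ≫ z) (U.res f x) j := by
  obtain ⟨g, hg, hx⟩ := h
  refine ⟨f ≫ g, by rw [Category.assoc, hg], ?_⟩
  rw [U.res_comp]
  exact U.eq_res f hx

theorem AtT.res {Q R : CP} {z : Q ⟶ P} {x : U.El Q} {j : Idx U F} (h : AtT z x j) (f : R ⟶ Q) :
    AtT (f ≫ z) (U.res f x) j := by
  obtain ⟨w, z', hw, hz, hx⟩ := h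
  refine ⟨w, f ≫ z', hw, by rw [Category.assoc, hz], ?_⟩
  rw [U.res_comp]
  exact U.eq_res f hx

theorem AtN.congr {Q : CP} {z : Q ⟶ P} {x y : U.El Q} {j : Idx U F} (h : AtN z x j)
    (hxy : U.eq x y) : AtN z y j := by
  obtain ⟨g, hg, hx⟩ := h
  exact ⟨g, hg, U.eq_trans (U.eq_symm hxy) hx⟩

theorem AtT.congr {Q : CP} {z : Q ⟶ P} {x y : U.El Q} {j : Idx U F} (h : AtT z x j)
    (hxy : U.eq x y) : AtT z y j := by
  obtain ⟨w, z', hw, hz, hx⟩ := h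
  exact ⟨w, z', hw, hz, U.eq_trans (U.eq_symm hxy) hx⟩

theorem IsT.res {Q R : CP} {z : Q ⟶ P} {x : U.El Q} (h : IsT F z x) (f : R ⟶ Q) :
    IsT F (f ≫ z) (U.res f x) := by
  have h' := Dn.res h f
  unfold IsT
  simpa only [Category.assoc, U.res_comp] using h'

theorem IsN.res {Q R : CP} {z : Q ⟶ P} {x : U.El Q} (h : IsN F z x) (f : R ⟶ Q) :
    IsN F (f ≫ z) (U.res f x) := by
  intro d g
  have h' := h d (g ≫ f)
  simpa only [Category.assoc, U.res_comp] using h'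

theorem IsT.congr {Q : CP} {z : Q ⟶ P} {x y : U.El Q} (h : IsT F z x) (hxy : U.eq x y) :
    IsT F z y := by
  refine Dn.imp ?_ h
  rintro d f ⟨j, hj⟩
  exact ⟨j, hj.congr (U.eq_res f hxy)⟩

theorem IsN.congr {Q : CP} {z : Q ⟶ P} {x y : U.El Q} (h : IsN F z x) (hxy : U.eq x y) :
    IsN F z y :=
  fun d f hT => h d f (hT.congr (U.eq_symm (U.eq_res f hxy)))

theorem LeastT.res {Q R : CP} {z : Q ⟶ P} {x : U.El Q} {j : Idx U F} (h : LeastT z x j) (f : R ⟶ Q) :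
    LeastT (f ≫ z) (U.res f x) j := by
  refine ⟨h.1.res f, fun j' hj' d g => ?_⟩
  have h' := h.2 j' hj' d (g ≫ f)
  simpa only [Category.assoc, U.res_comp] using h'

theorem LeastN.res {Q R : CP} {z : Q ⟶ P} {x : U.El Q} {j : Idx U F} (h : LeastN z x j) (f : R ⟶ Q) :
    LeastN (f ≫ z) (U.res f x) j := by
  constructor
  · have h' := Dn.res h.1 f
    simpa only [Category.assoc, U.res_comp] using h'
  · intro j' hj' d g
    have h' := h.2 j' hj' d (g ≫ f)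
    simpa only [Category.assoc, U.res_comp] using h'

theorem LeastT.congr {Q : CP} {z : Q ⟶ P} {x y : U.El Q} {j : Idx U F} (h : LeastT z x j)
    (hxy : U.eq x y) : LeastT z y j :=
  ⟨h.1.congr hxy, fun j' hj' d f hT => h.2 j' hj' d f (hT.congr (U.eq_symm (U.eq_res f hxy)))⟩

theorem LeastN.congr {Q : CP} {z : Q ⟶ P} {x y : U.El Q} {j : Idx U F} (h : LeastN z x j)
    (hxy : U.eq x y) : LeastN z y j :=
  ⟨Dn.imp (fun _ f hf => hf.congr (U.eq_res f hxy)) h.1,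
    fun j' hj' d f hT => h.2 j' hj' d f (hT.congr (U.eq_symm (U.eq_res f hxy)))⟩
-- END K1

-- BEGIN K2
/-- (task K2) locality of `IsN` and `LeastN` -/
theorem k2_not {Q : CP} {z : Q ⟶ P} {x : U.El Q} (h : IsN F z x) (h' : IsT F z x) :
    False := by
  have h1 := h Q (𝟙 Q)
  rw [Category.id_comp, U.res_id] at h1
  exact h1 h'

theorem IsN.loc {Q : CP} {z : Q ⟶ P} {x : U.El Q}
    (h : Dn (fun d (f : d ⟶ Q) => IsN F (f ≫ z) (U.res f x))) : IsN F z x := by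
  intro d f hT
  obtain ⟨e, g, hg⟩ := h d f
  have h1 := hT.res g
  rw [← U.res_comp, ← Category.assoc] at h1
  exact k2_not hg h1

theorem LeastN.loc {Q : CP} {z : Q ⟶ P} {x : U.El Q} {j : Idx U F}
    (h : Dn (fun d (f : d ⟶ Q) => LeastN (f ≫ z) (U.res f x) j)) : LeastN z x j := by
  constructor
  · refine Dn.join (Dn.imp ?_ h)
    intro d f hf
    have h1 := hf.1
    simpa only [Category.assoc, U.res_comp] using h1
  · intro j' hj' d f hA
    obtain ⟨e, g, hg⟩ := h d f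
    have h1 := hA.res g
    rw [← U.res_comp, ← Category.assoc] at h1
    have h2 := hg.2 j' hj' e (𝟙 e)
    rw [Category.id_comp, U.res_id] at h2
    exact h2 h1

theorem isT_or_isN {Q : CP} (z : Q ⟶ P) (x : U.El Q) :
    Dn (fun d (f : d ⟶ Q) => IsT F (f ≫ z) (U.res f x) ∨ IsN F (f ≫ z) (U.res f x)) := by
  intro d f
  by_cases h : ∃ (e : CP) (g : e ⟶ d), IsT F ((g ≫ f) ≫ z) (U.res (g ≫ f) x)
  · obtain ⟨e, g, hg⟩ := h
    exact ⟨e, g, Or.inl hg⟩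
  · refine ⟨d, 𝟙 d, Or.inr ?_⟩
    intro e g hT
    apply h
    refine ⟨e, g, ?_⟩
    simpa only [Category.id_comp, Category.assoc, U.res_comp, U.res_id] using hT

theorem IsN.not_isT {Q : CP} {z : Q ⟶ P} {x : U.El Q} (h : IsN F z x) (h' : IsT F z x) :
    False := k2_not h h'

theorem LeastT.isT {Q : CP} {z : Q ⟶ P} {x : U.El Q} {j : Idx U F} (h : LeastT z x j) : IsT F z x :=
  Dn.of_all fun _ f => ⟨j, h.1.res f⟩
-- END K2

-- BEGIN K3
/-- (task K3) uniqueness of the indices, and of the element for a T-index -/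
theorem k3_tri {i j : Idx U F} (h1 : ¬ WellOrderingRel i j) (h2 : ¬ WellOrderingRel j i) :
    i = j := by
  have hwo : IsWellOrder (Idx U F) WellOrderingRel := WellOrderingRel.isWellOrder
  rcases trichotomous_of (WellOrderingRel : Idx U F → Idx U F → Prop) i j with h | h | h
  · exact absurd h h1
  · exact h
  · exact absurd h h2

theorem LeastT.unique {Q : CP} {z : Q ⟶ P} {x : U.El Q} {i j : Idx U F} (h : LeastT z x i)
    (h' : LeastT z x j) : i = j := by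
  apply k3_tri
  · intro hij
    apply h'.2 i hij Q (𝟙 Q)
    simpa [U.res_id] using h.1
  · intro hij
    apply h.2 j hij Q (𝟙 Q)
    simpa [U.res_id] using h'.1

theorem LeastN.unique {Q : CP} {z : Q ⟶ P} {x : U.El Q} {i j : Idx U F} (h : LeastN z x i)
    (h' : LeastN z x j) : i = j := by
  apply k3_tri
  · intro hij
    obtain ⟨e, g, hg⟩ := h.1 Q (𝟙 Q)
    exact h'.2 i hij e _ hg
  · intro hij
    obtain ⟨e, g, hg⟩ := h'.1 Q (𝟙 Q)
    exact h.2 j hij e _ hg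

theorem AtT.unique {Q : CP} {z : Q ⟶ P} {x y : U.El Q} {j : Idx U F} (h : AtT z x j)
    (h' : AtT z y j) : U.eq x y := by
  obtain ⟨w, z', h1, h2, h3⟩ := h
  obtain ⟨w', z'', h1', h2', h3'⟩ := h'
  have hz : z' = z'' := incl_mono (h2.trans h2'.symm)
  subst hz
  have hML : IsML (E := below P j.p) (fun R (u : R ⟶ below P j.p) => U.eq (U.res u w) (U.res u w')) := by
    constructor
    · intro R S u v hu
      rw [U.res_comp, U.res_comp]
      exact U.eq_res v hu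
    · intro R u hu
      apply U.eq_loc
      refine hu.imp ?_
      intro S v hv
      rwa [U.res_comp, U.res_comp] at hv
  have hw : U.eq (U.res (𝟙 _) w) (U.res (𝟙 _) w') := by
    apply hML.of_prod (T := Coh) (𝟙 (below P j.p))
    rw [Category.comp_id]
    exact U.eq_trans (U.eq_symm h1) h1'
  rw [U.res_id, U.res_id] at hw
  exact U.eq_trans h3 (U.eq_trans (U.eq_res z' hw) (U.eq_symm h3'))
-- END K3

-- BEGIN K4
/-- (task K4) every element of the set has an N-index (by Cohen absorption) -/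
theorem exists_atN {Q : CP} {z : Q ⟶ P} {x : U.El Q} (h : U.mem x (U.res z (U.set F))) :
    Dn (fun d (f : d ⟶ Q) => ∃ j : Idx U F, AtN (f ≫ z) (U.res f x) j) := by
  intro d f
  obtain ⟨e, g, i, l, hl, hx⟩ := (U.mem_set F z x).1 h d f
  obtain ⟨p, t, ht⟩ := absorb (l ≫ F.hom i)
  refine ⟨prod (below P p) Coh, t ≫ g, ⟨p, i, t ≫ l, by simpa using ht⟩, 𝟙 _, ?_, ?_⟩
  · rw [Category.id_comp, ← ht, hl]
    simp
  · have h1 := U.eq_res t hx
    have e1 : U.res ((t ≫ g) ≫ f) x = U.res t (U.res (g ≫ f) x) := by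
      rw [← U.res_comp, Category.assoc]
    have e2 : U.res (𝟙 (prod (below P p) Coh))
        (Idx.η (⟨p, i, t ≫ l, by simpa using ht⟩ : Idx U F)) = U.res t (U.res l (F.el i)) := by
      rw [U.res_id, ← U.res_comp]
      rfl
    rw [e1, e2]
    exact h1
-- END K4

-- BEGIN K5
/-- (task K5) existence of least indices -/
theorem k5_min (J : Set (Idx U F)) (hJ : J.Nonempty) :
    ∃ j ∈ J, ∀ j', WellOrderingRel j' j → j' ∉ J := by
  have hwo : IsWellOrder (Idx U F) WellOrderingRel := WellOrderingRel.isWellOrder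
  have hwf : WellFounded (WellOrderingRel : Idx U F → Idx U F → Prop) := hwo.wf
  exact ⟨hwf.min J hJ, hwf.min_mem J hJ, fun j' hj' hmem => hwf.not_lt_min J hmem hj'⟩

theorem exists_leastN {Q : CP} {z : Q ⟶ P} {x : U.El Q} (h : U.mem x (U.res z (U.set F))) :
    Dn (fun d (f : d ⟶ Q) => ∃ j : Idx U F, LeastN (f ≫ z) (U.res f x) j) := by
  intro d f
  obtain ⟨e₀, g₀, j₀, h₀⟩ := exists_atN h d f
  obtain ⟨j, ⟨e, g, hg⟩, hmin⟩ := k5_min
    {j : Idx U F | ∃ (e : CP) (g : e ⟶ d), AtN ((g ≫ f) ≫ z) (U.res (g ≫ f) x) j}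
    ⟨j₀, e₀, g₀, h₀⟩
  refine ⟨e, g, j, ?_, ?_⟩
  · exact Dn.of_all (fun d' f' => hg.res f')
  · intro j' hj' d' f' hat
    apply hmin j' hj'
    refine ⟨d', f' ≫ g, ?_⟩
    simpa [U.res_comp] using hat

theorem exists_leastT {Q : CP} {z : Q ⟶ P} {x : U.El Q} (h : IsT F z x) :
    Dn (fun d (f : d ⟶ Q) => ∃ j : Idx U F, LeastT (f ≫ z) (U.res f x) j) := by
  intro d f
  obtain ⟨e₀, g₀, j₀, h₀⟩ := h d f
  obtain ⟨j, ⟨e, g, hg⟩, hmin⟩ := k5_min
    {j : Idx U F | ∃ (e : CP) (g : e ⟶ d), AtT ((g ≫ f) ≫ z) (U.res (g ≫ f) x) j}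
    ⟨j₀, e₀, g₀, h₀⟩
  refine ⟨e, g, j, hg, ?_⟩
  intro j' hj' d' f' hat
  apply hmin j' hj'
  refine ⟨d', f' ≫ g, ?_⟩
  simpa [U.res_comp] using hat
-- END K5

/-- the conditions `e` which force that `η j` is in `B`, is not definable from `z` and has least
index `j` -/
def Good (B : Pd U P) (j : Idx U F) (e : (prod (below P j.p) Coh).X) : Prop :=
  ∀ (R : CP) (h : R ⟶ prod (below P j.p) Coh), Con h e →
    LeastN (h ≫ fst _ _ ≫ incl P j.p) (U.res h j.η) j ∧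
    IsN F (h ≫ fst _ _ ≫ incl P j.p) (U.res h j.η) ∧
    B.P R (h ≫ fst _ _ ≫ incl P j.p) (U.res h j.η)

/-- the name `(P | p') × Coh ⟶ (P | p) × Coh` which restricts to the condition `e = (p', s)` -/
def toCond {p : P.X} (e : (prod (below P p) Coh).X) :
    prod (below P e.1.1) Coh ⟶ prod (below P p) Coh :=
  map (resMap P e.1.2) (shift (Cn.l e.2))

-- BEGIN K6
/-- (task K6) the name `toCond e` -/
theorem con_toCond {p : P.X} (e : (prod (below P p) Coh).X) {Q : CP}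
    (r : Q ⟶ prod (below P e.1.1) Coh) : Con (r ≫ toCond e) e := by
  have h : Con (map (resMap P e.1.2) (shift (Cn.l e.2))) (_, _) :=
    con_map (con_resMap P e.1.2) (con_shift (Cn.l e.2))
  exact Con.comp (h := toCond e) (p := e) h r

theorem toCond_fst {p : P.X} (e : (prod (below P p) Coh).X) :
    toCond e ≫ fst _ _ ≫ incl P p = fst _ _ ≫ incl P e.1.1 := by
  unfold toCond
  rw [← Category.assoc, map_fst, Category.assoc, resMap_incl]
-- END K6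

-- BEGIN K7
/-- (task K7) below a good condition `η j` takes different values at mutually generic reals -/
theorem Good.injective {B : Pd U P} {j : Idx U F} {e : (prod (below P j.p) Coh).X}
    (h : Good B j e) (d : CP) (f : d ⟶ prod (prod (below P e.1.1) Coh) Coh) :
    ¬ U.eq (U.res (f ≫ fst _ _) (U.res (toCond e) j.η))
      (U.res (f ≫ map (fst _ _) (𝟙 Coh)) (U.res (toCond e) j.η)) := by
  rcases dichotomy U P e.1.1 (U.res (toCond e) j.η) with ⟨p', hp, s, w, hw⟩ | h2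
  · exfalso
    set a : prod (below P p') Coh ⟶ prod (below P j.p) Coh :=
      map (resMap P hp) (shift s) ≫ toCond e with ha
    have hz : a ≫ fst _ _ ≫ incl P j.p = fst _ _ ≫ incl P p' := by
      rw [ha, Category.assoc, toCond_fst, ← Category.assoc, map_fst, Category.assoc, resMap_incl]
    obtain ⟨-, hN, -⟩ := h _ a (con_toCond e _)
    have hη : U.eq (U.res a j.η) (U.res (fst (below P p') Coh) w) := by
      rw [ha, U.res_comp]
      exact hw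
    set j' : Idx U F := ⟨p', j.i, a ≫ j.m, by rw [Category.assoc, j.hm, hz]⟩ with hj'
    have hj'η : j'.η = U.res a j.η := by
      change U.res (a ≫ j.m) (F.el j.i) = U.res a (U.res j.m (F.el j.i))
      rw [U.res_comp]
    have hAt : AtT (a ≫ fst _ _ ≫ incl P j.p) (U.res a j.η) j' :=
      ⟨w, fst (below P p') Coh, by rw [hj'η]; exact hη, hz.symm, hη⟩
    exact hN.not_isT (Dn.of_all (fun d' f' => ⟨j', hAt.res f'⟩))
  · exact h2 d f
-- END K7

-- BEGIN K8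
theorem k8_isML (B : Pd U P) (j : Idx U F) :
    IsML (E := prod (below P j.p) Coh) (fun R h =>
      LeastN (h ≫ fst _ _ ≫ incl P j.p) (U.res h j.η) j ∧
      IsN F (h ≫ fst _ _ ≫ incl P j.p) (U.res h j.η) ∧
      B.P R (h ≫ fst _ _ ≫ incl P j.p) (U.res h j.η)) where
  mono {R S} x u H := by
    obtain ⟨H1, H2, H3⟩ := H
    rw [U.res_comp, Category.assoc]
    exact ⟨H1.res u, H2.res u, B.mono _ u _ H3⟩
  loc {R} x H := by
    refine ⟨?_, ?_, ?_⟩
    · apply LeastN.loc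
      refine H.imp ?_
      intro d f h
      have h1 := h.1
      rwa [U.res_comp, Category.assoc] at h1
    · apply IsN.loc
      refine H.imp ?_
      intro d f h
      have h1 := h.2.1
      rwa [U.res_comp, Category.assoc] at h1
    · apply B.loc
      refine H.imp ?_
      intro d f h
      have h1 := h.2.2
      rwa [U.res_comp, Category.assoc] at h1

/-- (task K8) the truth lemma for `Good` -/
theorem exists_good {B : Pd U P} {j : Idx U F} {Q : CP} {z : Q ⟶ P} {x : U.El Q}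
    (hj : AtN z x j) (h1 : LeastN z x j) (h2 : IsN F z x) (h3 : B.P Q z x) :
    Dn (fun d (f : d ⟶ Q) => ∃ e : (prod (below P j.p) Coh).X, Good B j e ∧
      Con (f ≫ z) e.1.1) := by
  obtain ⟨h, hz, hx⟩ := hj
  intro d f
  obtain ⟨q⟩ := (inferInstance : Nonempty d.X)
  have hΘ := (k8_isML B j).mono h f ⟨by rw [hz]; exact h1.congr hx, by rw [hz]; exact h2.congr hx,
    by rw [hz]; exact B.congr _ _ _ hx h3⟩
  obtain ⟨q', hq', e, he, H⟩ := (k8_isML B j).truth (f ≫ h) hΘ q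
  refine ⟨below d q', incl d q', e, H, ?_⟩
  have h4 : Con (incl d q' ≫ f ≫ h) e := (con_incl_iff _ _ _).2 he
  have h5 : Con ((incl d q' ≫ f ≫ h) ≫ fst (below P j.p) Coh) e.1 :=
    ((con_prod_iff (incl d q' ≫ f ≫ h) e.1 e.2).1 h4).1
  intro r
  have h6 : (incl P j.p).rel e.1 e.1.1 := ofProj_rel_of _ le_rfl
  have h7 := comp_rel_of (h5 r) h6
  have h8 : ((incl d q' ≫ f ≫ h) ≫ fst (below P j.p) Coh) ≫ incl P j.p =
      (incl d q' ≫ f) ≫ z := by
    rw [← hz]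
    simp only [Category.assoc]
  rw [← h8]
  exact h7
-- END K8

variable (U F) in
/-- an enumeration of the conditions -/
noncomputable def en (j : Idx U F) : ℕ → (prod (below P j.p) Coh).X :=
  (exists_surjective_nat (prod (below P j.p) Coh).X).choose

theorem en_surj (j : Idx U F) : Function.Surjective (en U F j) :=
  (exists_surjective_nat (prod (below P j.p) Coh).X).choose_spec

/-- `k` is the first good condition for `j` whose first component is in the generic filter `z` -/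
def Kk (B : Pd U P) {Q : CP} (z : Q ⟶ P) (j : Idx U F) (k : ℕ) : Prop :=
  Good B j (en U F j k) ∧ Con z (en U F j k).1.1 ∧
    ∀ k' < k, Good B j (en U F j k') → ∀ (d : CP) (f : d ⟶ Q), ¬ Con (f ≫ z) (en U F j k').1.1

-- BEGIN K9
/-- (task K9) first good conditions -/
theorem Kk.unique {B : Pd U P} {Q : CP} {z : Q ⟶ P} {j : Idx U F} {k k' : ℕ} (h : Kk B z j k)
    (h' : Kk B z j k') : k = k' := by
  rcases lt_trichotomy k k' with hk | hk | hk
  · exact absurd (by simpa using h.2.1) (h'.2.2 k hk h.1 Q (𝟙 Q))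
  · exact hk
  · exact absurd (by simpa using h'.2.1) (h.2.2 k' hk h'.1 Q (𝟙 Q))

theorem Kk.res {B : Pd U P} {Q R : CP} {z : Q ⟶ P} {j : Idx U F} {k : ℕ} (h : Kk B z j k)
    (f : R ⟶ Q) : Kk B (f ≫ z) j k :=
  ⟨h.1, h.2.1.comp f, fun k' hk' hg d g hc =>
    h.2.2 k' hk' hg d (g ≫ f) (by simpa using hc)⟩

theorem exists_Kk {B : Pd U P} {Q : CP} {z : Q ⟶ P} {j : Idx U F}
    {e : (prod (below P j.p) Coh).X} (he : Good B j e) (hz : Con z e.1.1) :
    Dn (fun d (f : d ⟶ Q) => ∃ k, Kk B (f ≫ z) j k) := by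
  classical
  intro d f
  have hex : ∃ k : ℕ, Good B j (en U F j k) ∧
      ∃ (e' : CP) (g : e' ⟶ d), Con ((g ≫ f) ≫ z) (en U F j k).1.1 := by
    obtain ⟨k, hk⟩ := en_surj j e
    refine ⟨k, ?_, d, 𝟙 d, ?_⟩
    · rw [hk]; exact he
    · rw [hk]; exact hz.comp _
  obtain ⟨hg, e', g, hc⟩ := Nat.find_spec hex
  refine ⟨e', g, Nat.find hex, hg, hc, ?_⟩
  intro k' hk' hg' d' f' hc'
  exact Nat.find_min hex hk' ⟨hg', d', f' ≫ g, by simpa using hc'⟩
-- END K9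

variable (B B' : Pd U P)

variable (F) in
/-- the set of T-indices of elements of `B` -/
def XT : LP P (Idx U F) where
  P d f j := Dn (fun e (g : e ⟶ d) => ∃ x : U.El e, LeastT (g ≫ f) x j ∧ B.P e (g ≫ f) x)
  mono f g j H := by simpa using H.res g
  loc f j H := Dn.join (by simpa using H)

variable (F) in
/-- the set of N-indices of elements of `B` -/
def XN : LP P (Idx U F) where
  P d f j := Dn (fun e (g : e ⟶ d) => ∃ x : U.El e, LeastN (g ≫ f) x j ∧ IsN F (g ≫ f) x ∧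
    B.P e (g ≫ f) x)
  mono f g j H := by simpa using H.res g
  loc f j H := Dn.join (by simpa using H)

section Map

variable {Q : CP} (gQ : Q ⟶ P) (Ψ : ∀ e : CP, (e ⟶ Q) → Idx U F → Idx U F → Prop)

/-- the surjection on the T-part (`B'` onto `B`) -/
def HT {d : CP} (u : d ⟶ prod Q Tree) (x y : U.El d) : Prop :=
  ∃ i j : Idx U F, Ψ d (u ≫ fst Q Tree) i j ∧ LeastT (u ≫ fst Q Tree ≫ gQ) x i ∧
    LeastT (u ≫ fst Q Tree ≫ gQ) y j ∧ B'.P d (u ≫ fst Q Tree ≫ gQ) x ∧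
    B.P d (u ≫ fst Q Tree ≫ gQ) y

/-- the surjection on the N-part (`B'` onto `B`): `x = η i (z, s⌢read(g, code c))` is mapped to
`y = η j (z, c)` -/
def HN {d : CP} (u : d ⟶ prod Q Tree) (x y : U.El d) : Prop :=
  ∃ (i j : Idx U F) (k : ℕ) (h : d ⟶ prod (below P j.p) Coh)
    (zr : d ⟶ prod (below P (en U F i k).1.1) Tree)
    (r : d ⟶ prod (below P (en U F i k).1.1) Coh),
    Ψ d (u ≫ fst Q Tree) i j ∧ Kk B' (u ≫ fst Q Tree ≫ gQ) i k ∧
    h ≫ fst _ _ ≫ incl P j.p = u ≫ fst Q Tree ≫ gQ ∧ U.eq y (U.res h j.η) ∧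
    B.P d (u ≫ fst Q Tree ≫ gQ) y ∧
    zr ≫ map (incl P _) (𝟙 Tree) = u ≫ map gQ (𝟙 Tree) ∧ r ≫ fst _ _ = zr ≫ fst _ _ ∧
    Reads (zr ≫ snd _ _) (h ≫ snd _ _) (r ≫ snd _ _) ∧
    U.eq x (U.res (r ≫ toCond (en U F i k)) i.η)

variable {gQ Ψ B B'}

-- BEGIN K10
/-- (task K10) monotonicity and congruence of `HT` and `HN` -/
theorem HT.res (hΨ : Onto ((XT F B').res gQ) ((XT F B).res gQ) Ψ) {d e : CP}
    {u : d ⟶ prod Q Tree} {x y : U.El d} (h : HT B B' gQ Ψ u x y) (f : e ⟶ d) :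
    HT B B' gQ Ψ (f ≫ u) (U.res f x) (U.res f y) := by
  obtain ⟨i, j, h1, h2, h3, h4, h5⟩ := h
  refine ⟨i, j, ?_, ?_, ?_, ?_, ?_⟩
  · simpa using hΨ.mono _ f i j h1
  · simpa using h2.res f
  · simpa using h3.res f
  · simpa using B'.mono _ f x h4
  · simpa using B.mono _ f y h5

theorem HN.res (hΨ : Onto ((XN F B').res gQ) ((XN F B).res gQ) Ψ) {d e : CP}
    {u : d ⟶ prod Q Tree} {x y : U.El d} (h : HN B B' gQ Ψ u x y) (f : e ⟶ d) :
    HN B B' gQ Ψ (f ≫ u) (U.res f x) (U.res f y) := by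
  obtain ⟨i, j, k, h, zr, r, h1, h2, h3, h4, h5, h6, h7, h8, h9⟩ := h
  refine ⟨i, j, k, f ≫ h, f ≫ zr, f ≫ r, ?_, ?_, ?_, ?_, ?_, ?_, ?_, ?_, ?_⟩
  · simpa using hΨ.mono _ f i j h1
  · simpa using h2.res f
  · simp only [Category.assoc]
    rw [h3]
  · rw [U.res_comp]
    exact U.eq_res f h4
  · simpa using B.mono _ f y h5
  · simp only [Category.assoc]
    rw [h6]
  · simp only [Category.assoc]
    rw [h7]
  · simpa using h8.res f
  · rw [Category.assoc, U.res_comp]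
    exact U.eq_res f h9

theorem HT.congr {d : CP} {u : d ⟶ prod Q Tree} {x x' y y' : U.El d} (h : HT B B' gQ Ψ u x y)
    (hx : U.eq x x') (hy : U.eq y y') : HT B B' gQ Ψ u x' y' := by
  obtain ⟨i, j, h1, h2, h3, h4, h5⟩ := h
  exact ⟨i, j, h1, h2.congr hx, h3.congr hy, B'.congr _ _ _ hx h4, B.congr _ _ _ hy h5⟩

theorem HN.congr {d : CP} {u : d ⟶ prod Q Tree} {x x' y y' : U.El d} (h : HN B B' gQ Ψ u x y)
    (hx : U.eq x x') (hy : U.eq y y') : HN B B' gQ Ψ u x' y' := by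
  obtain ⟨i, j, k, h, zr, r, h1, h2, h3, h4, h5, h6, h7, h8, h9⟩ := h
  exact ⟨i, j, k, h, zr, r, h1, h2, h3, U.eq_trans (U.eq_symm hy) h4, B.congr _ _ _ hy h5,
    h6, h7, h8, U.eq_trans (U.eq_symm hx) h9⟩
-- END K10

-- BEGIN K11
theorem k11_eq {i : Idx U F} {k : ℕ} {d : CP} {u : d ⟶ prod Q Tree}
    {zr : d ⟶ prod (below P (en U F i k).1.1) Tree}
    {r : d ⟶ prod (below P (en U F i k).1.1) Coh}
    (h1 : zr ≫ map (incl P _) (𝟙 Tree) = u ≫ map gQ (𝟙 Tree))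
    (h2 : r ≫ fst _ _ = zr ≫ fst _ _) :
    (r ≫ toCond (en U F i k)) ≫ fst _ _ ≫ incl P i.p = u ≫ fst Q Tree ≫ gQ := by
  have h3 : (r ≫ toCond (en U F i k)) ≫ fst _ _ ≫ incl P i.p =
      (r ≫ fst _ _) ≫ incl P (en U F i k).1.1 := by
    rw [Category.assoc, toCond_fst, Category.assoc]
  rw [h3, h2, Category.assoc, ← map_fst (incl P (en U F i k).1.1) (𝟙 Tree), ← Category.assoc, h1,
    Category.assoc, map_fst]

/-- (task K11) domain of `HN` -/
theorem HN.dom {d : CP} {u : d ⟶ prod Q Tree} {x y : U.El d} (h : HN B B' gQ Ψ u x y) :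
    IsN F (u ≫ fst Q Tree ≫ gQ) x ∧ B'.P d (u ≫ fst Q Tree ≫ gQ) x := by
  obtain ⟨i, j, k, h, zr, r, -, hk, -, -, -, hzr, hr, -, hx⟩ := h
  obtain ⟨-, g2, g3⟩ := hk.1 d (r ≫ toCond (en U F i k)) (con_toCond _ r)
  rw [k11_eq hzr hr] at g2 g3
  exact ⟨g2.congr (U.eq_symm hx), B'.congr _ _ _ (U.eq_symm hx) g3⟩

theorem HN.not_HT {Ψ' : ∀ e : CP, (e ⟶ Q) → Idx U F → Idx U F → Prop} {d : CP}
    {u : d ⟶ prod Q Tree} {x y y' : U.El d} (h : HN B B' gQ Ψ u x y)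
    (h' : HT B B' gQ Ψ' u x y') : False := by
  obtain ⟨i, j, -, hx, -, -, -⟩ := h'
  exact h.dom.1.not_isT hx.isT
-- END K11

-- BEGIN K12
/-- (task K12) `HT` is functional -/
theorem HT.unique (hΨ : Onto ((XT F B').res gQ) ((XT F B).res gQ) Ψ) {d : CP}
    {u : d ⟶ prod Q Tree} {x y y' : U.El d} (h : HT B B' gQ Ψ u x y)
    (h' : HT B B' gQ Ψ u x y') : U.eq y y' := by
  obtain ⟨i, j, h1, h2, h3, h4, h5⟩ := h
  obtain ⟨i', j', h1', h2', h3', h4', h5'⟩ := h'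
  obtain rfl := h2.unique h2'
  obtain rfl := hΨ.unique _ _ _ _ h1 h1'
  exact h3.1.unique h3'.1
-- END K12

-- BEGIN K13
theorem k13_mono {P T R : CP} {p : P.X} {f f' : R ⟶ prod (below P p) T}
    (h : f ≫ map (incl P p) (𝟙 T) = f' ≫ map (incl P p) (𝟙 T)) : f = f' := by
  have h1 := map_ofProj (isEmb_val P p) (isEmb_id T)
  have h2 : ofProj id (isEmb_id T).isProj = 𝟙 T := ofProj_id T
  rw [h2] at h1
  apply ofProj_mono ((isEmb_val P p).prodMap (isEmb_id T))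
  rw [← h1]
  exact h

theorem k13_least {d : CP} {u : d ⟶ prod Q Tree} {x : U.El d} {i : Idx U F} {k : ℕ}
    {zr : d ⟶ prod (below P (en U F i k).1.1) Tree}
    {r : d ⟶ prod (below P (en U F i k).1.1) Coh}
    (hk : Kk B' (u ≫ fst Q Tree ≫ gQ) i k)
    (h1 : zr ≫ map (incl P _) (𝟙 Tree) = u ≫ map gQ (𝟙 Tree))
    (h2 : r ≫ fst _ _ = zr ≫ fst _ _) (hx : U.eq x (U.res (r ≫ toCond (en U F i k)) i.η)) :
    LeastN (u ≫ fst Q Tree ≫ gQ) x i := by
  obtain ⟨g1, -, -⟩ := hk.1 d (r ≫ toCond (en U F i k)) (con_toCond _ r)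
  rw [k11_eq h1 h2] at g1
  exact g1.congr (U.eq_symm hx)

/-- (task K13) `HN` is functional -/
theorem HN.unique (hΨ : Onto ((XN F B').res gQ) ((XN F B).res gQ) Ψ) {d : CP}
    {u : d ⟶ prod Q Tree} {x y y' : U.El d} (h : HN B B' gQ Ψ u x y)
    (h' : HN B B' gQ Ψ u x y') : U.eq y y' := by
  obtain ⟨i, j, k, h, zr, r, a1, a2, a3, a4, a5, a6, a7, a8, a9⟩ := h
  obtain ⟨i', j', k', h', zr', r', b1, b2, b3, b4, b5, b6, b7, b8, b9⟩ := h'
  obtain rfl := (k13_least a2 a6 a7 a9).unique (k13_least b2 b6 b7 b9)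
  obtain rfl := hΨ.unique _ _ _ _ a1 b1
  obtain rfl := a2.unique b2
  obtain rfl := k13_mono (a6.trans b6.symm)
  have hinj := read_injective U (U.res (toCond (en U F i k)) i.η) (Good.injective a2.1) zr
    (h ≫ snd _ _) (h' ≫ snd _ _) r r' a7 b7 a8 b8 (by
      rw [← U.res_comp, ← U.res_comp]
      exact U.eq_trans (U.eq_symm a9) b9)
  have hfst : h ≫ fst _ _ = h' ≫ fst _ _ := by
    apply incl_mono
    rw [Category.assoc, Category.assoc, a3, b3]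
  obtain rfl := prod_ext hfst hinj
  exact U.eq_trans a4 (U.eq_symm b4)
-- END K13

-- BEGIN K14
/-- (task K14) `HT` is onto the T-part -/
theorem HT.onto (hΨ : Onto ((XT F B').res gQ) ((XT F B).res gQ) Ψ) {d : CP}
    (u : d ⟶ prod Q Tree) (y : U.El d) (hy : B.P d (u ≫ fst Q Tree ≫ gQ) y)
    (hT : IsT F (u ≫ fst Q Tree ≫ gQ) y) :
    Dn (fun e (f : e ⟶ d) => ∃ x : U.El e, HT B B' gQ Ψ (f ≫ u) x (U.res f y)) := by
  refine (exists_leastT hT).bind ?_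
  rintro d1 f1 ⟨j, hj⟩
  have hY : ((XT F B).res gQ).P d1 (f1 ≫ u ≫ fst Q Tree) j := by
    have hD : Dn (fun (e : CP) (g : e ⟶ d1) => ∃ x : U.El e,
        LeastT (g ≫ (f1 ≫ u ≫ fst Q Tree) ≫ gQ) x j ∧
          B.P e (g ≫ (f1 ≫ u ≫ fst Q Tree) ≫ gQ) x) := by
      refine Dn.of_all ?_
      intro e g
      refine ⟨U.res g (U.res f1 y), ?_, ?_⟩
      · simpa only [Category.assoc] using hj.res g
      · have := B.mono _ g _ (B.mono _ f1 _ hy)
        simpa only [Category.assoc] using this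
    exact hD
  refine (hΨ.onto _ j hY).bind ?_
  rintro d2 f2 ⟨i, hi⟩
  have hX : Dn (fun (e : CP) (g : e ⟶ d2) => ∃ x : U.El e,
      LeastT (g ≫ (f2 ≫ f1 ≫ u ≫ fst Q Tree) ≫ gQ) x i ∧
        B'.P e (g ≫ (f2 ≫ f1 ≫ u ≫ fst Q Tree) ≫ gQ) x) := hΨ.dom _ _ _ hi
  refine hX.imp ?_
  rintro d3 f3 ⟨x, hx1, hx2⟩
  refine ⟨x, i, j, ?_, ?_, ?_, ?_, ?_⟩
  · have := hΨ.mono _ f3 _ _ hi
    simpa only [Category.assoc] using this
  · simpa only [Category.assoc] using hx1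
  · have := (hj.res f2).res f3
    rw [U.res_comp, U.res_comp]
    simpa only [Category.assoc] using this
  · simpa only [Category.assoc] using hx2
  · have := B.mono _ f3 _ (B.mono _ f2 _ (B.mono _ f1 _ hy))
    rw [U.res_comp, U.res_comp]
    simpa only [Category.assoc] using this
-- END K14

-- BEGIN K15
theorem k15_last {d : CP} {u : d ⟶ prod Q Tree} {y : U.El d} {i j : Idx U F} {k : ℕ}
    (hij : Ψ d (u ≫ fst Q Tree) i j) (hk : Kk B' (u ≫ fst Q Tree ≫ gQ) i k)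
    (hy : AtN (u ≫ fst Q Tree ≫ gQ) y j) (hB : B.P d (u ≫ fst Q Tree ≫ gQ) y) :
    ∃ x : U.El d, HN B B' gQ Ψ u x y := by
  obtain ⟨h, hh, hy⟩ := hy
  have hcon : Con ((u ≫ map gQ (𝟙 Tree)) ≫ fst P Tree) (en U F i k).1.1 := by
    rw [Category.assoc, map_fst]
    exact hk.2.1
  obtain ⟨zr, hzr⟩ := exists_lift_prod (u ≫ map gQ (𝟙 Tree)) hcon
  obtain ⟨r, hr1, hr2⟩ := exists_read zr (h ≫ snd _ _)
  exact ⟨U.res (r ≫ toCond (en U F i k)) i.η, i, j, k, h, zr, r, hij, hk, hh, hy, hB, hzr, hr1, hr2,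
    U.eq_refl _⟩

/-- the goal at a stage -/
def k15_R (B B' : Pd U P) {Q : CP} (gQ : Q ⟶ P) (Ψ : ∀ e : CP, (e ⟶ Q) → Idx U F → Idx U F → Prop)
    (d : CP) (u : d ⟶ prod Q Tree) (y : U.El d) : Prop :=
  ∃ (e : CP) (g : e ⟶ d) (x : U.El e), HN B B' gQ Ψ (g ≫ u) x (U.res g y)

theorem k15_step {d e : CP} {u : d ⟶ prod Q Tree} {y : U.El d} (g : e ⟶ d)
    (h : k15_R B B' gQ Ψ e (g ≫ u) (U.res g y)) : k15_R B B' gQ Ψ d u y := by
  obtain ⟨e', g', x, hx⟩ := h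
  refine ⟨e', g' ≫ g, x, ?_⟩
  rw [Category.assoc, U.res_comp]
  exact hx

theorem k15_two (hΨ : Onto ((XN F B').res gQ) ((XN F B).res gQ) Ψ) {d : CP}
    {u : d ⟶ prod Q Tree} {y : U.El d} {i j : Idx U F} {k : ℕ}
    (hij : Ψ d (u ≫ fst Q Tree) i j) (hk : Kk B' (u ≫ fst Q Tree ≫ gQ) i k)
    (hy : LeastN (u ≫ fst Q Tree ≫ gQ) y j) (hB : B.P d (u ≫ fst Q Tree ≫ gQ) y) :
    k15_R B B' gQ Ψ d u y := by
  obtain ⟨e, g, hg⟩ := hy.1 d (𝟙 d)
  rw [Category.comp_id] at hg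
  have h1 : Ψ e ((g ≫ u) ≫ fst Q Tree) i j := by
    rw [Category.assoc]
    exact hΨ.mono _ g i j hij
  have h2 : Kk B' ((g ≫ u) ≫ fst Q Tree ≫ gQ) i k := by
    rw [Category.assoc]
    exact hk.res g
  have h3 : AtN ((g ≫ u) ≫ fst Q Tree ≫ gQ) (U.res g y) j := by
    rw [Category.assoc]
    exact hg
  have h4 : B.P e ((g ≫ u) ≫ fst Q Tree ≫ gQ) (U.res g y) := by
    rw [Category.assoc]
    exact B.mono _ g y hB
  obtain ⟨x, hx⟩ := k15_last h1 h2 h3 h4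
  exact ⟨e, g, x, hx⟩

theorem k15_three (hΨ : Onto ((XN F B').res gQ) ((XN F B).res gQ) Ψ) {d : CP}
    {u : d ⟶ prod Q Tree} {y : U.El d} {i j : Idx U F}
    (hij : Ψ d (u ≫ fst Q Tree) i j)
    (hy : LeastN (u ≫ fst Q Tree ≫ gQ) y j) (hB : B.P d (u ≫ fst Q Tree ≫ gQ) y) :
    k15_R B B' gQ Ψ d u y := by
  have hX : Dn (fun e (g : e ⟶ d) => ∃ x : U.El e,
      LeastN (g ≫ (u ≫ fst Q Tree) ≫ gQ) x i ∧ IsN F (g ≫ (u ≫ fst Q Tree) ≫ gQ) x ∧
      B'.P e (g ≫ (u ≫ fst Q Tree) ≫ gQ) x) := hΨ.dom _ i j hij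
  obtain ⟨e, g, x, hx1, hx2, hx3⟩ := hX d (𝟙 d)
  rw [Category.comp_id] at hx1 hx2 hx3
  obtain ⟨e1, g1, hat⟩ := hx1.1 e (𝟙 e)
  rw [Category.comp_id] at hat
  obtain ⟨e2, g2, c, hc, hcon⟩ := exists_good hat (hx1.res g1) (hx2.res g1)
    (B'.mono _ g1 x hx3) e1 (𝟙 e1)
  rw [Category.comp_id] at hcon
  obtain ⟨e3, g3, k, hk⟩ := exists_Kk hc hcon e2 (𝟙 e2)
  rw [Category.comp_id] at hk
  have hk' : Kk B' (((g3 ≫ g2 ≫ g1 ≫ g) ≫ u) ≫ fst Q Tree ≫ gQ) i k := by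
    simpa only [Category.assoc] using hk
  refine k15_step (g3 ≫ g2 ≫ g1 ≫ g) (k15_two hΨ (i := i) (j := j) (k := k) ?_ hk' ?_ ?_)
  · have := hΨ.mono _ (g3 ≫ g2 ≫ g1 ≫ g) i j hij
    simpa only [Category.assoc] using this
  · have := hy.res (g3 ≫ g2 ≫ g1 ≫ g)
    simpa only [Category.assoc] using this
  · have := B.mono _ (g3 ≫ g2 ≫ g1 ≫ g) y hB
    simpa only [Category.assoc] using this

theorem k15_four (hΨ : Onto ((XN F B').res gQ) ((XN F B).res gQ) Ψ) {d : CP}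
    {u : d ⟶ prod Q Tree} {y : U.El d} {j : Idx U F}
    (hN : IsN F (u ≫ fst Q Tree ≫ gQ) y)
    (hy : LeastN (u ≫ fst Q Tree ≫ gQ) y j) (hB : B.P d (u ≫ fst Q Tree ≫ gQ) y) :
    k15_R B B' gQ Ψ d u y := by
  have hY : ((XN F B).res gQ).P d (u ≫ fst Q Tree) j := by
    change Dn (fun e (g : e ⟶ d) => ∃ x : U.El e,
      LeastN (g ≫ (u ≫ fst Q Tree) ≫ gQ) x j ∧ IsN F (g ≫ (u ≫ fst Q Tree) ≫ gQ) x ∧
      B.P e (g ≫ (u ≫ fst Q Tree) ≫ gQ) x)
    refine Dn.of_all fun e g => ⟨U.res g y, ?_, ?_, ?_⟩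
    · have := hy.res g
      simpa only [Category.assoc] using this
    · have := hN.res g
      simpa only [Category.assoc] using this
    · have := B.mono _ g y hB
      simpa only [Category.assoc] using this
  obtain ⟨e, g, i, hi⟩ := hΨ.onto _ j hY d (𝟙 d)
  rw [Category.comp_id] at hi
  refine k15_step g (k15_three hΨ (i := i) (j := j) ?_ ?_ ?_)
  · simpa only [Category.assoc] using hi
  · have := hy.res g
    simpa only [Category.assoc] using this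
  · have := B.mono _ g y hB
    simpa only [Category.assoc] using this

/-- (task K15) `HN` is onto the N-part -/
theorem HN.onto (hBF : ∀ (d : CP) (f : d ⟶ P) (x : U.El d), B.P d f x →
      U.mem x (U.res f (U.set F)))
    (hΨ : Onto ((XN F B').res gQ) ((XN F B).res gQ) Ψ) {d : CP}
    (u : d ⟶ prod Q Tree) (y : U.El d) (hy : B.P d (u ≫ fst Q Tree ≫ gQ) y)
    (hN : IsN F (u ≫ fst Q Tree ≫ gQ) y) :
    Dn (fun e (f : e ⟶ d) => ∃ x : U.El e, HN B B' gQ Ψ (f ≫ u) x (U.res f y)) := by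
  intro d₀ f₀
  have h0 : B.P d₀ ((f₀ ≫ u) ≫ fst Q Tree ≫ gQ) (U.res f₀ y) := by
    have := B.mono _ f₀ y hy
    simpa only [Category.assoc] using this
  have h1 : IsN F ((f₀ ≫ u) ≫ fst Q Tree ≫ gQ) (U.res f₀ y) := by
    have := hN.res f₀
    simpa only [Category.assoc] using this
  have key : k15_R B B' gQ Ψ d₀ (f₀ ≫ u) (U.res f₀ y) := by
    obtain ⟨e, g, j, hj⟩ := exists_leastN (hBF _ _ _ h0) d₀ (𝟙 d₀)
    rw [Category.comp_id] at hj
    refine k15_step g (k15_four hΨ (j := j) ?_ ?_ ?_)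
    · have := h1.res g
      simpa only [Category.assoc] using this
    · simpa only [Category.assoc] using hj
    · have := B.mono _ g _ h0
      simpa only [Category.assoc] using this
  obtain ⟨e, g, x, hx⟩ := key
  refine ⟨e, g, x, ?_⟩
  simpa only [Category.assoc, U.res_comp] using hx
-- END K15

end Map

/-- `H` is a functional relation from (a part of) `B'` onto `B` over `Q ⟶ P` -/
structure Surj {Q : CP} (g : Q ⟶ P) (B' B : Pd U P) (H : Rl U Q) : Prop where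
  dom : ∀ (d : CP) (f : d ⟶ Q) (x y : U.El d), H.P d f x y → B'.P d (f ≫ g) x
  cod : ∀ (d : CP) (f : d ⟶ Q) (x y : U.El d), H.P d f x y → B.P d (f ≫ g) y
  unique : ∀ (d : CP) (f : d ⟶ Q) (x y y' : U.El d), H.P d f x y → H.P d f x y' → U.eq y y'
  onto : ∀ (d : CP) (f : d ⟶ Q) (y : U.El d), B.P d (f ≫ g) y →
    Dn (fun e (h : e ⟶ d) => ∃ x : U.El e, H.P e (h ≫ f) x (U.res h y))

-- BEGIN K16
/-- the combined relation, before localisation -/
def k16_P (B B' : Pd U P) {Q : CP} (gQ : Q ⟶ P)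
    (ΨT ΨN : ∀ e : CP, (e ⟶ Q) → Idx U F → Idx U F → Prop) (d : CP) (u : d ⟶ prod Q Tree)
    (x y : U.El d) : Prop :=
  HT B B' gQ ΨT u x y ∨ HN B B' gQ ΨN u x y

theorem k16_res {B B' : Pd U P} {Q : CP} {gQ : Q ⟶ P}
    {ΨT ΨN : ∀ e : CP, (e ⟶ Q) → Idx U F → Idx U F → Prop}
    (hT : Onto ((XT F B').res gQ) ((XT F B).res gQ) ΨT)
    (hN : Onto ((XN F B').res gQ) ((XN F B).res gQ) ΨN) {d e : CP} {u : d ⟶ prod Q Tree}
    {x y : U.El d} (h : k16_P B B' gQ ΨT ΨN d u x y) (f : e ⟶ d) :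
    k16_P B B' gQ ΨT ΨN e (f ≫ u) (U.res f x) (U.res f y) := by
  rcases h with h | h
  · exact Or.inl (HT.res hT h f)
  · exact Or.inr (HN.res hN h f)

/-- (task K16) combination of the two parts -/
theorem exists_surj_of {B B' : Pd U P} {Q : CP} (gQ : Q ⟶ P)
    (hBF : ∀ (d : CP) (f : d ⟶ P) (x : U.El d), B.P d f x → U.mem x (U.res f (U.set F)))
    (ΨT ΨN : ∀ e : CP, (e ⟶ Q) → Idx U F → Idx U F → Prop)
    (hT : Onto ((XT F B').res gQ) ((XT F B).res gQ) ΨT)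
    (hN : Onto ((XN F B').res gQ) ((XN F B).res gQ) ΨN) :
    ∃ H : Rl U (prod Q Tree), Surj (fst Q Tree ≫ gQ) B' B H := by
  refine ⟨⟨fun d u x y => Dn (fun e (f : e ⟶ d) =>
    k16_P B B' gQ ΨT ΨN e (f ≫ u) (U.res f x) (U.res f y)), ?_, ?_, ?_⟩, ?_, ?_, ?_, ?_⟩
  · -- monotone
    intro d e f g x y h
    have h' := Dn.res h g
    simpa only [Category.assoc, U.res_comp] using h'
  · -- local
    intro d f x y h
    refine Dn.join (Dn.imp ?_ h)
    intro e g hg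
    simpa only [Category.assoc, U.res_comp] using hg
  · -- congruent
    intro d f x x' y y' hx hy h
    refine Dn.imp ?_ h
    intro e g hg
    rcases hg with hg | hg
    · exact Or.inl (hg.congr (U.eq_res g hx) (U.eq_res g hy))
    · exact Or.inr (hg.congr (U.eq_res g hx) (U.eq_res g hy))
  · -- domain
    intro d f x y h
    change Dn (fun e (g : e ⟶ d) => k16_P B B' gQ ΨT ΨN e (g ≫ f) (U.res g x) (U.res g y)) at h
    refine B'.loc _ x (Dn.imp ?_ h)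
    intro e g hg
    rcases hg with ⟨i, j, h1, h2, h3, h4, h5⟩ | hg
    · simpa only [Category.assoc] using h4
    · simpa only [Category.assoc] using hg.dom.2
  · -- codomain
    intro d f x y h
    change Dn (fun e (g : e ⟶ d) => k16_P B B' gQ ΨT ΨN e (g ≫ f) (U.res g x) (U.res g y)) at h
    refine B.loc _ y (Dn.imp ?_ h)
    intro e g hg
    rcases hg with ⟨i, j, h1, h2, h3, h4, h5⟩ | ⟨i, j, k, h, zr, r, h1, h2, h3, h4, h5, _⟩
    · simpa only [Category.assoc] using h5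
    · simpa only [Category.assoc] using h5
  · -- unique
    intro d f x y y' h h'
    refine U.eq_loc ?_
    intro d' g
    obtain ⟨e, g1, h1⟩ := h d' g
    obtain ⟨e', g2, h2⟩ := h' e (g1 ≫ g)
    have h1' := k16_res hT hN h1 g2
    simp only [← Category.assoc, ← U.res_comp] at h1' h2
    refine ⟨e', g2 ≫ g1, ?_⟩
    rw [Category.assoc]
    simp only [← Category.assoc]
    rcases h1' with h1' | h1' <;> rcases h2 with h2 | h2
    · exact HT.unique hT h1' h2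
    · exact (HN.not_HT h2 h1').elim
    · exact (HN.not_HT h1' h2).elim
    · exact HN.unique hN h1' h2
  · -- onto
    intro d f y hy
    refine Dn.bind ?_ (isT_or_isN (F := F) (f ≫ fst Q Tree ≫ gQ) y)
    intro e g hg
    have hBy : B.P e ((g ≫ f) ≫ fst Q Tree ≫ gQ) (U.res g y) := by
      have := B.mono (f ≫ fst Q Tree ≫ gQ) g y hy
      simpa only [Category.assoc] using this
    rcases hg with hg | hg
    · have hg' : IsT F ((g ≫ f) ≫ fst Q Tree ≫ gQ) (U.res g y) := by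
        simpa only [Category.assoc] using hg
      refine Dn.imp ?_ (HT.onto hT (g ≫ f) (U.res g y) hBy hg')
      rintro e' g' ⟨x, hx⟩
      refine ⟨x, ?_⟩
      change Dn (fun e'' (g'' : e'' ⟶ e') => k16_P B B' gQ ΨT ΨN e'' (g'' ≫ (g' ≫ g) ≫ f)
        (U.res g'' x) (U.res g'' (U.res (g' ≫ g) y)))
      refine Dn.of_all fun e'' g'' => Or.inl ?_
      have := HT.res hT hx g''
      simpa only [Category.assoc, U.res_comp] using this
    · have hg' : IsN F ((g ≫ f) ≫ fst Q Tree ≫ gQ) (U.res g y) := by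
        simpa only [Category.assoc] using hg
      refine Dn.imp ?_ (HN.onto hBF hN (g ≫ f) (U.res g y) hBy hg')
      rintro e' g' ⟨x, hx⟩
      refine ⟨x, ?_⟩
      change Dn (fun e'' (g'' : e'' ⟶ e') => k16_P B B' gQ ΨT ΨN e'' (g'' ≫ (g' ≫ g) ≫ f)
        (U.res g'' x) (U.res g'' (U.res (g' ≫ g) y)))
      refine Dn.of_all fun e'' g'' => Or.inr ?_
      have := HN.res hN hx g''
      simpa only [Category.assoc, U.res_comp] using this
-- END K16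

-- BEGIN K17
/-- (task K17) the covering theorem -/
theorem cover (U : FU CP) {P : CP} (A : U.El P) (B : ℕ → Pd U P)
    (hA : ∀ n (d : CP) (f : d ⟶ P) (x : U.El d), (B n).P d f x → U.mem x (U.res f A))
    (hB : ∀ n (d : CP) (f : d ⟶ P) (x : U.El d), (B (n + 1)).P d f x → (B n).P d f x) :
    ∃ (Q : CP) (g : Q ⟶ P) (n : ℕ) (H : Rl U Q), Surj g (B (n + 1)) (B n) H := by
  obtain ⟨F, hF⟩ := U.small A
  obtain ⟨d, g, n, Ψ, Ψ', hT, hN⟩ := exists_stable₂ (fun n => XT F (B n)) (fun n => XN F (B n))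
    (by
      intro n d f j h
      have h' : Dn (fun e (g : e ⟶ d) => ∃ x : U.El e, LeastT (g ≫ f) x j ∧
        (B (n + 1)).P e (g ≫ f) x) := h
      change Dn (fun e (g : e ⟶ d) => ∃ x : U.El e, LeastT (g ≫ f) x j ∧
        (B n).P e (g ≫ f) x)
      refine Dn.imp ?_ h'
      rintro e g ⟨x, hx, hb⟩
      exact ⟨x, hx, hB n e (g ≫ f) x hb⟩)
    (by
      intro n d f j h
      have h' : Dn (fun e (g : e ⟶ d) => ∃ x : U.El e, LeastN (g ≫ f) x j ∧
        IsN F (g ≫ f) x ∧ (B (n + 1)).P e (g ≫ f) x) := h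
      change Dn (fun e (g : e ⟶ d) => ∃ x : U.El e, LeastN (g ≫ f) x j ∧
        IsN F (g ≫ f) x ∧ (B n).P e (g ≫ f) x)
      refine Dn.imp ?_ h'
      rintro e g ⟨x, hx, hx', hb⟩
      exact ⟨x, hx, hx', hB n e (g ≫ f) x hb⟩)
  obtain ⟨H, hH⟩ := exists_surj_of (F := F) (B := B n) (B' := B (n + 1)) g
    (fun d f x h => U.eq_right (U.eq_res f hF) (hA n d f x h)) Ψ Ψ' hT hN
  exact ⟨prod d Tree, fst d Tree ≫ g, n, H, hH⟩
-- END K17

end CP

end Pool.Agent.Lib.ZFM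
end
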