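import Pool.Agent.Lib.MP_96875a_lc.ZF
import Pool.Agent.Lib.MP_96875a_lc.Mg.G001

section

/-!
The notions used in `WF` and `AC` as first order formulas, and their forcing translations.
-/

open CategoryTheory

namespace Pool.Agent.Lib.ZFM

namespace Fml

/-- `s = {x, y}`; the variables `k, k+1, ...` must be fresh -/
def upair (x y s k : ℕ) : Fml := all k (iff (mem k s) (or (eq k x) (eq k y)))
def opair (x y p k : ℕ) : Fml :=
  all k (iff (mem k p) (or (upair x x k (k + 1)) (upair x y k (k + 1))))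
def val (f x y k : ℕ) : Fml := ex k (and (opair x y k (k + 1)) (mem k f))
def isFun (f X k : ℕ) : Fml :=
  and (all k (imp (mem k f) (ex (k + 1) (ex (k + 2) (and (mem (k + 1) X)
      (opair (k + 1) (k + 2) k (k + 3)))))))
    (all k (imp (mem k X) (ex (k + 1) (and (val f k (k + 1) (k + 2))
      (all (k + 2) (imp (val f k (k + 2) (k + 3)) (eq (k + 2) (k + 1))))))))
def isMap (f X Y k : ℕ) : Fml :=
  and (isFun f X k) (all k (all (k + 1) (imp (mem k X) (imp (val f k (k + 1) (k + 2))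
    (mem (k + 1) Y)))))
def isInj (f X Y k : ℕ) : Fml :=
  and (isMap f X Y k) (all k (all (k + 1) (all (k + 2) (imp (mem k X) (imp (mem (k + 1) X)
    (imp (val f k (k + 2) (k + 3)) (imp (val f (k + 1) (k + 2) (k + 3)) (eq k (k + 1)))))))))
def isSurj (f X Y k : ℕ) : Fml :=
  and (isMap f X Y k) (all k (imp (mem k Y) (ex (k + 1) (and (mem (k + 1) X)
    (val f (k + 1) k (k + 2))))))
def isSucc (n s k : ℕ) : Fml := all k (iff (mem k s) (or (mem k n) (eq k n)))
def isInd (w k : ℕ) : Fml :=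
  and (all k (imp (all (k + 1) (neg (mem (k + 1) k))) (mem k w)))
    (all k (all (k + 1) (imp (mem k w) (imp (isSucc k (k + 1) (k + 2)) (mem (k + 1) w)))))
def isOmega (w k : ℕ) : Fml :=
  and (isInd w k) (all k (imp (isInd k (k + 1)) (all (k + 1) (imp (mem (k + 1) w)
    (mem (k + 1) k)))))
def leStar (X Y k : ℕ) : Fml := or (all k (neg (mem k X))) (ex k (isSurj k Y X (k + 1)))
def wfHyp : Fml :=
  all 3 (all 4 (all 5 (all 6 (all 7 (imp (mem 3 0) (imp (isSucc 3 4 8) (imp (val 1 3 5 8)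
    (imp (val 1 4 6 8) (imp (val 2 3 7 8) (isInj 7 6 5 8))))))))))
def wfConcl : Fml :=
  ex 3 (ex 4 (ex 5 (ex 6 (and (mem 3 0) (and (isSucc 3 4 7) (and (val 1 3 5 7)
    (and (val 1 4 6 7) (leStar 5 6 7))))))))
def wf : Fml :=
  all 0 (all 1 (all 2 (imp (isOmega 0 3) (imp (isFun 1 0 3) (imp (isFun 2 0 3)
    (imp wfHyp wfConcl))))))
def ac : Fml :=
  all 0 (imp (all 1 (imp (mem 1 0) (ex 2 (mem 2 1))))
    (ex 1 (and (isFun 1 0 2) (all 2 (all 3 (imp (mem 2 0) (imp (val 1 2 3 4) (mem 3 2))))))))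

end Fml

section Sat

variable {M : Type*} (E : M → M → Prop)

-- BEGIN T1
/-- (task T1) the formulas mean what they should -/
theorem sat_upair {x y s k : ℕ} (hx : x < k) (hy : y < k) (hs : s < k) (v : ℕ → M) :
    Sat E (.upair x y s k) v ↔ IsUPair E (v x) (v y) (v s) := by
  simp (disch := omega) only [Fml.upair, IsUPair, sat_all, sat_iff, sat_or, sat_mem, sat_eq,
    Function.update_self, Function.update_of_ne]

theorem sat_opair {x y p k : ℕ} (hx : x < k) (hy : y < k) (hp : p < k) (v : ℕ → M) :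
    Sat E (.opair x y p k) v ↔ IsOPair E (v x) (v y) (v p) := by
  simp (disch := omega) only [Fml.opair, IsOPair, sat_all, sat_iff, sat_or, sat_mem, sat_upair,
    Function.update_self, Function.update_of_ne]

theorem sat_val {f x y k : ℕ} (hf : f < k) (hx : x < k) (hy : y < k) (v : ℕ → M) :
    Sat E (.val f x y k) v ↔ Val E (v f) (v x) (v y) := by
  simp (disch := omega) only [Fml.val, Val, sat_ex, sat_and, sat_mem, sat_opair,
    Function.update_self, Function.update_of_ne]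

theorem sat_isFun {f X k : ℕ} (hf : f < k) (hX : X < k) (v : ℕ → M) :
    Sat E (.isFun f X k) v ↔ IsFun E (v f) (v X) := by
  simp (disch := omega) only [Fml.isFun, IsFun, sat_ex, sat_and, sat_all, sat_imp, sat_eq,
    sat_mem, sat_opair, sat_val, Function.update_self, Function.update_of_ne]

theorem sat_isMap {f X Y k : ℕ} (hf : f < k) (hX : X < k) (hY : Y < k) (v : ℕ → M) :
    Sat E (.isMap f X Y k) v ↔ IsMap E (v f) (v X) (v Y) := by
  simp (disch := omega) only [Fml.isMap, IsMap, sat_isFun, sat_and, sat_all, sat_imp,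
    sat_mem, sat_val, Function.update_self, Function.update_of_ne]

theorem sat_isInj {f X Y k : ℕ} (hf : f < k) (hX : X < k) (hY : Y < k) (v : ℕ → M) :
    Sat E (.isInj f X Y k) v ↔ IsInj E (v f) (v X) (v Y) := by
  simp (disch := omega) only [Fml.isInj, IsInj, sat_isMap, sat_and, sat_all, sat_imp, sat_eq,
    sat_mem, sat_val, Function.update_self, Function.update_of_ne]

theorem sat_isSurj {f X Y k : ℕ} (hf : f < k) (hX : X < k) (hY : Y < k) (v : ℕ → M) :
    Sat E (.isSurj f X Y k) v ↔ IsSurj E (v f) (v X) (v Y) := by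
  simp (disch := omega) only [Fml.isSurj, IsSurj, sat_isMap, sat_and, sat_all, sat_imp, sat_ex,
    sat_mem, sat_val, Function.update_self, Function.update_of_ne]

theorem sat_isSucc {n s k : ℕ} (hn : n < k) (hs : s < k) (v : ℕ → M) :
    Sat E (.isSucc n s k) v ↔ IsSucc E (v n) (v s) := by
  simp (disch := omega) only [Fml.isSucc, IsSucc, sat_all, sat_iff, sat_or, sat_mem, sat_eq,
    Function.update_self, Function.update_of_ne]

theorem sat_isInd {w k : ℕ} (hw : w < k) (v : ℕ → M) :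
    Sat E (.isInd w k) v ↔ IsInductive E (v w) := by
  simp (disch := omega) only [Fml.isInd, IsInductive, sat_all, sat_imp, sat_and, sat_neg, sat_mem,
    sat_isSucc, Function.update_self, Function.update_of_ne]

theorem sat_isOmega {w k : ℕ} (hw : w < k) (v : ℕ → M) :
    Sat E (.isOmega w k) v ↔ IsOmega E (v w) := by
  simp (disch := omega) only [Fml.isOmega, IsOmega, sat_all, sat_imp, sat_and, sat_mem,
    sat_isInd, Function.update_self, Function.update_of_ne]

theorem sat_leStar {X Y k : ℕ} (hX : X < k) (hY : Y < k) (v : ℕ → M) :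
    Sat E (.leStar X Y k) v ↔ LeStar E (v X) (v Y) := by
  simp (disch := omega) only [Fml.leStar, LeStar, sat_or, sat_all, sat_neg, sat_ex, sat_mem,
    sat_isSurj, Function.update_self, Function.update_of_ne]
-- END T1

-- BEGIN T2
theorem t2_hyp (v : ℕ → M) : Sat E .wfHyp v ↔ ∀ n m a b f, E n (v 0) → IsSucc E n m →
    Val E (v 1) n a → Val E (v 1) m b → Val E (v 2) n f → IsInj E f b a := by
  simp (disch := omega) only [Fml.wfHyp, sat_all, sat_imp, sat_mem, sat_isSucc, sat_val,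
    sat_isInj, Function.update_self, Function.update_of_ne]

theorem t2_concl (v : ℕ → M) : Sat E .wfConcl v ↔ ∃ n m a b, E n (v 0) ∧ IsSucc E n m ∧
    Val E (v 1) n a ∧ Val E (v 1) m b ∧ LeStar E a b := by
  simp (disch := omega) only [Fml.wfConcl, sat_ex, sat_and, sat_mem, sat_isSucc, sat_val,
    sat_leStar, Function.update_self, Function.update_of_ne]

/-- (task T2) -/
theorem sat_wf (v : ℕ → M) : Sat E .wf v ↔ WFis4 E := by
  simp (disch := omega) only [Fml.wf, WFis4, sat_all, sat_imp, sat_isOmega, sat_isFun,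
    t2_hyp, t2_concl, Function.update_self, Function.update_of_ne]

theorem sat_ac (v : ℕ → M) : Sat E .ac v ↔ AC E := by
  simp (disch := omega) only [Fml.ac, AC, sat_all, sat_imp, sat_ex, sat_and, sat_mem, sat_isFun,
    sat_val, Function.update_self, Function.update_of_ne]
-- END T2

end Sat

namespace FU

variable {C : Type 1} [Category.{0} C] (U : FU C)

/-- forced: `f` is a function with domain `X` -/
def IsFunF {c : C} (f X : U.El c) : Prop :=
  (∀ (d : C) (g : d ⟶ c) (p : U.El d), U.mem p (U.res g f) → Dn (fun e (h : e ⟶ d) =>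
    ∃ x y : U.El e, U.mem x (U.res (h ≫ g) X) ∧ U.OPair x y (U.res h p))) ∧
  (∀ (d : C) (g : d ⟶ c) (x : U.El d), U.mem x (U.res g X) → Dn (fun e (h : e ⟶ d) =>
    ∃ y : U.El e, U.Val (U.res (h ≫ g) f) (U.res h x) y)) ∧
  (∀ (d : C) (g : d ⟶ c) (x y y' : U.El d), U.mem x (U.res g X) → U.Val (U.res g f) x y →
    U.Val (U.res g f) x y' → U.eq y y')

def IsMapF {c : C} (f X Y : U.El c) : Prop :=
  U.IsFunF f X ∧ ∀ (d : C) (g : d ⟶ c) (x y : U.El d), U.mem x (U.res g X) →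
    U.Val (U.res g f) x y → U.mem y (U.res g Y)

def IsInjF {c : C} (f X Y : U.El c) : Prop :=
  U.IsMapF f X Y ∧ ∀ (d : C) (g : d ⟶ c) (x x' y : U.El d), U.mem x (U.res g X) →
    U.mem x' (U.res g X) → U.Val (U.res g f) x y → U.Val (U.res g f) x' y → U.eq x x'

def IsSurjF {c : C} (f X Y : U.El c) : Prop :=
  U.IsMapF f X Y ∧ ∀ (d : C) (g : d ⟶ c) (y : U.El d), U.mem y (U.res g Y) →
    Dn (fun e (h : e ⟶ d) => ∃ x : U.El e, U.mem x (U.res (h ≫ g) X) ∧
      U.Val (U.res (h ≫ g) f) x (U.res h y))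

def IsSuccF {c : C} (n s : U.El c) : Prop :=
  ∀ (d : C) (g : d ⟶ c) (z : U.El d), U.mem z (U.res g s) ↔
    Dn (fun e (h : e ⟶ d) => U.mem (U.res h z) (U.res (h ≫ g) n) ∨
      U.eq (U.res h z) (U.res (h ≫ g) n))

def IsIndF {c : C} (w : U.El c) : Prop :=
  (∀ (d : C) (g : d ⟶ c) (e : U.El d), (∀ (d' : C) (g' : d' ⟶ d) (z : U.El d'),
    ¬ U.mem z (U.res g' e)) → U.mem e (U.res g w)) ∧
  (∀ (d : C) (g : d ⟶ c) (n s : U.El d), U.mem n (U.res g w) → U.IsSuccF n s →
    U.mem s (U.res g w))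

def LeStarF {c : C} (X Y : U.El c) : Prop :=
  Dn (fun d (g : d ⟶ c) => (∀ (e : C) (h : e ⟶ d) (z : U.El e), ¬ U.mem z (U.res (h ≫ g) X)) ∨
    ∃ s : U.El d, U.IsSurjF s (U.res g Y) (U.res g X))

-- BEGIN T3
/-- (task T3) the forcing translations -/
theorem forces_upair {x y s k : ℕ} (hx : x < k) (hy : y < k) (hs : s < k) {c : C}
    (v : ℕ → U.El c) : U.Forces (.upair x y s k) c v ↔ U.UPair (v x) (v y) (v s) := by
  have hxk : x ≠ k := hx.ne
  have hyk : y ≠ k := hy.ne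
  have hsk : s ≠ k := hs.ne
  simp only [Fml.upair, forces_all, forces_iff, forces_or, forces_mem, forces_eq, rs_rs,
    rs_update, Function.update_self, Function.update_of_ne hxk, Function.update_of_ne hyk,
    Function.update_of_ne hsk, rs_apply, UPair]
  constructor
  · intro H d f z
    have := H d f z d (𝟙 d)
    simpa [U.res_id, ← U.res_comp] using this
  · intro H d f z e g
    have := H e (g ≫ f) (U.res g z)
    simpa [← U.res_comp] using this

theorem forces_opair {x y p k : ℕ} (hx : x < k) (hy : y < k) (hp : p < k) {c : C}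
    (v : ℕ → U.El c) : U.Forces (.opair x y p k) c v ↔ U.OPair (v x) (v y) (v p) := by
  have hxk : x ≠ k := hx.ne
  have hyk : y ≠ k := hy.ne
  have hpk : p ≠ k := hp.ne
  simp only [Fml.opair, forces_all, forces_iff, forces_or, forces_mem, forces_eq, rs_rs,
    U.forces_upair (Nat.lt_succ_of_lt hx) (Nat.lt_succ_of_lt hx) (Nat.lt_succ_self k),
    U.forces_upair (Nat.lt_succ_of_lt hx) (Nat.lt_succ_of_lt hy) (Nat.lt_succ_self k),
    rs_update, Function.update_self, Function.update_of_ne hxk, Function.update_of_ne hyk,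
    Function.update_of_ne hpk, rs_apply, OPair]
  constructor
  · intro H d f z
    have := H d f z d (𝟙 d)
    simpa [U.res_id, ← U.res_comp] using this
  · intro H d f z e g
    have := H e (g ≫ f) (U.res g z)
    simpa [← U.res_comp] using this

theorem forces_val {f x y k : ℕ} (hf : f < k) (hx : x < k) (hy : y < k) {c : C}
    (v : ℕ → U.El c) : U.Forces (.val f x y k) c v ↔ U.Val (v f) (v x) (v y) := by
  have hxk : x ≠ k := hx.ne
  have hyk : y ≠ k := hy.ne
  have hfk : f ≠ k := hf.ne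
  simp only [Fml.val, forces_ex, forces_and, forces_mem,
    U.forces_opair (Nat.lt_succ_of_lt hx) (Nat.lt_succ_of_lt hy) (Nat.lt_succ_self k),
    Function.update_self, Function.update_of_ne hxk, Function.update_of_ne hyk,
    Function.update_of_ne hfk, rs_apply]
  constructor
  · intro H
    refine Val.loc U (H.imp ?_)
    rintro d g ⟨p, h1, h2⟩
    exact U.eq_left (U.eq_symm (U.op_eq h1)) h2
  · intro H
    refine Dn.of_all fun d g => ⟨U.op (U.res g (v x)) (U.res g (v y)), U.op_spec _ _, ?_⟩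
    exact Val.res U H g
-- END T3

-- BEGIN T4
/-- (task T4) -/
theorem forces_isFun {f X k : ℕ} (hf : f < k) (hX : X < k) {c : C}
    (v : ℕ → U.El c) : U.Forces (.isFun f X k) c v ↔ U.IsFunF (v f) (v X) := by
  have hfk : f ≠ k := by omega
  have hfk1 : f ≠ k + 1 := by omega
  have hfk2 : f ≠ k + 2 := by omega
  have hXk : X ≠ k := by omega
  have hXk1 : X ≠ k + 1 := by omega
  have hXk2 : X ≠ k + 2 := by omega
  have h01 : k ≠ k + 1 := by omega
  have h02 : k ≠ k + 2 := by omega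
  have h12 : k + 1 ≠ k + 2 := by omega
  unfold Fml.isFun IsFunF
  simp only [forces_and, forces_all, forces_imp, forces_ex, forces_mem, forces_eq, rs_update,
    rs_rs, rs_apply, Function.update_self, ne_eq, hfk, hfk1, hfk2, hXk, hXk1, hXk2, h01, h02, h12,
    not_false_eq_true, Function.update_of_ne,
    U.forces_opair (show k + 1 < k + 3 by omega) (show k + 2 < k + 3 by omega) (show k < k + 3 by omega),
    U.forces_val (show f < k + 2 by omega) (show k < k + 2 by omega) (show k + 1 < k + 2 by omega),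
    U.forces_val (show f < k + 3 by omega) (show k < k + 3 by omega) (show k + 2 < k + 3 by omega)]
  constructor
  · rintro ⟨H1, H2⟩
    refine ⟨?_, ?_, ?_⟩
    · intro d g p hp
      have h := H1 d g p d (𝟙 d) (by rw [U.res_id, Category.id_comp]; exact hp)
      refine Dn.join (h.imp ?_)
      rintro e m ⟨x, hx⟩
      refine hx.imp ?_
      rintro e' m' ⟨y, hy1, hy2⟩
      refine ⟨U.res m' x, y, ?_, ?_⟩
      · simpa using hy1
      · rw [U.res_id] at hy2
        rw [U.res_comp]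
        exact hy2
    · intro d g x hx
      have h := H2 d g x d (𝟙 d) (by rw [U.res_id, Category.id_comp]; exact hx)
      refine h.imp ?_
      rintro e m ⟨y, hy, -⟩
      rw [U.res_id, Category.id_comp] at hy
      exact ⟨y, hy⟩
    · intro d g x y y' hx hy hy'
      have h := H2 d g x d (𝟙 d) (by rw [U.res_id, Category.id_comp]; exact hx)
      refine U.eq_loc (h.imp ?_)
      rintro e m ⟨y0, -, hu⟩
      have key : ∀ z : U.El d, U.Val (U.res g (v f)) x z → U.eq (U.res m z) y0 := by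
        intro z hz
        have h1 := hu e (𝟙 e) (U.res m z) e (𝟙 e) (by
          have := Val.res U hz m
          simpa [U.res_id, U.res_comp] using this)
        simpa [U.res_id] using h1
      exact U.eq_trans (key y hy) (U.eq_symm (key y' hy'))
  · rintro ⟨K1, K2, K3⟩
    refine ⟨?_, ?_⟩
    · intro d g x d' g' hx
      refine (K1 d' (g' ≫ g) (U.res g' x) hx).imp ?_
      rintro e m ⟨y, z, hy, hz⟩
      refine ⟨y, Dn.of_all fun e' m' => ⟨U.res m' z, ?_, OPair.res U hz m'⟩⟩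
      have := U.mem_res m' hy
      rwa [← U.res_comp] at this
    · intro d g x d' g' hx
      refine (K2 d' (g' ≫ g) (U.res g' x) hx).imp ?_
      rintro e m ⟨y, hy⟩
      refine ⟨y, hy, ?_⟩
      intro e1 m1 z e2 m2 hz
      refine K3 e2 (m2 ≫ m1 ≫ m ≫ g' ≫ g) _ _ _ ?_ hz ?_
      · have := U.mem_res m2 (U.mem_res m1 (U.mem_res m hx))
        simpa only [← U.res_comp, Category.assoc] using this
      · have := Val.res U (Val.res U hy m1) m2
        simpa only [← U.res_comp, Category.assoc] using this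
-- END T4

-- BEGIN T5
theorem t5_map {f X Y k : ℕ} (hf : f < k) (hX : X < k) (hY : Y < k) {c : C}
    (v : ℕ → U.El c) :
    U.Forces (.all k (.all (k + 1) (.imp (.mem k X) (.imp (.val f k (k + 1) (k + 2))
      (.mem (k + 1) Y))))) c v ↔
    ∀ (d : C) (g : d ⟶ c) (x y : U.El d), U.mem x (U.res g (v X)) →
      U.Val (U.res g (v f)) x y → U.mem y (U.res g (v Y)) := by
  have h1 : k ≠ k + 1 := by omega
  have h2 : X ≠ k := by omega
  have h3 : X ≠ k + 1 := by omega
  have h4 : f ≠ k := by omega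
  have h5 : f ≠ k + 1 := by omega
  have h6 : Y ≠ k := by omega
  have h7 : Y ≠ k + 1 := by omega
  simp only [forces_all, forces_imp, forces_mem, rs_update, rs_rs,
    U.forces_val (show f < k + 2 by omega) (show k < k + 2 by omega) (show k + 1 < k + 2 by omega),
    Function.update_self, Function.update_of_ne h1, Function.update_of_ne h2,
    Function.update_of_ne h3, Function.update_of_ne h4, Function.update_of_ne h5,
    Function.update_of_ne h6, Function.update_of_ne h7, rs_apply]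
  constructor
  · intro H d g x y hx hv
    have := H d g x d (𝟙 d) y d (𝟙 d)
    simp only [Category.id_comp, U.res_id] at this
    have := this hx d (𝟙 d)
    simp only [Category.id_comp, U.res_id] at this
    exact this hv
  · intro H d g x e h y e1 h1' hx e2 h2' hv
    have := H e2 (h2' ≫ h1' ≫ h ≫ g) (U.res (h2' ≫ h1' ≫ h) x) (U.res (h2' ≫ h1') y)
      (by
        have := U.mem_res h2' hx
        simpa only [← U.res_comp, Category.assoc] using this)
      (by simpa only [← U.res_comp, Category.assoc] using hv)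
    simpa only [← U.res_comp, Category.assoc] using this

/-- (task T5) -/
theorem forces_isMap {f X Y k : ℕ} (hf : f < k) (hX : X < k) (hY : Y < k) {c : C}
    (v : ℕ → U.El c) : U.Forces (.isMap f X Y k) c v ↔ U.IsMapF (v f) (v X) (v Y) := by
  unfold Fml.isMap IsMapF
  rw [forces_and, U.forces_isFun hf hX, t5_map U hf hX hY]

theorem t5_inj {f X k : ℕ} (hf : f < k) (hX : X < k) {c : C}
    (v : ℕ → U.El c) :
    U.Forces (.all k (.all (k + 1) (.all (k + 2) (.imp (.mem k X) (.imp (.mem (k + 1) X)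
      (.imp (.val f k (k + 2) (k + 3)) (.imp (.val f (k + 1) (k + 2) (k + 3))
        (.eq k (k + 1))))))))) c v ↔
    ∀ (d : C) (g : d ⟶ c) (x x' y : U.El d), U.mem x (U.res g (v X)) →
      U.mem x' (U.res g (v X)) → U.Val (U.res g (v f)) x y → U.Val (U.res g (v f)) x' y →
        U.eq x x' := by
  have h1 : k ≠ k + 1 := by omega
  have h1a : k ≠ k + 2 := by omega
  have h1b : k + 1 ≠ k + 2 := by omega
  have h2 : X ≠ k := by omega
  have h3 : X ≠ k + 1 := by omega
  have h3a : X ≠ k + 2 := by omega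
  have h4 : f ≠ k := by omega
  have h5 : f ≠ k + 1 := by omega
  have h5a : f ≠ k + 2 := by omega
  simp only [forces_all, forces_imp, forces_mem, forces_eq, rs_update, rs_rs,
    U.forces_val (show f < k + 3 by omega) (show k < k + 3 by omega) (show k + 2 < k + 3 by omega),
    U.forces_val (show f < k + 3 by omega) (show k + 1 < k + 3 by omega)
      (show k + 2 < k + 3 by omega),
    Function.update_self, Function.update_of_ne h1, Function.update_of_ne h1a,
    Function.update_of_ne h1b, Function.update_of_ne h2,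
    Function.update_of_ne h3, Function.update_of_ne h3a, Function.update_of_ne h4,
    Function.update_of_ne h5, Function.update_of_ne h5a, rs_apply]
  constructor
  · intro H d g x x' y hx hx' hv hv'
    have := H d g x d (𝟙 d) x' d (𝟙 d) y d (𝟙 d)
    simp only [Category.id_comp, U.res_id] at this
    have := this hx d (𝟙 d)
    simp only [Category.id_comp, U.res_id] at this
    have := this hx' d (𝟙 d)
    simp only [Category.id_comp, U.res_id] at this
    have := this hv d (𝟙 d)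
    simp only [Category.id_comp, U.res_id] at this
    exact this hv'
  · intro H d g x e h x' e1 m y e2 n hx e3 p hx' e4 q hv e5 r hv'
    have := H e5 (r ≫ q ≫ p ≫ n ≫ m ≫ h ≫ g) (U.res (r ≫ q ≫ p ≫ n ≫ m ≫ h) x)
      (U.res (r ≫ q ≫ p ≫ n ≫ m) x') (U.res (r ≫ q ≫ p ≫ n) y)
      (by
        have := U.mem_res r (U.mem_res q (U.mem_res p hx))
        simpa only [← U.res_comp, Category.assoc] using this)
      (by
        have := U.mem_res r (U.mem_res q hx')
        simpa only [← U.res_comp, Category.assoc] using this)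
      (by
        have := Val.res U hv r
        simpa only [← U.res_comp, Category.assoc] using this)
      (by simpa only [← U.res_comp, Category.assoc] using hv')
    simpa only [← U.res_comp, Category.assoc] using this

theorem forces_isInj {f X Y k : ℕ} (hf : f < k) (hX : X < k) (hY : Y < k) {c : C}
    (v : ℕ → U.El c) : U.Forces (.isInj f X Y k) c v ↔ U.IsInjF (v f) (v X) (v Y) := by
  unfold Fml.isInj IsInjF
  rw [forces_and, U.forces_isMap hf hX hY, t5_inj U hf hX]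

theorem t5_surj {f X Y k : ℕ} (hf : f < k) (hX : X < k) (hY : Y < k) {c : C}
    (v : ℕ → U.El c) :
    U.Forces (.all k (.imp (.mem k Y) (.ex (k + 1) (.and (.mem (k + 1) X)
      (.val f (k + 1) k (k + 2)))))) c v ↔
    ∀ (d : C) (g : d ⟶ c) (y : U.El d), U.mem y (U.res g (v Y)) →
      Dn (fun e (h : e ⟶ d) => ∃ x : U.El e, U.mem x (U.res (h ≫ g) (v X)) ∧
        U.Val (U.res (h ≫ g) (v f)) x (U.res h y)) := by
  have h1 : k ≠ k + 1 := by omega
  have h2 : X ≠ k := by omega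
  have h3 : X ≠ k + 1 := by omega
  have h4 : f ≠ k := by omega
  have h5 : f ≠ k + 1 := by omega
  have h6 : Y ≠ k := by omega
  simp only [forces_all, forces_imp, forces_mem, forces_ex, forces_and, rs_update, rs_rs,
    U.forces_val (show f < k + 2 by omega) (show k + 1 < k + 2 by omega) (show k < k + 2 by omega),
    Function.update_self, Function.update_of_ne h1, Function.update_of_ne h2,
    Function.update_of_ne h3, Function.update_of_ne h4, Function.update_of_ne h5,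
    Function.update_of_ne h6, rs_apply]
  constructor
  · intro H d g y hy
    have := H d g y d (𝟙 d)
    simp only [Category.id_comp, U.res_id] at this
    have := this hy
    simpa only [Category.comp_id] using this
  · intro H d g y e h hy
    have := H e (h ≫ g) (U.res h y) hy
    simpa only [← U.res_comp, Category.assoc] using this

theorem forces_isSurj {f X Y k : ℕ} (hf : f < k) (hX : X < k) (hY : Y < k) {c : C}
    (v : ℕ → U.El c) : U.Forces (.isSurj f X Y k) c v ↔ U.IsSurjF (v f) (v X) (v Y) := by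
  unfold Fml.isSurj IsSurjF
  rw [forces_and, U.forces_isMap hf hX hY, t5_surj U hf hX hY]
-- END T5

-- BEGIN T6
/-- (task T6) -/
theorem forces_isSucc {n s k : ℕ} (hn : n < k) (hs : s < k) {c : C}
    (v : ℕ → U.El c) : U.Forces (.isSucc n s k) c v ↔ U.IsSuccF (v n) (v s) := by
  simp (disch := omega) only [Fml.isSucc, IsSuccF, forces_all, forces_iff, forces_mem, forces_or,
    forces_eq, rs_update, rs_rs, rs_apply, Function.update_self, Function.update_of_ne]
  constructor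
  · intro H d g z
    have h := H d g z d (𝟙 d)
    simpa only [U.res_id, Category.id_comp, Category.comp_id] using h
  · intro H d f x e g
    have h := H e (g ≫ f) (U.res g x)
    simpa only [← U.res_comp, Category.assoc] using h

theorem forces_isInd {w k : ℕ} (hw : w < k) {c : C}
    (v : ℕ → U.El c) : U.Forces (.isInd w k) c v ↔ U.IsIndF (v w) := by
  simp (disch := omega) only [Fml.isInd, IsIndF, forces_all, forces_and, forces_imp, forces_mem,
    forces_neg, forces_isSucc, rs_update, rs_rs, rs_apply, Function.update_self,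
    Function.update_of_ne]
  refine and_congr ⟨?_, ?_⟩ ⟨?_, ?_⟩
  · intro H d g x hx
    have h := H d g x d (𝟙 d) (by
      intro e h z e' h' hm
      refine hx e' (h' ≫ h) (U.res h' z) ?_
      simpa only [U.res_id, ← U.res_comp, Category.comp_id] using hm)
    simpa only [U.res_id, Category.id_comp] using h
  · intro H d f x e g hx
    refine H e (g ≫ f) (U.res g x) ?_
    intro e' g' z hm
    refine hx e' g' z e' (𝟙 e') ?_
    simpa only [U.res_id, Category.id_comp, ← U.res_comp] using hm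
  · intro H d g x y hx hs
    have h := H d g x d (𝟙 d) y d (𝟙 d) (by
      simpa only [U.res_id, Category.id_comp] using hx) d (𝟙 d) (by
      simpa only [U.res_id, Category.id_comp] using hs)
    simpa only [U.res_id, Category.id_comp] using h
  · intro H d f x e g y e' g' hx e'' g'' hs
    refine H e'' _ _ _ ?_ hs
    have h := U.mem_res g'' hx
    simpa only [← U.res_comp, Category.assoc] using h

theorem t6_surj_res {c d : C} (f : d ⟶ c) {s X Y : U.El c} (H : U.IsSurjF s X Y) :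
    U.IsSurjF (U.res f s) (U.res f X) (U.res f Y) := by
  set v : ℕ → U.El c := fun n => if n = 0 then s else if n = 1 then X else Y with hv
  have h1 : U.Forces (.isSurj 0 1 2 3) c v := by
    rw [U.forces_isSurj (by omega) (by omega) (by omega)]
    simpa [hv] using H
  have h2 := U.forces_isSurj (f := 0) (X := 1) (Y := 2) (k := 3) (by omega) (by omega) (by omega)
    (U.rs f v)
  have h3 := h2.1 (Forces.mono U h1 f)
  simpa [hv] using h3

theorem forces_leStar {X Y k : ℕ} (hX : X < k) (hY : Y < k) {c : C}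
    (v : ℕ → U.El c) : U.Forces (.leStar X Y k) c v ↔ U.LeStarF (v X) (v Y) := by
  simp (disch := omega) only [Fml.leStar, LeStarF, forces_all, forces_or, forces_ex, forces_mem,
    forces_neg, forces_isSurj, rs_update, rs_rs, rs_apply, Function.update_self,
    Function.update_of_ne]
  constructor
  · intro H
    refine Dn.bind ?_ H
    rintro d f (h | h)
    · refine Dn.of_all fun e g => Or.inl ?_
      intro e' h' z hm
      refine h e' (h' ≫ g) z e' (𝟙 e') ?_
      simpa only [U.res_id, Category.id_comp, Category.assoc] using hm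
    · exact h.imp fun e g hs => Or.inr hs
  · intro H
    refine H.imp ?_
    rintro d f (h | ⟨s, hs⟩)
    · left
      intro e g z e' g' hm
      refine h e' (g' ≫ g) (U.res g' z) ?_
      simpa only [Category.assoc] using hm
    · right
      refine Dn.of_all fun e g => ⟨U.res g s, ?_⟩
      have h := U.t6_surj_res g hs
      simpa only [← U.res_comp] using h
-- END T6

/-- the hypothesis of the chain principle (only that `w` is inductive is kept from `w = ω`) -/
structure Chain {c : C} (w A F : U.El c) : Prop where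
  ind : U.IsIndF w
  funA : U.IsFunF A w
  funF : U.IsFunF F w
  inj : ∀ (d : C) (g : d ⟶ c) (n m a b f : U.El d), U.mem n (U.res g w) → U.IsSuccF n m →
    U.Val (U.res g A) n a → U.Val (U.res g A) m b → U.Val (U.res g F) n f → U.IsInjF f b a

/-- the conclusion of the chain principle -/
def Concl {c : C} (w A : U.El c) : Prop :=
  Dn (fun d (g : d ⟶ c) => ∃ n m a b : U.El d, U.mem n (U.res g w) ∧ U.IsSuccF n m ∧
    U.Val (U.res g A) n a ∧ U.Val (U.res g A) m b ∧ U.LeStarF a b)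

-- BEGIN T7
theorem t7_hyp {c : C} (v : ℕ → U.El c) (h : U.Forces Fml.wfHyp c v) :
    ∀ (d : C) (g : d ⟶ c) (n m a b f : U.El d), U.mem n (U.res g (v 0)) → U.IsSuccF n m →
    U.Val (U.res g (v 1)) n a → U.Val (U.res g (v 1)) m b → U.Val (U.res g (v 2)) n f →
      U.IsInjF f b a := by
  unfold Fml.wfHyp at h
  simp only [forces_all, forces_imp, forces_mem, rs_update, rs_rs, rs_apply,
    U.forces_isSucc (show 3 < 8 by omega) (show 4 < 8 by omega),
    U.forces_val (show 1 < 8 by omega) (show 3 < 8 by omega) (show 5 < 8 by omega),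
    U.forces_val (show 1 < 8 by omega) (show 4 < 8 by omega) (show 6 < 8 by omega),
    U.forces_val (show 2 < 8 by omega) (show 3 < 8 by omega) (show 7 < 8 by omega),
    U.forces_isInj (show 7 < 8 by omega) (show 6 < 8 by omega) (show 5 < 8 by omega),
    Function.update_apply] at h
  simp at h
  intro d g n m a b f h1 h2 h3 h4 h5
  have h' := h d g n d (𝟙 d) m d (𝟙 d) a d (𝟙 d) b d (𝟙 d) f d (𝟙 d)
  simp only [U.res_id, Category.id_comp] at h'
  have h'' := h' h1 d (𝟙 d)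
  simp only [U.res_id, Category.id_comp] at h''
  have h3' := h'' h2 d (𝟙 d)
  simp only [U.res_id, Category.id_comp] at h3'
  have h4' := h3' h3 d (𝟙 d)
  simp only [U.res_id, Category.id_comp] at h4'
  have h5' := h4' h4 d (𝟙 d)
  simp only [U.res_id, Category.id_comp] at h5'
  exact h5' h5

theorem t7_succ_res {c d : C} (g : d ⟶ c) {n s : U.El c} (h : U.IsSuccF n s) :
    U.IsSuccF (U.res g n) (U.res g s) := by
  intro e m z
  have := h e (m ≫ g) z
  simpa only [U.res_comp, Category.assoc] using this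

theorem t7_surj_res {c d : C} (g : d ⟶ c) {f X Y : U.El c} (h : U.IsSurjF f X Y) :
    U.IsSurjF (U.res g f) (U.res g X) (U.res g Y) := by
  obtain ⟨⟨⟨h1, h2, h3⟩, h4⟩, h5⟩ := h
  refine ⟨⟨⟨?_, ?_, ?_⟩, ?_⟩, ?_⟩
  · intro e m p
    have := h1 e (m ≫ g) p
    simpa only [U.res_comp, Category.assoc] using this
  · intro e m p
    have := h2 e (m ≫ g) p
    simpa only [U.res_comp, Category.assoc] using this
  · intro e m p
    have := h3 e (m ≫ g) p
    simpa only [U.res_comp, Category.assoc] using this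
  · intro e m p
    have := h4 e (m ≫ g) p
    simpa only [U.res_comp, Category.assoc] using this
  · intro e m p
    have := h5 e (m ≫ g) p
    simpa only [U.res_comp, Category.assoc] using this

theorem t7_leStar_res {c d : C} (g : d ⟶ c) {X Y : U.El c} (h : U.LeStarF X Y) :
    U.LeStarF (U.res g X) (U.res g Y) := by
  have h' := Dn.res h g
  refine h'.imp ?_
  rintro e m (h1 | ⟨s, hs⟩)
  · left
    intro e' m' z
    have := h1 e' m' z
    simpa only [U.res_comp, Category.assoc] using this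
  · right
    refine ⟨s, ?_⟩
    simpa only [U.res_comp, Category.assoc] using hs

theorem t7_concl {c : C} (v : ℕ → U.El c) (h : U.Concl (v 0) (v 1)) : U.Forces Fml.wfConcl c v := by
  unfold Fml.wfConcl
  simp only [forces_ex, forces_and, forces_mem, rs_update, rs_rs, rs_apply,
    U.forces_isSucc (show 3 < 7 by omega) (show 4 < 7 by omega),
    U.forces_val (show 1 < 7 by omega) (show 3 < 7 by omega) (show 5 < 7 by omega),
    U.forces_val (show 1 < 7 by omega) (show 4 < 7 by omega) (show 6 < 7 by omega),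
    U.forces_leStar (show 5 < 7 by omega) (show 6 < 7 by omega),
    Function.update_apply]
  simp
  refine h.imp ?_
  rintro d g ⟨n, m, a, b, h1, h2, h3, h4, h5⟩
  refine ⟨n, Dn.of_all fun d1 g1 => ⟨U.res g1 m, Dn.of_all fun d2 g2 =>
    ⟨U.res g2 (U.res g1 a), Dn.of_all fun d3 g3 => ⟨?_, ?_, ?_,
      U.res g3 (U.res g2 (U.res g1 b)), ?_, ?_⟩⟩⟩⟩
  · have := U.mem_res g3 (U.mem_res g2 (U.mem_res g1 h1))
    simpa only [← U.res_comp, Category.assoc] using this
  · exact U.t7_succ_res g3 (U.t7_succ_res g2 (U.t7_succ_res g1 h2))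
  · have := Val.res U (Val.res U (Val.res U h3 g1) g2) g3
    simpa only [← U.res_comp, Category.assoc] using this
  · have := Val.res U (Val.res U (Val.res U h4 g1) g2) g3
    simpa only [← U.res_comp, Category.assoc] using this
  · exact U.t7_leStar_res g3 (U.t7_leStar_res g2 (U.t7_leStar_res g1 h5))

theorem t7_fun_res {c d : C} (g : d ⟶ c) {f X : U.El c} (h : U.IsFunF f X) :
    U.IsFunF (U.res g f) (U.res g X) := by
  obtain ⟨h1, h2, h3⟩ := h
  refine ⟨?_, ?_, ?_⟩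
  · intro e m p
    have := h1 e (m ≫ g) p
    simpa only [U.res_comp, Category.assoc] using this
  · intro e m p
    have := h2 e (m ≫ g) p
    simpa only [U.res_comp, Category.assoc] using this
  · intro e m p
    have := h3 e (m ≫ g) p
    simpa only [U.res_comp, Category.assoc] using this

theorem t7_ind_res {c d : C} (g : d ⟶ c) {w : U.El c} (h : U.IsIndF w) :
    U.IsIndF (U.res g w) := by
  obtain ⟨h1, h2⟩ := h
  refine ⟨?_, ?_⟩
  · intro e m p
    have := h1 e (m ≫ g) p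
    simpa only [U.res_comp, Category.assoc] using this
  · intro e m p
    have := h2 e (m ≫ g) p
    simpa only [U.res_comp, Category.assoc] using this

/-- (task T7) -/
theorem forces_wf (H : ∀ (c : C) (w A F : U.El c), U.Chain w A F → U.Concl w A) (c : C)
    (v : ℕ → U.El c) : U.Forces .wf c v := by
  unfold Fml.wf
  intro d0 g0 w d1 g1 A d2 g2 F
  rw [forces_imp]
  intro d3 g3 hO
  rw [forces_imp]
  intro d4 g4 hA
  rw [forces_imp]
  intro d5 g5 hF
  rw [forces_imp]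
  intro d6 g6 hH
  unfold Fml.isOmega at hO
  rw [forces_and] at hO
  replace hO := hO.1
  rw [U.forces_isInd (show 0 < 3 by omega)] at hO
  rw [U.forces_isFun (show 1 < 3 by omega) (show 0 < 3 by omega)] at hA
  rw [U.forces_isFun (show 2 < 3 by omega) (show 0 < 3 by omega)] at hF
  apply U.t7_concl
  apply H d6 _ _ (U.rs g6 (U.rs g5 (U.rs g4 (U.rs g3 (Function.update (U.rs g2
    (Function.update (U.rs g1 (Function.update (U.rs g0 v) 0 w)) 1 A)) 2 F)))) 2)
  refine ⟨?_, ?_, ?_, ?_⟩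
  · exact U.t7_ind_res g6 (U.t7_ind_res g5 (U.t7_ind_res g4 hO))
  · exact U.t7_fun_res g6 (U.t7_fun_res g5 hA)
  · exact U.t7_fun_res g6 hF
  · exact U.t7_hyp _ hH
-- END T7

-- BEGIN T8
/-- (task T8) -/
theorem forces_neg_ac (H : ∀ c : C, ∃ X : U.El c,
      (∀ (d : C) (g : d ⟶ c) (x : U.El d), U.mem x (U.res g X) →
        Dn (fun e (h : e ⟶ d) => ∃ y : U.El e, U.mem y (U.res h x))) ∧
      ∀ (d : C) (g : d ⟶ c) (f : U.El d), U.IsFunF f (U.res g X) →
        (∀ (e : C) (h : e ⟶ d) (x y : U.El e), U.mem x (U.res (h ≫ g) X) →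
          U.Val (U.res h f) x y → U.mem y x) → False)
    (c : C) (v : ℕ → U.El c) : U.Forces (.neg .ac) c v := by
  rw [forces_neg]
  intro d g h
  obtain ⟨X, hX1, hX2⟩ := H d
  unfold Fml.ac at h
  have h0 := h d (𝟙 d) X
  rw [forces_imp] at h0
  have h1 := h0 d (𝟙 d) (by
    simp only [forces_all, forces_imp, forces_ex, forces_mem, rs_update, rs_rs, rs_apply,
      Function.update_apply]
    simp
    intro d1 f1 x d2 f2 hx
    refine hX1 d2 (f2 ≫ f1) (U.res f2 x) ?_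
    simpa only [U.res_id, U.res_comp] using hx)
  rw [forces_ex] at h1
  obtain ⟨e, m, f, hf⟩ := h1 d (𝟙 d)
  rw [forces_and, U.forces_isFun (show 1 < 2 by omega) (show 0 < 2 by omega)] at hf
  simp only [forces_all, forces_imp, forces_mem, rs_update, rs_rs, rs_apply,
    U.forces_val (show 1 < 4 by omega) (show 2 < 4 by omega) (show 3 < 4 by omega),
    Function.update_apply] at hf
  simp at hf
  obtain ⟨hf1, hf2⟩ := hf
  refine hX2 e m f (by simpa only [U.res_id] using hf1) ?_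
  intro e1 m1 x y hx hy
  have h2 := hf2 e1 m1 x e1 (𝟙 e1) y e1 (𝟙 e1)
  simp only [U.res_id, U.res_comp] at h2 hx
  have h3 := h2 hx e1 (𝟙 e1)
  simp only [U.res_id] at h3
  exact h3 hy
-- END T8

end FU

end Pool.Agent.Lib.ZFM
end

section

/-!
The axiom of choice is forced to fail at every stage: no choice function for the classes of reals
modulo finite changes.
-/

open CategoryTheory

namespace Pool.Agent.Lib.ZFM

-- BEGIN X1
/-- (task X1) natural numbers are different -/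
theorem x1_ne {C : Type 1} [Category.{0} C] (U : FU C) (n : ℕ) :
    ∀ k < n, ∀ c : C, ¬ U.eq (U.nat c n) (U.nat c k) := by
  induction n using Nat.strong_induction_on with
  | _ n ih =>
    intro k hk c h
    have h1 : U.mem (U.nat c k) (U.res (𝟙 c) (U.nat c n)) := by
      rw [U.mem_nat]
      exact Dn.of_all fun d f => ⟨k, hk, U.res_nat c d f k⟩
    rw [U.res_id] at h1
    have h2 : U.mem (U.nat c k) (U.res (𝟙 c) (U.nat c k)) := by
      rw [U.res_id]
      exact U.eq_right h h1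
    rw [U.mem_nat] at h2
    obtain ⟨e, g, j, hj, hE⟩ := h2 c (𝟙 c)
    exact ih k hk j hj e (U.eq_trans (U.eq_symm (U.res_nat c e _ k)) hE)

theorem FU.nat_inj {C : Type 1} [Category.{0} C] (U : FU C) (c : C) {n m : ℕ}
    (h : U.eq (U.nat c n) (U.nat c m)) : n = m := by
  rcases lt_trichotomy n m with h1 | h1 | h1
  · exact absurd (U.eq_symm h) (x1_ne U m n h1 c)
  · exact h1
  · exact absurd h (x1_ne U n m h1 c)
-- END X1

namespace CP

/-- the value of the real `c` at `k` is forced to be `v` -/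
def VC {d : CP} (c : d ⟶ Coh) (k v : ℕ) : Prop :=
  ∀ q : d.X, ∃ q' ≤ q, ∃ σ : Cn, c.rel q' σ ∧ σ.l[k]? = some v

-- BEGIN X2
/-- (task X2) values of reals -/
theorem VC.res {d e : CP} {c : d ⟶ Coh} {k v : ℕ} (h : VC c k v) (f : e ⟶ d) :
    VC (f ≫ c) k v := by
  intro q
  obtain ⟨q', hq', p, ⟨σ, h1, h2⟩, hf⟩ :=
    f.gen {p | ∃ σ : Cn, c.rel p σ ∧ σ.l[k]? = some v} (fun p => by
      obtain ⟨p', hp', σ, h1, h2⟩ := h p
      exact ⟨p', hp', σ, h1, h2⟩) q
  exact ⟨q', hq', σ, comp_rel_of hf h1, h2⟩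

theorem VC.loc {d : CP} {c : d ⟶ Coh} {k v : ℕ}
    (h : Dn (fun e (f : e ⟶ d) => VC (f ≫ c) k v)) : VC c k v := by
  intro q
  obtain ⟨e, g, H⟩ := h _ (incl d q)
  obtain ⟨a⟩ := e.ne
  obtain ⟨a', -, σ, h1, h2⟩ := H a
  obtain ⟨b, hb, r, h3, h4⟩ := h1 a' le_rfl
  obtain ⟨b', hb', x, h5, h6⟩ := h3 b le_rfl
  obtain ⟨t, ht1, ht2⟩ := h6 x le_rfl
  exact ⟨t, ht1.trans x.2, σ, c.mono ht2 h4, h2⟩

theorem x2_get {σ τ : Cn} (h : τ ≤ σ) {k v : ℕ} (hv : σ.l[k]? = some v) :
    τ.l[k]? = some v := by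
  obtain ⟨t, ht⟩ := h
  obtain ⟨hk, -⟩ := List.getElem?_eq_some_iff.1 hv
  rw [← ht, List.getElem?_append_left hk, hv]

theorem VC.unique {d : CP} {c : d ⟶ Coh} {k v v' : ℕ} (h : VC c k v) (h' : VC c k v') :
    v = v' := by
  obtain ⟨q⟩ := d.ne
  obtain ⟨q1, h1, σ, h2, h3⟩ := h q
  obtain ⟨q2, h4, τ, h5, h6⟩ := h' q1
  obtain ⟨ρ, h7, h8⟩ := c.compat (c.mono h4 h2) h5
  have e1 := x2_get h7 h3
  have e2 := x2_get h8 h6
  exact Option.some.inj (e1.symm.trans e2)

theorem exists_VC {d : CP} (c : d ⟶ Coh) (k : ℕ) :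
    Dn (fun e (f : e ⟶ d) => ∃ v, VC (f ≫ c) k v) := by
  intro d' f
  obtain ⟨q⟩ := d'.ne
  obtain ⟨q', -, σ, hσ, h1⟩ := (f ≫ c).gen {σ : Cn | k < σ.l.length} (fun σ => by
      refine ⟨(⟨σ.l ++ List.replicate (k + 1) 0⟩ : Cn), ⟨_, rfl⟩, ?_⟩
      show k < (σ.l ++ List.replicate (k + 1) 0).length
      rw [List.length_append, List.length_replicate]
      omega) q
  refine ⟨below d' q', incl d' q', σ.l[k]'hσ, ?_⟩
  intro x
  refine ⟨x, le_rfl, σ, ?_, List.getElem?_eq_getElem hσ⟩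
  have h2 := (con_incl_iff (f ≫ c) q' σ).2 h1 x
  rwa [← Category.assoc] at h2
-- END X2

/-- reals with the same values are equal -/
theorem eq_of_VC {d : CP} {c c' : d ⟶ Coh}
    (h : ∀ (e : CP) (f : e ⟶ d) (k v : ℕ), VC (f ≫ c) k v → VC (f ≫ c') k v) : c = c' := by
  refine eq_of_not_apart fun e u ha => ?_
  obtain ⟨q⟩ := e.ne
  obtain ⟨q', -, σ, τ, h1, h2, k, hk1, hk2, hne⟩ := ha q
  have e1 : σ.l[k]? = some (σ.l[k]'hk1) := List.getElem?_eq_getElem hk1
  have e2 : τ.l[k]? = some (τ.l[k]'hk2) := List.getElem?_eq_getElem hk2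
  have v1 : VC ((incl e q' ≫ u) ≫ c) k (σ.l[k]'hk1) := by
    intro x
    refine ⟨x, le_rfl, σ, ?_, e1⟩
    have := (con_incl_iff (u ≫ c) q' σ).2 h1 x
    rwa [← Category.assoc] at this
  have v2 : VC ((incl e q' ≫ u) ≫ c') k (τ.l[k]'hk2) := by
    intro x
    refine ⟨x, le_rfl, τ, ?_, e2⟩
    have := (con_incl_iff (u ≫ c') q' τ).2 h2 x
    rwa [← Category.assoc] at this
  have := VC.unique (h _ _ _ _ v1) v2
  rw [e1, e2, this] at hne
  exact hne rfl

-- BEGIN X3
/-- (task X3) values of shifted reals -/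
theorem VC_shift {d : CP} (c : d ⟶ Coh) (s : List ℕ) (k v : ℕ) (hk : s[k]? = some v) :
    VC (c ≫ shift s) k v :=
  fun q => ⟨q, le_rfl, ⟨s⟩, con_comp_shift c s q, hk⟩

theorem VC_shift_add {d : CP} (c : d ⟶ Coh) (s : List ℕ) (k v : ℕ) :
    VC (c ≫ shift s) (s.length + k) v ↔ VC c k v := by
  constructor
  · intro h q
    obtain ⟨q', hq', σ, h1, h2⟩ := h q
    have h1' := (comp_ofProj_rel c (isEmb_shift s).isProj q' σ).1 h1
    obtain ⟨r, hr, τ, h3, h4⟩ := h1' q' le_rfl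
    refine ⟨r, hr.trans hq', τ, h3, ?_⟩
    have h5 := x2_get (σ := σ) (τ := shiftFun s τ) h4 h2
    have h6 : (s ++ (τ : Cn).l)[s.length + k]? = some v := h5
    rwa [List.getElem?_append_right (Nat.le_add_right _ _), Nat.add_sub_cancel_left] at h6
  · intro h q
    obtain ⟨q', hq', σ, h1, h2⟩ := h q
    refine ⟨q', hq', (⟨s ++ σ.l⟩ : Cn), comp_rel_of h1 (ofProj_rel_of _ le_rfl), ?_⟩
    show (s ++ σ.l)[s.length + k]? = some v
    rw [List.getElem?_append_right (Nat.le_add_right _ _), Nat.add_sub_cancel_left]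
    exact h2
-- END X3

/-- the reals `c` and `c'` agree from `N` on -/
def Agr {d : CP} (N : ℕ) (c c' : d ⟶ Coh) : Prop :=
  ∀ k ≥ N, ∀ (e : CP) (f : e ⟶ d) (v : ℕ), VC (f ≫ c) k v ↔ VC (f ≫ c') k v

section

variable (U : FU CP)

/-- the real as an element of the universe: the set of codes of pairs `(k, v)` with value `v` at
`k` -/
noncomputable def rl {d : CP} (c : d ⟶ Coh) : U.El d :=
  U.set ⟨Σ R : CP, {x : (R ⟶ d) × ℕ // VC (x.1 ≫ c) x.2.unpair.1 x.2.unpair.2},
    fun i => i.1, fun i => i.2.1.1, fun i => U.nat i.1 i.2.1.2⟩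

/-- the class of the real modulo finite changes -/
noncomputable def cl {d : CP} (c : d ⟶ Coh) : U.El d :=
  U.set ⟨Σ R : CP, {x : (R ⟶ d) × (R ⟶ Coh) // ∃ N, Agr N (x.1 ≫ c) x.2},
    fun i => i.1, fun i => i.2.1.1, fun i => rl U i.2.1.2⟩

/-- the set of all classes -/
noncomputable def clSet (d : CP) : U.El d :=
  U.set ⟨Σ R : CP, (R ⟶ d) × (R ⟶ Coh), fun i => i.1, fun i => i.2.1, fun i => cl U i.2.2⟩

-- BEGIN X4
/-- (task X4) elements of `rl`; naturality and injectivity -/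
theorem mem_rl {d e : CP} (c : d ⟶ Coh) (f : e ⟶ d) (y : U.El e) :
    U.mem y (U.res f (rl U c)) ↔ Dn (fun e' (g : e' ⟶ e) => ∃ n : ℕ,
      VC (g ≫ f ≫ c) n.unpair.1 n.unpair.2 ∧ U.eq (U.res g y) (U.nat e' n)) := by
  unfold rl
  rw [U.mem_set]
  constructor
  · refine Dn.imp ?_
    rintro e' m ⟨⟨R, ⟨⟨x₁, n⟩, hv⟩⟩, l, hl, hy⟩
    refine ⟨n, ?_, ?_⟩
    · have h1 := VC.res hv l
      have e1 : l ≫ x₁ ≫ c = m ≫ f ≫ c := by
        rw [← Category.assoc, ← Category.assoc]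
        exact congrArg (fun t => t ≫ c) hl
      rw [e1] at h1
      exact h1
    · exact U.eq_trans hy (U.res_nat R e' l n)
  · refine Dn.imp ?_
    rintro e' m ⟨n, hv, hy⟩
    refine ⟨⟨e', ⟨(m ≫ f, n), by rw [Category.assoc]; exact hv⟩⟩, 𝟙 e', ?_, ?_⟩
    · exact Category.id_comp _
    · rw [U.res_id]
      exact hy

theorem res_rl {d e : CP} (c : d ⟶ Coh) (f : e ⟶ d) : U.eq (U.res f (rl U c)) (rl U (f ≫ c)) := by
  apply U.ext
  intro e' g z
  rw [← U.res_comp, mem_rl, mem_rl]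
  simp only [Category.assoc]

theorem rl_inj {d : CP} {c c' : d ⟶ Coh} (h : U.eq (rl U c) (rl U c')) : c = c' := by
  apply eq_of_VC
  intro e f k v hv
  have h1 : U.mem (U.nat e (Nat.pair k v)) (U.res f (rl U c)) := by
    rw [mem_rl]
    intro e₁ g₁
    refine ⟨e₁, 𝟙 e₁, Nat.pair k v, ?_, U.res_nat _ _ _ _⟩
    rw [Nat.unpair_pair]
    exact VC.res hv _
  have h2 := U.eq_right (U.eq_res f h) h1
  rw [mem_rl] at h2
  refine VC.loc (h2.imp ?_)
  rintro e₁ g₁ ⟨n, hn, hn'⟩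
  have h3 := U.nat_inj e₁ (U.eq_trans (U.eq_symm (U.res_nat _ _ g₁ _)) hn')
  rw [← h3, Nat.unpair_pair] at hn
  exact hn
-- END X4

-- BEGIN X5
/-- (task X5) elements of `cl`; naturality and invariance -/
theorem Agr.res {d e : CP} {N : ℕ} {c c' : d ⟶ Coh} (h : Agr N c c') (f : e ⟶ d) :
    Agr N (f ≫ c) (f ≫ c') := by
  intro k hk e' g v
  have := h k hk e' (g ≫ f) v
  rwa [Category.assoc, Category.assoc] at this

theorem mem_cl {d e : CP} (c : d ⟶ Coh) (f : e ⟶ d) (y : U.El e) :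
    U.mem y (U.res f (cl U c)) ↔ Dn (fun e' (g : e' ⟶ e) => ∃ (c' : e' ⟶ Coh) (N : ℕ),
      Agr N (g ≫ f ≫ c) c' ∧ U.eq (U.res g y) (rl U c')) := by
  unfold cl
  rw [U.mem_set]
  constructor
  · refine Dn.imp ?_
    rintro e' m ⟨⟨R, ⟨⟨x₁, x₂⟩, N, hN⟩⟩, l, hl, hy⟩
    refine ⟨l ≫ x₂, N, ?_, ?_⟩
    · have h1 := Agr.res hN l
      have e1 : l ≫ x₁ ≫ c = m ≫ f ≫ c := by
        rw [← Category.assoc, ← Category.assoc]
        exact congrArg (fun t => t ≫ c) hl
      rw [e1] at h1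
      exact h1
    · exact U.eq_trans hy (res_rl U x₂ l)
  · refine Dn.imp ?_
    rintro e' m ⟨c', N, hN, hy⟩
    refine ⟨⟨e', ⟨(m ≫ f, c'), N, by rw [Category.assoc]; exact hN⟩⟩, 𝟙 e', ?_, ?_⟩
    · exact Category.id_comp _
    · rw [U.res_id]
      exact hy

theorem res_cl {d e : CP} (c : d ⟶ Coh) (f : e ⟶ d) : U.eq (U.res f (cl U c)) (cl U (f ≫ c)) := by
  apply U.ext
  intro e' g z
  rw [← U.res_comp, mem_cl, mem_cl]
  simp only [Category.assoc]

theorem x5_agr_trans {d : CP} {N N' : ℕ} {c c' c'' : d ⟶ Coh} (h : Agr N c c')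
    (h' : Agr N' c c'') : Agr (max N N') c' c'' := by
  intro k hk e f v
  rw [← h k ((le_max_left _ _).trans hk) e f v]
  exact h' k ((le_max_right _ _).trans hk) e f v

theorem x5_agr_symm {d : CP} {N : ℕ} {c c' : d ⟶ Coh} (h : Agr N c c') : Agr N c' c :=
  fun k hk e f v => (h k hk e f v).symm

theorem cl_congr {d : CP} {N : ℕ} {c c' : d ⟶ Coh} (h : Agr N c c') :
    U.eq (cl U c) (cl U c') := by
  apply U.ext
  intro e f z
  rw [mem_cl, mem_cl]
  constructor
  · refine Dn.imp ?_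
    rintro e' m ⟨c'', N', hN', hy⟩
    exact ⟨c'', _, x5_agr_trans (Agr.res (Agr.res h f) m) hN', hy⟩
  · refine Dn.imp ?_
    rintro e' m ⟨c'', N', hN', hy⟩
    exact ⟨c'', _, x5_agr_trans (x5_agr_symm (Agr.res (Agr.res h f) m)) hN', hy⟩
-- END X5

-- BEGIN X6
/-- (task X6) elements of `clSet` -/
theorem mem_clSet {d e : CP} (f : e ⟶ d) (x : U.El e) :
    U.mem x (U.res f (clSet U d)) ↔ Dn (fun e' (g : e' ⟶ e) => ∃ c : e' ⟶ Coh,
      U.eq (U.res g x) (cl U c)) := by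
  rw [clSet, U.mem_set]
  constructor
  · intro H
    refine H.imp ?_
    rintro e' g ⟨i, l, -, h2⟩
    refine ⟨l ≫ i.2.2, U.eq_trans h2 (res_cl U i.2.2 l)⟩
  · intro H
    refine H.imp ?_
    rintro e' g ⟨c, hc⟩
    refine ⟨⟨e', (g ≫ f, c)⟩, 𝟙 e', Category.id_comp _, ?_⟩
    show U.eq (U.res g x) (U.res (𝟙 e') (cl U c))
    rw [U.res_id]
    exact hc

theorem clSet_nonempty {d e : CP} (f : e ⟶ d) (x : U.El e) (h : U.mem x (U.res f (clSet U d))) :
    Dn (fun e' (g : e' ⟶ e) => ∃ y : U.El e', U.mem y (U.res g x)) := by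
  refine ((mem_clSet U f x).1 h).imp ?_
  rintro e' g ⟨c, hc⟩
  refine ⟨rl U c, U.eq_right (U.eq_symm hc) ?_⟩
  have h1 : U.mem (rl U c) (U.res (𝟙 e') (cl U c)) := by
    rw [mem_cl]
    refine Dn.of_all fun d' f' => ⟨f' ≫ c, 0, ?_, res_rl U c f'⟩
    intro k _ e1 f1 v
    rw [Category.id_comp]
  rwa [U.res_id] at h1
-- END X6

/-- the choice function `F` over `P` picks a real which agrees from `N` on with the given one -/
def Pick {P : CP} (F : U.El P) (N : ℕ) (R : CP) (h : R ⟶ prod P Coh) : Prop :=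
  Dn (fun e (m : e ⟶ R) => ∃ c' : e ⟶ Coh, Agr N (m ≫ h ≫ snd P Coh) c' ∧
    U.Val (U.res (m ≫ h ≫ fst P Coh) F) (cl U (m ≫ h ≫ snd P Coh)) (rl U c'))

-- BEGIN X7
/-- (task X7) -/
theorem isML_pick {P : CP} (F : U.El P) (N : ℕ) : IsML (Pick U F N) where
  mono := by
    intro R S x u H
    refine (Dn.res H u).imp ?_
    rintro e g ⟨c', h1, h2⟩
    refine ⟨c', ?_, ?_⟩
    · simpa only [Category.assoc] using h1
    · simpa only [Category.assoc] using h2
  loc := by
    intro R x H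
    refine Dn.join (H.imp ?_)
    intro S u H'
    refine H'.imp ?_
    rintro e g ⟨c', h1, h2⟩
    refine ⟨c', ?_, ?_⟩
    · simpa only [Category.assoc] using h1
    · simpa only [Category.assoc] using h2
-- END X7

-- BEGIN X8
/-- (task X8) for a choice function `F` some `N` works at some stage -/
theorem exists_pick {d P : CP} (g : P ⟶ d) (F : U.El P) (hF : U.IsFunF F (U.res g (clSet U d)))
    (hc : ∀ (e : CP) (h : e ⟶ P) (x y : U.El e), U.mem x (U.res (h ≫ g) (clSet U d)) →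
      U.Val (U.res h F) x y → U.mem y x) :
    ∃ (N : ℕ) (R : CP) (h : R ⟶ prod P Coh), Pick U F N R h := by
  have hx : U.mem (cl U (snd P Coh)) (U.res (fst P Coh ≫ g) (clSet U d)) := by
    rw [mem_clSet]
    exact Dn.of_all fun d' f' => ⟨_, res_cl U _ f'⟩
  have hx' := hx
  rw [U.res_comp] at hx'
  obtain ⟨e, h, y, hy⟩ := hF.2.1 _ (fst P Coh) _ hx' _ (𝟙 _)
  rw [Category.comp_id] at hy
  have hxr : U.mem (U.res h (cl U (snd P Coh))) (U.res ((h ≫ fst P Coh) ≫ g) (clSet U d)) := by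
    rw [Category.assoc, U.res_comp]
    exact U.mem_res h hx
  have hyx := hc e (h ≫ fst P Coh) _ y hxr hy
  rw [mem_cl] at hyx
  obtain ⟨e', g', c', N, hA, hE⟩ := hyx e (𝟙 e)
  simp only [Category.comp_id] at hA hE
  refine ⟨N, e', g' ≫ h, Dn.of_all fun e₁ m => ⟨m ≫ c', ?_, ?_⟩⟩
  · have h1 := Agr.res hA m
    simpa only [Category.assoc] using h1
  · have h1 := FU.Val.res U (FU.Val.res U hy g') m
    rw [← U.res_comp, ← U.res_comp, ← U.res_comp, ← U.res_comp] at h1
    have e1 : (m ≫ g') ≫ h ≫ fst P Coh = m ≫ (g' ≫ h) ≫ fst P Coh := by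
      simp only [Category.assoc]
    refine FU.Val.congr U (U.eq_of_eq (by rw [← e1])) ?_ ?_ h1
    · refine U.eq_trans (res_cl U _ _) (U.eq_of_eq ?_)
      simp only [Category.assoc]
    · exact U.eq_trans (U.eq_res m hE) (res_rl U c' m)
-- END X8

-- BEGIN X9
/-- (task X9) contradiction -/
theorem no_pick {d P : CP} (g : P ⟶ d) (F : U.El P) (hF : U.IsFunF F (U.res g (clSet U d)))
    (N : ℕ) (R : CP) (h : R ⟶ prod P Coh) (H : Pick U F N R h) : False := by
  obtain ⟨⟨p, σ⟩, he⟩ := (isML_pick U F N).exists_con h H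
  let s : List ℕ := σ.l ++ List.replicate N 0
  have hs : N ≤ s.length := by simp [s]
  let hh : ℕ → (prod (below P p) Coh ⟶ prod P Coh) := fun i => map (incl P p) (shift (s ++ [i]))
  have hcon : ∀ i, Con (hh i) ((p, σ) : (prod P Coh).X) := by
    intro i
    refine con_map (con_incl P p) ((con_shift (s ++ [i])).up ?_)
    show σ.l <+: s ++ [i]
    exact ⟨List.replicate N 0 ++ [i], by simp [s]⟩
  have h0 := he _ _ (hcon 0)
  have h1 := he _ _ (hcon 1)
  obtain ⟨e0, m0, c0', -, -⟩ := h0 _ (𝟙 _)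
  obtain ⟨e1, m1, c0, hA0, hV0⟩ := h0 _ (𝟙 _)
  obtain ⟨e2, m2, c1, hA1, hV1⟩ := h1 _ (m1 ≫ 𝟙 _)
  rw [Category.comp_id] at hA0 hV0
  rw [Category.comp_id] at hA1 hV1
  -- everything at the stage `e2`
  have hA0' := Agr.res hA0 m2
  have hV0' := FU.Val.res U hV0 m2
  rw [← U.res_comp] at hV0'
  set c : e2 ⟶ Coh := (m2 ≫ m1) ≫ snd (below P p) Coh with hcdef
  have efst : ∀ i, hh i ≫ fst P Coh = fst (below P p) Coh ≫ incl P p := fun i => map_fst _ _
  have esnd : ∀ i, hh i ≫ snd P Coh = snd (below P p) Coh ≫ shift (s ++ [i]) :=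
    fun i => map_snd _ _
  have ea : ∀ i, m2 ≫ m1 ≫ hh i ≫ snd P Coh = c ≫ shift (s ++ [i]) := by
    intro i
    rw [esnd, hcdef]
    simp only [Category.assoc]
  have hAgr : Agr (s.length + 1) (c ≫ shift (s ++ [0])) (c ≫ shift (s ++ [1])) := by
    intro k hk e' f v
    obtain ⟨j, rfl⟩ := Nat.exists_eq_add_of_le hk
    have x1 := VC_shift_add (f ≫ c) (s ++ [0]) j v
    have x2 := VC_shift_add (f ≫ c) (s ++ [1]) j v
    rw [List.length_append, List.length_singleton] at x1 x2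
    have y1 : f ≫ c ≫ shift (s ++ [0]) = (f ≫ c) ≫ shift (s ++ [0]) :=
      (Category.assoc _ _ _).symm
    have y2 : f ≫ c ≫ shift (s ++ [1]) = (f ≫ c) ≫ shift (s ++ [1]) :=
      (Category.assoc _ _ _).symm
    rw [y1, y2, x1, x2]
  have hcl := cl_congr U hAgr
  rw [ea] at hA0'
  have hA1' : Agr N (c ≫ shift (s ++ [1])) c1 := by
    have := hA1
    rwa [Category.assoc, ea] at this
  have hV0'' : U.Val (U.res ((m2 ≫ m1) ≫ fst (below P p) Coh ≫ incl P p) F)
      (cl U (c ≫ shift (s ++ [0]))) (rl U (m2 ≫ c0)) := by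
    refine FU.Val.congr U (U.eq_of_eq ?_) ?_ (res_rl U c0 m2) hV0'
    · rw [efst]; simp only [Category.assoc]
    · exact U.eq_trans (res_cl U _ m2) (U.eq_of_eq (by rw [ea]))
  have hV1'' : U.Val (U.res ((m2 ≫ m1) ≫ fst (below P p) Coh ≫ incl P p) F)
      (cl U (c ≫ shift (s ++ [0]))) (rl U c1) := by
    refine FU.Val.congr U (U.eq_of_eq ?_) (U.eq_trans (U.eq_of_eq ?_) (U.eq_symm hcl))
      (U.eq_refl _) hV1
    · rw [efst]
    · rw [Category.assoc, ea]
  have hmem : U.mem (cl U (c ≫ shift (s ++ [0])))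
      (U.res ((m2 ≫ m1) ≫ fst (below P p) Coh ≫ incl P p) (U.res g (clSet U d))) := by
    rw [← U.res_comp, mem_clSet]
    exact Dn.of_all fun d' f' => ⟨_, res_cl U _ f'⟩
  have heq := rl_inj U (hF.2.2 _ _ _ _ _ hmem hV0'' hV1'')
  have v0 : VC (m2 ≫ c0) s.length 0 := by
    have := (hA0' s.length hs _ (𝟙 _) 0).1
      (by rw [Category.id_comp]; exact VC_shift c (s ++ [0]) s.length 0 (by simp))
    rwa [Category.id_comp] at this
  have v1 : VC c1 s.length 1 := by
    have := (hA1' s.length hs _ (𝟙 _) 1).1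
      (by rw [Category.id_comp]; exact VC_shift c (s ++ [1]) s.length 1 (by simp))
    rwa [Category.id_comp] at this
  rw [heq] at v0
  exact absurd (v0.unique v1) (by norm_num)
-- END X9

/-- choice fails at every stage -/
theorem forces_neg_ac (c : CP) (v : ℕ → U.El c) : U.Forces (.neg .ac) c v := by
  refine U.forces_neg_ac (fun c => ⟨clSet U c, fun d g x hx => clSet_nonempty U g x hx,
    fun d g F hF hc => ?_⟩) c v
  obtain ⟨N, R, h, H⟩ := exists_pick U g F hF hc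
  exact no_pick U g F hF N R h H

end

end CP

end Pool.Agent.Lib.ZFM
end

section

/-!
The chain principle is forced at every stage.
-/

open CategoryTheory

namespace Pool.Agent.Lib.ZFM

namespace FU

section General

variable {C : Type 1} [Category.{0} C] (U : FU C)

-- BEGIN W1
/-- (task W1) natural numbers belong to every inductive set -/
theorem nat_succ (c : C) (n : ℕ) : U.IsSuccF (U.nat c n) (U.nat c (n + 1)) := by
  intro d g z
  have h0 : U.mem z (U.res g (U.nat c (n + 1))) ↔ U.mem z (U.nat d (n + 1)) :=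
    ⟨fun h => U.eq_right (U.res_nat c d g (n + 1)) h,
      fun h => U.eq_right (U.eq_symm (U.res_nat c d g (n + 1))) h⟩
  rw [h0, U.mem_nat_succ]
  constructor
  · refine Dn.imp ?_
    rintro e k (h | h)
    · exact Or.inl (U.eq_right (U.eq_symm (U.res_nat c e (k ≫ g) n)) h)
    · exact Or.inr (U.eq_trans h (U.eq_symm (U.res_nat c e (k ≫ g) n)))
  · refine Dn.imp ?_
    rintro e k (h | h)
    · exact Or.inl (U.eq_right (U.res_nat c e (k ≫ g) n) h)
    · exact Or.inr (U.eq_trans h (U.res_nat c e (k ≫ g) n))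

theorem nat_mem {c : C} {w : U.El c} (hw : U.IsIndF w) (n : ℕ) : U.mem (U.nat c n) w := by
  induction n with
  | zero =>
    have h := hw.1 c (𝟙 c) (U.nat c 0) (by
      intro d' g' z hz
      rw [U.mem_nat] at hz
      obtain ⟨e, g, k, hk, -⟩ := hz d' (𝟙 d')
      exact absurd hk (Nat.not_lt_zero k))
    rwa [U.res_id] at h
  | succ n ih =>
    have h := hw.2 c (𝟙 c) (U.nat c n) (U.nat c (n + 1)) (by rw [U.res_id]; exact ih)
      (U.nat_succ c n)
    rwa [U.res_id] at h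
-- END W1

-- BEGIN W2
/-- (task W2) the hypotheses are monotone -/
theorem IsIndF.res {c d : C} {w : U.El c} (h : U.IsIndF w) (f : d ⟶ c) :
    U.IsIndF (U.res f w) := by
  refine ⟨fun d' g e he => ?_, fun d' g n s hn hs => ?_⟩
  · rw [← U.res_comp]
    exact h.1 d' (g ≫ f) e he
  · rw [← U.res_comp] at hn ⊢
    exact h.2 d' (g ≫ f) n s hn hs

theorem IsFunF.res {c d : C} {F X : U.El c} (h : U.IsFunF F X) (f : d ⟶ c) :
    U.IsFunF (U.res f F) (U.res f X) := by
  refine ⟨fun d' g p hp => ?_, fun d' g x hx => ?_, fun d' g x y y' hx hy hy' => ?_⟩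
  · rw [← U.res_comp] at hp
    refine (h.1 d' (g ≫ f) p hp).imp ?_
    rintro e k ⟨x, y, hx, hxy⟩
    refine ⟨x, y, ?_, hxy⟩
    rw [← U.res_comp, Category.assoc]
    exact hx
  · rw [← U.res_comp] at hx
    refine (h.2.1 d' (g ≫ f) x hx).imp ?_
    rintro e k ⟨y, hy⟩
    refine ⟨y, ?_⟩
    rw [← U.res_comp, Category.assoc]
    exact hy
  · rw [← U.res_comp] at hx hy hy'
    exact h.2.2 d' (g ≫ f) x y y' hx hy hy'

theorem Chain.res {c d : C} {w A F : U.El c} (h : U.Chain w A F) (f : d ⟶ c) :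
    U.Chain (U.res f w) (U.res f A) (U.res f F) where
  ind := IsIndF.res U h.ind f
  funA := IsFunF.res U h.funA f
  funF := IsFunF.res U h.funF f
  inj := by
    intro d' g n m a b φ hn hs ha hb hφ
    rw [← U.res_comp] at hn ha hb hφ
    exact h.inj d' (g ≫ f) n m a b φ hn hs ha hb hφ
-- END W2

/-- `x` belongs to the `n`-th set of the sequence `A` -/
def InA {c : C} (A : U.El c) (n : ℕ) : ∀ d : C, (d ⟶ c) → U.El d → Prop := fun d f x =>
  Dn (fun e (g : e ⟶ d) => ∃ a : U.El e, U.Val (U.res (g ≫ f) A) (U.nat e n) a ∧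
    U.mem (U.res g x) a)

/-- `x` is the image of `y ∈ A n` under the composition of the injections -/
def Cmp {c : C} (A F : U.El c) : ℕ → ∀ d : C, (d ⟶ c) → U.El d → U.El d → Prop
  | 0 => fun d f x y => U.eq x y ∧ U.InA A 0 d f x
  | n + 1 => fun d f x y => Dn (fun e (g : e ⟶ d) => ∃ y' φ : U.El e,
      Cmp A F n e (g ≫ f) (U.res g x) y' ∧ U.Val (U.res (g ≫ f) F) (U.nat e n) φ ∧
        U.Val φ (U.res g y) y')

variable {c : C} {w A F : U.El c}

-- BEGIN W3
/-- (task W3) the sets of the sequence -/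
theorem exists_A (h : U.Chain w A F) (n : ℕ) :
    Dn (fun d (f : d ⟶ c) => ∃ a : U.El d, U.Val (U.res f A) (U.nat d n) a) := by
  have h1 : U.mem (U.nat c n) (U.res (𝟙 c) w) := by
    rw [U.res_id]
    exact U.nat_mem h.ind n
  refine (h.funA.2.1 c (𝟙 c) (U.nat c n) h1).imp ?_
  rintro e g ⟨y, hy⟩
  rw [Category.comp_id] at hy
  exact ⟨y, Val.congr U (U.eq_refl _) (U.res_nat _ _ g n) (U.eq_refl _) hy⟩

theorem w3_val {n : ℕ} {d : C} (f : d ⟶ c) {a : U.El d}
    (ha : U.Val (U.res f A) (U.nat d n) a) {e : C} (g : e ⟶ d) :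
    U.Val (U.res (g ≫ f) A) (U.nat e n) (U.res g a) := by
  have h1 := Val.res U ha g
  rw [← U.res_comp] at h1
  exact Val.congr U (U.eq_refl _) (U.res_nat _ _ g n) (U.eq_refl _) h1

theorem inA_iff (h : U.Chain w A F) (n : ℕ) {d : C} (f : d ⟶ c) {a : U.El d}
    (ha : U.Val (U.res f A) (U.nat d n) a) (x : U.El d) : U.InA A n d f x ↔ U.mem x a := by
  constructor
  · intro H
    refine U.mem_loc (H.imp ?_)
    rintro e g ⟨a', ha', hx⟩
    have h1 : U.mem (U.nat e n) (U.res (g ≫ f) w) := U.nat_mem (IsIndF.res U h.ind (g ≫ f)) n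
    exact U.mem_congr (U.eq_refl _) (h.funA.2.2 e (g ≫ f) _ _ _ h1 ha' (U.w3_val f ha g)) hx
  · intro H
    exact Dn.of_all fun e g => ⟨U.res g a, U.w3_val f ha g, U.mem_res g H⟩

theorem InA.res {n : ℕ} {d e : C} {f : d ⟶ c} {x : U.El d} (h : U.InA A n d f x) (g : e ⟶ d) :
    U.InA A n e (g ≫ f) (U.res g x) := by
  unfold InA at h ⊢
  have h1 := h.res g
  simpa only [Category.assoc, U.res_comp] using h1

theorem InA.loc {n : ℕ} {d : C} {f : d ⟶ c} {x : U.El d}
    (h : Dn (fun e (g : e ⟶ d) => U.InA A n e (g ≫ f) (U.res g x))) : U.InA A n d f x := by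
  unfold InA at h ⊢
  refine Dn.join (h.imp fun e g h1 => ?_)
  simpa only [Category.assoc, U.res_comp] using h1

theorem InA.congr {n : ℕ} {d : C} {f : d ⟶ c} {x y : U.El d} (h : U.InA A n d f x)
    (hxy : U.eq x y) : U.InA A n d f y := by
  unfold InA at h ⊢
  refine h.imp ?_
  rintro e g ⟨a, ha, hx⟩
  exact ⟨a, ha, U.mem_congr (U.eq_res g hxy) (U.eq_refl _) hx⟩
-- END W3

-- BEGIN W4
/-- (task W4) the composed injections: monotone, local, congruent -/
theorem Cmp.res {n : ℕ} {d e : C} {f : d ⟶ c} {x y : U.El d} (h : U.Cmp A F n d f x y)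
    (g : e ⟶ d) : U.Cmp A F n e (g ≫ f) (U.res g x) (U.res g y) := by
  cases n with
  | zero => exact ⟨U.eq_res g h.1, InA.res U h.2 g⟩
  | succ n =>
    have h1 : Dn (fun e (g : e ⟶ d) => ∃ y' φ : U.El e,
      U.Cmp A F n e (g ≫ f) (U.res g x) y' ∧ U.Val (U.res (g ≫ f) F) (U.nat e n) φ ∧
        U.Val φ (U.res g y) y') := h
    have h2 := h1.res g
    simp only [U.res_comp, Category.assoc] at h2
    intro e' g'
    obtain ⟨e'', g'', y', φ, h3, h4, h5⟩ := h2 e' g'
    refine ⟨e'', g'', y', φ, ?_, ?_, ?_⟩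
    · simpa only [U.res_comp, Category.assoc] using h3
    · simpa only [U.res_comp, Category.assoc] using h4
    · simpa only [U.res_comp, Category.assoc] using h5

theorem Cmp.loc {n : ℕ} {d : C} {f : d ⟶ c} {x y : U.El d}
    (h : Dn (fun e (g : e ⟶ d) => U.Cmp A F n e (g ≫ f) (U.res g x) (U.res g y))) :
    U.Cmp A F n d f x y := by
  cases n with
  | zero => exact ⟨U.eq_loc (h.imp fun _ _ h1 => h1.1), InA.loc U (h.imp fun _ _ h1 => h1.2)⟩
  | succ n =>
    intro e' g'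
    obtain ⟨e1, g1, h1⟩ := h e' g'
    obtain ⟨e2, g2, y', φ, h3, h4, h5⟩ := h1 e1 (𝟙 e1)
    refine ⟨e2, (g2 ≫ 𝟙 e1) ≫ g1, y', φ, ?_, ?_, ?_⟩
    · simpa only [U.res_comp, Category.assoc] using h3
    · simpa only [U.res_comp, Category.assoc] using h4
    · simpa only [U.res_comp, Category.assoc] using h5

theorem Cmp.congr {n : ℕ} {d : C} {f : d ⟶ c} {x y x' y' : U.El d} (h : U.Cmp A F n d f x y)
    (hx : U.eq x x') (hy : U.eq y y') : U.Cmp A F n d f x' y' := by
  induction n generalizing d with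
  | zero =>
    exact ⟨U.eq_trans (U.eq_symm hx) (U.eq_trans h.1 hy), InA.congr U h.2 hx⟩
  | succ n ih =>
    intro e g
    obtain ⟨e1, g1, z, φ, h3, h4, h5⟩ := h e g
    exact ⟨e1, g1, z, φ, ih h3 (U.eq_res _ hx) (U.eq_refl _), h4,
      Val.congr U (U.eq_refl _) (U.eq_res _ hy) (U.eq_refl _) h5⟩
-- END W4

-- BEGIN W5
theorem w5_cmp_succ (n : ℕ) {d : C} (f : d ⟶ c) (x y : U.El d) :
    U.Cmp A F (n + 1) d f x y ↔ Dn (fun e (g : e ⟶ d) => ∃ y' φ : U.El e,
      U.Cmp A F n e (g ≫ f) (U.res g x) y' ∧ U.Val (U.res (g ≫ f) F) (U.nat e n) φ ∧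
        U.Val φ (U.res g y) y') := Iff.rfl

theorem w5_vres {X : U.El c} {d e : C} {f : d ⟶ c} (g : e ⟶ d) {n : ℕ} {a : U.El d}
    (H : U.Val (U.res f X) (U.nat d n) a) : U.Val (U.res (g ≫ f) X) (U.nat e n) (U.res g a) :=
  Val.congr U (U.eq_of_eq (U.res_comp g f X).symm) (U.res_nat d e g n) (U.eq_refl _) (Val.res U H g)

theorem w5_inj (h : U.Chain w A F) (n : ℕ) {d : C} (f : d ⟶ c) {a b φ : U.El d}
    (ha : U.Val (U.res f A) (U.nat d n) a) (hb : U.Val (U.res f A) (U.nat d (n + 1)) b)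
    (hφ : U.Val (U.res f F) (U.nat d n) φ) : U.IsInjF φ b a :=
  h.inj d f (U.nat d n) (U.nat d (n + 1)) a b φ (nat_mem U (IsIndF.res U h.ind f) n)
    (U.nat_succ d n) ha hb hφ

theorem w5_exA (h : U.Chain w A F) (n : ℕ) {d : C} (f : d ⟶ c) :
    Dn (fun e (g : e ⟶ d) => ∃ a : U.El e, U.Val (U.res (g ≫ f) A) (U.nat e n) a) :=
  (exists_A U h n).res f

theorem w5_exF (h : U.Chain w A F) (n : ℕ) {d : C} (f : d ⟶ c) :
    Dn (fun e (g : e ⟶ d) => ∃ φ : U.El e, U.Val (U.res (g ≫ f) F) (U.nat e n) φ) :=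
  (h.funF.2.1 d f (U.nat d n) (nat_mem U (IsIndF.res U h.ind f) n)).imp
    fun e g ⟨y, hy⟩ => ⟨y, Val.congr U (U.eq_refl _) (U.res_nat d e g n) (U.eq_refl _) hy⟩

theorem w5_uniF (h : U.Chain w A F) {n : ℕ} {d : C} {f : d ⟶ c} {φ φ' : U.El d}
    (h1 : U.Val (U.res f F) (U.nat d n) φ) (h2 : U.Val (U.res f F) (U.nat d n) φ') : U.eq φ φ' :=
  h.funF.2.2 d f (U.nat d n) φ φ' (nat_mem U (IsIndF.res U h.ind f) n) h1 h2

theorem w5_fdom {φ X x y : U.El c} (h : U.IsFunF φ X) (H : U.Val φ x y) : U.mem x X := by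
  refine U.mem_loc ?_
  have h1 : U.mem (U.op x y) (U.res (𝟙 c) φ) := by rw [U.res_id]; exact H
  refine (h.1 c (𝟙 c) (U.op x y) h1).imp ?_
  rintro e g ⟨x', y', hx', hp⟩
  have h2 := OPair.res U (U.op_spec x y) g
  have h3 := OPair.inj U hp h2
  rw [Category.comp_id] at hx'
  exact U.eq_left h3.1 hx'

/-- one step of the composition with all the data -/
theorem w5_step (h : U.Chain w A F) {n : ℕ} {d : C} {f : d ⟶ c} {x y : U.El d}
    (H : U.Cmp A F (n + 1) d f x y) :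
    Dn (fun e (g : e ⟶ d) => ∃ a b φ y' : U.El e, U.Val (U.res (g ≫ f) A) (U.nat e n) a ∧
      U.Val (U.res (g ≫ f) A) (U.nat e (n + 1)) b ∧ U.Val (U.res (g ≫ f) F) (U.nat e n) φ ∧
      U.IsInjF φ b a ∧ U.Cmp A F n e (g ≫ f) (U.res g x) y' ∧ U.Val φ (U.res g y) y' ∧
      U.mem (U.res g y) b ∧ U.mem y' a) := by
  intro d' k
  obtain ⟨e, g, y', φ, h1, h2, h3⟩ := H d' k
  obtain ⟨e1, g1, a, ha⟩ := w5_exA U h n ((g ≫ k) ≫ f) e (𝟙 e)
  obtain ⟨e2, g2, b, hb⟩ := w5_exA U h (n + 1) ((g1 ≫ 𝟙 e) ≫ (g ≫ k) ≫ f) e1 (𝟙 e1)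
  let m : e2 ⟶ e := (g2 ≫ 𝟙 e1) ≫ g1 ≫ 𝟙 e
  have hm : (m ≫ g ≫ k) ≫ f = (g2 ≫ 𝟙 e1) ≫ (g1 ≫ 𝟙 e) ≫ (g ≫ k) ≫ f := by
    simp only [m, Category.assoc]
  have ha' : U.Val (U.res ((m ≫ g ≫ k) ≫ f) A) (U.nat e2 n) (U.res (g2 ≫ 𝟙 e1) a) := by
    rw [hm]
    exact w5_vres U (g2 ≫ 𝟙 e1) ha
  have hb' : U.Val (U.res ((m ≫ g ≫ k) ≫ f) A) (U.nat e2 (n + 1)) b := by
    rw [hm]
    exact hb
  have hφ' : U.Val (U.res ((m ≫ g ≫ k) ≫ f) F) (U.nat e2 n) (U.res m φ) := by
    have h4 := w5_vres U m h2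
    rwa [← Category.assoc] at h4
  have hinj := w5_inj U h n ((m ≫ g ≫ k) ≫ f) ha' hb' hφ'
  have hc : U.Cmp A F n e2 ((m ≫ g ≫ k) ≫ f) (U.res (m ≫ g ≫ k) x) (U.res m y') := by
    have h4 := Cmp.res U h1 m
    rwa [← Category.assoc, ← U.res_comp] at h4
  have hv : U.Val (U.res m φ) (U.res (m ≫ g ≫ k) y) (U.res m y') := by
    have h4 := Val.res U h3 m
    rwa [← U.res_comp] at h4
  have hmem := w5_fdom U hinj.1.1 hv
  have hmem' : U.mem (U.res m y') (U.res (g2 ≫ 𝟙 e1) a) := by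
    have h4 := hinj.1.2 e2 (𝟙 e2) (U.res (m ≫ g ≫ k) y) (U.res m y')
    rw [U.res_id, U.res_id, U.res_id] at h4
    exact h4 hmem hv
  exact ⟨e2, m ≫ g, U.res (g2 ≫ 𝟙 e1) a, b, U.res m φ, U.res m y', by
    simpa only [Category.assoc] using ha', by simpa only [Category.assoc] using hb', by
    simpa only [Category.assoc] using hφ', hinj, by simpa only [Category.assoc] using hc, by
    simpa only [Category.assoc] using hv, by simpa only [Category.assoc] using hmem, hmem'⟩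

/-- (task W5) the composed injections: domain, functionality, injectivity, totality -/
theorem Cmp.dom (h : U.Chain w A F) {n : ℕ} {d : C} {f : d ⟶ c} {x y : U.El d}
    (H : U.Cmp A F n d f x y) : U.InA A 0 d f x ∧ U.InA A n d f y := by
  induction n generalizing d with
  | zero => exact ⟨H.2, InA.congr U H.2 H.1⟩
  | succ n ih =>
    have h1 := w5_step U h H
    refine ⟨InA.loc U (h1.imp ?_), InA.loc U (h1.imp ?_)⟩
    · rintro e g ⟨a, b, φ, y', _, _, _, _, hc, _⟩
      exact (ih hc).1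
    · rintro e g ⟨a, b, φ, y', _, hb, _, _, _, _, hmem, _⟩
      exact (inA_iff U h (n + 1) (g ≫ f) hb _).2 hmem

theorem Cmp.functional (h : U.Chain w A F) {n : ℕ} {d : C} {f : d ⟶ c} {x x' y : U.El d}
    (H : U.Cmp A F n d f x y) (H' : U.Cmp A F n d f x' y) : U.eq x x' := by
  induction n generalizing d with
  | zero => exact U.eq_trans H.1 (U.eq_symm H'.1)
  | succ n ih =>
    refine U.eq_loc ?_
    intro d' k
    obtain ⟨e, g, y', φ, h1, h2, h3⟩ := H d' k
    obtain ⟨e1, g1, a, b, φ1, y1', _, _, hφ1, hinj, hc, hv, hmem, _⟩ := w5_step U h H' e (g ≫ k)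
    have e0 : (g1 ≫ g ≫ k) ≫ f = g1 ≫ (g ≫ k) ≫ f := by simp only [Category.assoc]
    rw [e0] at hφ1 hc
    have h4 : U.eq (U.res g1 φ) φ1 := w5_uniF U h (w5_vres U g1 h2) hφ1
    have h5 : U.Val (U.res g1 φ) (U.res (g1 ≫ g ≫ k) y) (U.res g1 y') := by
      have := Val.res U h3 g1
      rwa [← U.res_comp] at this
    have h6 : U.Val φ1 (U.res (g1 ≫ g ≫ k) y) (U.res g1 y') :=
      Val.congr U h4 (U.eq_refl _) (U.eq_refl _) h5
    have h7 : U.eq (U.res g1 y') y1' := by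
      have := hinj.1.1.2.2 e1 (𝟙 e1) (U.res (g1 ≫ g ≫ k) y) (U.res g1 y') y1'
      rw [U.res_id, U.res_id] at this
      exact this hmem h6 hv
    have h8 : U.Cmp A F n e1 (g1 ≫ (g ≫ k) ≫ f) (U.res (g1 ≫ g ≫ k) x) (U.res g1 y') := by
      have := Cmp.res U h1 g1
      rwa [← U.res_comp] at this
    have h9 := ih (Cmp.congr U h8 (U.eq_refl _) h7) hc
    exact ⟨e1, g1 ≫ g, by simpa only [Category.assoc] using h9⟩

theorem Cmp.injective (h : U.Chain w A F) {n : ℕ} {d : C} {f : d ⟶ c} {x y y' : U.El d}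
    (H : U.Cmp A F n d f x y) (H' : U.Cmp A F n d f x y') : U.eq y y' := by
  induction n generalizing d with
  | zero => exact U.eq_trans (U.eq_symm H.1) H'.1
  | succ n ih =>
    refine U.eq_loc ?_
    intro d' k
    obtain ⟨e, g, z, φ, h1, h2, h3⟩ := H d' k
    obtain ⟨e1, g1, a, b, φ1, z1, _, _, hφ1, hinj, hc, hv, hmem, _⟩ := w5_step U h H' e (g ≫ k)
    have e0 : (g1 ≫ g ≫ k) ≫ f = g1 ≫ (g ≫ k) ≫ f := by simp only [Category.assoc]
    rw [e0] at hφ1 hc
    have h4 : U.eq (U.res g1 φ) φ1 := w5_uniF U h (w5_vres U g1 h2) hφ1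
    have h5 : U.Val (U.res g1 φ) (U.res (g1 ≫ g ≫ k) y) (U.res g1 z) := by
      have := Val.res U h3 g1
      rwa [← U.res_comp] at this
    have h6 : U.Val φ1 (U.res (g1 ≫ g ≫ k) y) (U.res g1 z) :=
      Val.congr U h4 (U.eq_refl _) (U.eq_refl _) h5
    have h8 : U.Cmp A F n e1 (g1 ≫ (g ≫ k) ≫ f) (U.res (g1 ≫ g ≫ k) x) (U.res g1 z) := by
      have := Cmp.res U h1 g1
      rwa [← U.res_comp] at this
    have h9 : U.eq (U.res g1 z) z1 := ih h8 hc
    have h10 : U.Val φ1 (U.res (g1 ≫ g ≫ k) y) z1 :=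
      Val.congr U (U.eq_refl _) (U.eq_refl _) h9 h6
    have h11 : U.mem (U.res (g1 ≫ g ≫ k) y) b := w5_fdom U hinj.1.1 h10
    have h12 : U.eq (U.res (g1 ≫ g ≫ k) y) (U.res (g1 ≫ g ≫ k) y') := by
      have := hinj.2 e1 (𝟙 e1) (U.res (g1 ≫ g ≫ k) y) (U.res (g1 ≫ g ≫ k) y') z1
      rw [U.res_id, U.res_id] at this
      exact this h11 hmem h10 hv
    exact ⟨e1, g1 ≫ g, by simpa only [Category.assoc] using h12⟩

theorem Cmp.total (h : U.Chain w A F) {n : ℕ} {d : C} {f : d ⟶ c} {y : U.El d}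
    (H : U.InA A n d f y) :
    Dn (fun e (g : e ⟶ d) => ∃ x : U.El e, U.Cmp A F n e (g ≫ f) x (U.res g y)) := by
  induction n generalizing d with
  | zero => exact Dn.of_all fun e g => ⟨U.res g y, U.eq_refl _, InA.res U H g⟩
  | succ n ih =>
    intro d' k
    obtain ⟨e1, g1, b, hb⟩ := w5_exA U h (n + 1) (k ≫ f) d' (𝟙 d')
    obtain ⟨e2, g2, a, ha⟩ := w5_exA U h n ((g1 ≫ 𝟙 d') ≫ k ≫ f) e1 (𝟙 e1)
    obtain ⟨e3, g3, φ, hφ⟩ := w5_exF U h n ((g2 ≫ 𝟙 e1) ≫ (g1 ≫ 𝟙 d') ≫ k ≫ f) e2 (𝟙 e2)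
    have hb' := w5_vres U (g3 ≫ 𝟙 e2) (w5_vres U (g2 ≫ 𝟙 e1) hb)
    have ha' := w5_vres U (g3 ≫ 𝟙 e2) ha
    have hinj := w5_inj U h n _ ha' hb' hφ
    let m : e3 ⟶ d := (g3 ≫ 𝟙 e2) ≫ (g2 ≫ 𝟙 e1) ≫ (g1 ≫ 𝟙 d') ≫ k
    have hm : m ≫ f = (g3 ≫ 𝟙 e2) ≫ (g2 ≫ 𝟙 e1) ≫ (g1 ≫ 𝟙 d') ≫ k ≫ f := by
      simp only [m, Category.assoc]
    have hy : U.mem (U.res m y) (U.res (g3 ≫ 𝟙 e2) (U.res (g2 ≫ 𝟙 e1) b)) := by
      refine (inA_iff U h (n + 1) (m ≫ f) ?_ _).1 (InA.res U H m)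
      rw [hm]
      exact hb'
    have h1 := hinj.1.1.2.1 e3 (𝟙 e3) (U.res m y) (by rw [U.res_id]; exact hy)
    obtain ⟨e4, g4, y', hy'⟩ := h1 e3 (𝟙 e3)
    rw [Category.comp_id] at hy'
    have h2 : U.mem y' (U.res (g4 ≫ 𝟙 e3) (U.res (g3 ≫ 𝟙 e2) a)) := by
      refine hinj.1.2 e4 (g4 ≫ 𝟙 e3) (U.res (g4 ≫ 𝟙 e3) (U.res m y)) y' (U.mem_res _ hy) hy'
    have h3 : U.InA A n e4 ((g4 ≫ 𝟙 e3) ≫ m ≫ f) y' := by
      refine (inA_iff U h n _ ?_ _).2 h2
      rw [hm]
      exact w5_vres U (g4 ≫ 𝟙 e3) ha'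
    obtain ⟨e5, g5, x, hx⟩ := ih h3 e4 (𝟙 e4)
    refine ⟨e5, (g5 ≫ 𝟙 e4) ≫ (g4 ≫ 𝟙 e3) ≫ (g3 ≫ 𝟙 e2) ≫ (g2 ≫ 𝟙 e1) ≫ (g1 ≫ 𝟙 d'), x, ?_⟩
    rw [w5_cmp_succ]
    refine Dn.of_all fun e6 g6 => ⟨U.res g6 (U.res (g5 ≫ 𝟙 e4) y'),
      U.res g6 (U.res (g5 ≫ 𝟙 e4) (U.res (g4 ≫ 𝟙 e3) φ)), ?_, ?_, ?_⟩
    · have := Cmp.res U hx g6
      simpa only [m, Category.assoc] using this
    · have := w5_vres U g6 (w5_vres U (g5 ≫ 𝟙 e4) (w5_vres U (g4 ≫ 𝟙 e3) hφ))
      simpa only [m, Category.assoc] using this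
    · have := Val.res U (Val.res U hy' (g5 ≫ 𝟙 e4)) g6
      simpa only [m, Category.assoc, U.res_comp, U.res_id] using this
-- END W5

/-- the image of `A n` in `A 0` -/
def ImB (A F : U.El c) (n : ℕ) : Pd U c where
  P d f x := Dn (fun e (g : e ⟶ d) => ∃ y : U.El e, U.Cmp A F n e (g ≫ f) (U.res g x) y)
  mono f g x H := by
    have := H.res g
    simpa [U.res_comp] using this
  loc f x H := Dn.join (by simpa [U.res_comp] using H)
  congr f x y hxy H := H.imp fun e g ⟨z, hz⟩ => ⟨z, Cmp.congr U hz (U.eq_res g hxy) (U.eq_refl _)⟩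

-- BEGIN W6
theorem w6_iff (n : ℕ) {d : C} (f : d ⟶ c) (x : U.El d) : (U.ImB A F n).P d f x ↔
    Dn (fun e (g : e ⟶ d) => ∃ y : U.El e, U.Cmp A F n e (g ≫ f) (U.res g x) y) := Iff.rfl

/-- (task W6) the images are decreasing and contained in `A 0` -/
theorem imB_succ (h : U.Chain w A F) (n : ℕ) (d : C) (f : d ⟶ c) (x : U.El d)
    (H : (U.ImB A F (n + 1)).P d f x) : (U.ImB A F n).P d f x := by
  intro d' k
  obtain ⟨e, g, y, hy⟩ := H d' k
  obtain ⟨e1, g1, y', φ, h1, _⟩ := hy e (𝟙 e)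
  refine ⟨e1, (g1 ≫ 𝟙 e) ≫ g, y', ?_⟩
  simpa only [U.res_comp, Category.assoc] using h1

theorem imB_subset (h : U.Chain w A F) {a : U.El c} (ha : U.Val A (U.nat c 0) a) (n : ℕ) (d : C)
    (f : d ⟶ c) (x : U.El d) (H : (U.ImB A F n).P d f x) : U.mem x (U.res f a) := by
  refine U.mem_loc (((w6_iff U n f x).1 H).imp ?_)
  rintro e g ⟨y, hy⟩
  have h1 := (Cmp.dom U h hy).1
  have h2 : U.Val (U.res (g ≫ f) A) (U.nat e 0) (U.res (g ≫ f) a) :=
    Val.congr U (U.eq_refl _) (U.res_nat c e (g ≫ f) 0) (U.eq_refl _) (Val.res U ha (g ≫ f))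
  have h3 := (inA_iff U h 0 (g ≫ f) h2 _).1 h1
  rwa [U.res_comp] at h3
-- END W6

-- BEGIN W7
/-- the relation extended by a constant value -/
def w7Rl (b a₀ : U.El c) (Φ : Rl U c) : Rl U c where
  P d f x y := Dn (fun e (h : e ⟶ d) => Φ.P e (h ≫ f) (U.res h x) (U.res h y) ∨
    (U.mem (U.res h x) (U.res (h ≫ f) b) ∧
      (∀ (e' : C) (m : e' ⟶ e) (y' : U.El e'), ¬ Φ.P e' (m ≫ h ≫ f) (U.res m (U.res h x)) y') ∧
      U.eq (U.res h y) (U.res (h ≫ f) a₀)))
  mono f g x y H := by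
    intro e1 h1
    obtain ⟨e2, h2, H2⟩ := H e1 (h1 ≫ g)
    refine ⟨e2, h2, ?_⟩
    simpa only [U.res_comp, Category.assoc] using H2
  loc f x y H := by
    intro e1 h1
    obtain ⟨e2, h2, H2⟩ := H e1 h1
    obtain ⟨e3, h3, H3⟩ := H2 e2 (𝟙 e2)
    refine ⟨e3, (h3 ≫ 𝟙 e2) ≫ h2, ?_⟩
    simpa only [U.res_comp, Category.assoc] using H3
  congr f x x' y y' hx hy H := by
    refine H.imp ?_
    intro e h H1
    rcases H1 with H1 | ⟨H1, H2, H3⟩
    · exact Or.inl (Φ.congr _ _ _ _ _ (U.eq_res h hx) (U.eq_res h hy) H1)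
    · refine Or.inr ⟨U.eq_left (U.eq_res h hx) H1, ?_, U.eq_trans (U.eq_symm (U.eq_res h hy)) H3⟩
      intro e' m z Hz
      exact H2 e' m z (Φ.congr _ _ _ _ _ (U.eq_symm (U.eq_res m (U.eq_res h hx))) (U.eq_refl _) Hz)

theorem w7_iff (b a₀ : U.El c) (Φ : Rl U c) {d : C} (f : d ⟶ c) (x y : U.El d) :
    (w7Rl U b a₀ Φ).P d f x y ↔ Dn (fun e (h : e ⟶ d) => Φ.P e (h ≫ f) (U.res h x) (U.res h y) ∨
    (U.mem (U.res h x) (U.res (h ≫ f) b) ∧
      (∀ (e' : C) (m : e' ⟶ e) (y' : U.El e'), ¬ Φ.P e' (m ≫ h ≫ f) (U.res m (U.res h x)) y') ∧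
      U.eq (U.res h y) (U.res (h ≫ f) a₀))) := Iff.rfl

theorem w7_aux (a b a₀ : U.El c) (h₀ : U.mem a₀ a) (Φ : Rl U c)
    (hb : ∀ (d : C) (f : d ⟶ c) (x y : U.El d), Φ.P d f x y → U.mem x (U.res f b))
    (ha : ∀ (d : C) (f : d ⟶ c) (x y : U.El d), Φ.P d f x y → U.mem y (U.res f a))
    (hu : ∀ (d : C) (f : d ⟶ c) (x y y' : U.El d), Φ.P d f x y → Φ.P d f x y' → U.eq y y')
    (ho : ∀ (d : C) (f : d ⟶ c) (y : U.El d), U.mem y (U.res f a) →
      Dn (fun e (g : e ⟶ d) => ∃ x : U.El e, Φ.P e (g ≫ f) x (U.res g y))) :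
    ∃ s : U.El c, U.IsSurjF s b a := by
  have hb' : ∀ (d : C) (f : d ⟶ c) (x y : U.El d), (w7Rl U b a₀ Φ).P d f x y →
      U.mem x (U.res f b) := by
    intro d f x y H
    refine U.mem_loc (((w7_iff U b a₀ Φ f x y).1 H).imp ?_)
    intro e h H1
    rw [← U.res_comp]
    rcases H1 with H1 | ⟨H1, _, _⟩
    · exact hb e (h ≫ f) _ _ H1
    · exact H1
  have ha' : ∀ (d : C) (f : d ⟶ c) (x y : U.El d), (w7Rl U b a₀ Φ).P d f x y →
      U.mem y (U.res f a) := by
    intro d f x y H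
    refine U.mem_loc (((w7_iff U b a₀ Φ f x y).1 H).imp ?_)
    intro e h H1
    rw [← U.res_comp]
    rcases H1 with H1 | ⟨_, _, H1⟩
    · exact ha e (h ≫ f) _ _ H1
    · exact U.eq_left (U.eq_symm H1) (U.mem_res (h ≫ f) h₀)
  obtain ⟨s, hs, hs'⟩ := U.exists_graph b a (w7Rl U b a₀ Φ) hb' ha'
  refine ⟨s, ⟨⟨?_, ?_, ?_⟩, ?_⟩, ?_⟩
  · intro d f p hp
    refine (hs' d f p hp).imp ?_
    rintro e g ⟨x, y, h1, h2⟩
    exact ⟨x, y, hb' e (g ≫ f) x y h1, h2⟩
  · intro d f x hx d' k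
    by_cases hex : ∃ (e : C) (m : e ⟶ d') (y' : U.El e), Φ.P e (m ≫ k ≫ f) (U.res m (U.res k x)) y'
    · obtain ⟨e, m, y', hy'⟩ := hex
      refine ⟨e, m, y', ?_⟩
      rw [hs, w7_iff]
      refine Dn.of_all fun e' h => Or.inl ?_
      have := Φ.mono (m ≫ k ≫ f) h _ _ hy'
      simpa only [U.res_comp, Category.assoc] using this
    · push Not at hex
      refine ⟨d', 𝟙 d', U.res (k ≫ f) a₀, ?_⟩
      rw [hs, w7_iff]
      refine Dn.of_all fun e' h => Or.inr ⟨?_, ?_, ?_⟩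
      · have := U.mem_res h (U.mem_res k hx)
        simpa only [U.res_comp, U.res_id, Category.assoc, Category.id_comp] using this
      · intro e'' m y' H
        refine hex e'' (m ≫ h) y' ?_
        simpa only [U.res_comp, U.res_id, Category.assoc, Category.id_comp] using H
      · have : U.res h (U.res (k ≫ f) a₀) = U.res (h ≫ (𝟙 d' ≫ k) ≫ f) a₀ := by
          simp only [U.res_comp, Category.id_comp]
        exact U.eq_of_eq this
  · intro d f x y y' _ H H'
    rw [hs] at H H'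
    refine U.eq_loc ?_
    intro d' k
    obtain ⟨e, g, H1⟩ := H d' k
    obtain ⟨e1, g1, H2⟩ := H' e (g ≫ k)
    refine ⟨e1, g1 ≫ g, ?_⟩
    rw [Category.assoc]
    rcases H1 with H1 | ⟨_, H1, H1'⟩
    · have H3 : Φ.P e1 ((g1 ≫ g ≫ k) ≫ f) (U.res (g1 ≫ g ≫ k) x) (U.res (g1 ≫ g ≫ k) y) := by
        have := Φ.mono _ g1 _ _ H1
        simpa only [U.res_comp, Category.assoc] using this
      rcases H2 with H2 | ⟨_, H2, _⟩
      · exact hu _ _ _ _ _ H3 H2
      · exfalso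
        refine H2 e1 (𝟙 e1) (U.res (g1 ≫ g ≫ k) y) ?_
        rw [Category.id_comp, U.res_id]
        exact H3
    · rcases H2 with H2 | ⟨_, _, H2'⟩
      · exfalso
        refine H1 e1 g1 (U.res (g1 ≫ g ≫ k) y') ?_
        have : Φ.P e1 ((g1 ≫ g ≫ k) ≫ f) (U.res (g1 ≫ g ≫ k) x) (U.res (g1 ≫ g ≫ k) y') := H2
        simpa only [U.res_comp, Category.assoc] using this
      · refine U.eq_trans ?_ (U.eq_symm H2')
        have := U.eq_res g1 H1'
        simpa only [U.res_comp, Category.assoc] using this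
  · intro d f x y _ H
    rw [hs] at H
    exact ha' d f x y H
  · intro d f y hy
    refine (ho d f y hy).imp ?_
    rintro e g ⟨x, hx⟩
    refine ⟨x, hb e (g ≫ f) _ _ hx, ?_⟩
    rw [hs, w7_iff]
    exact Dn.of_all fun e' h => Or.inl (Φ.mono (g ≫ f) h _ _ hx)

/-- the relation restricted to an extension -/
def w7Res (Φ : Rl U c) {d : C} (k : d ⟶ c) : Rl U d where
  P e f x y := Φ.P e (f ≫ k) x y
  mono f g x y H := by
    have := Φ.mono (f ≫ k) g x y H
    simpa only [Category.assoc] using this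
  loc f x y H := by
    refine Φ.loc (f ≫ k) x y ?_
    simpa only [Category.assoc] using H
  congr f x x' y y' hx hy H := Φ.congr (f ≫ k) x x' y y' hx hy H

/-- (task W7) a functional relation from a part of `b` onto `a` gives `|a| ≤* |b|` -/
theorem leStarF_of (a b : U.El c) (Φ : Rl U c)
    (hb : ∀ (d : C) (f : d ⟶ c) (x y : U.El d), Φ.P d f x y → U.mem x (U.res f b))
    (ha : ∀ (d : C) (f : d ⟶ c) (x y : U.El d), Φ.P d f x y → U.mem y (U.res f a))
    (hu : ∀ (d : C) (f : d ⟶ c) (x y y' : U.El d), Φ.P d f x y → Φ.P d f x y' → U.eq y y')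
    (ho : ∀ (d : C) (f : d ⟶ c) (y : U.El d), U.mem y (U.res f a) →
      Dn (fun e (g : e ⟶ d) => ∃ x : U.El e, Φ.P e (g ≫ f) x (U.res g y))) :
    U.LeStarF a b := by
  intro d g
  by_cases hex : ∃ (e : C) (k : e ⟶ d) (z : U.El e), U.mem z (U.res (k ≫ g) a)
  · obtain ⟨e, k, z, hz⟩ := hex
    refine ⟨e, k, Or.inr ?_⟩
    refine w7_aux U (U.res (k ≫ g) a) (U.res (k ≫ g) b) z hz (w7Res U Φ (k ≫ g)) ?_ ?_ ?_ ?_
    · intro d' f x y H
      rw [← U.res_comp]
      exact hb d' _ x y H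
    · intro d' f x y H
      rw [← U.res_comp]
      exact ha d' _ x y H
    · intro d' f x y y' H H'
      exact hu d' _ x y y' H H'
    · intro d' f y hy
      rw [← U.res_comp] at hy
      refine (ho d' _ y hy).imp ?_
      rintro e' g' ⟨x, hx⟩
      refine ⟨x, ?_⟩
      change Φ.P e' ((g' ≫ f) ≫ k ≫ g) x (U.res g' y)
      rw [Category.assoc]
      exact hx
  · push Not at hex
    refine ⟨d, 𝟙 d, Or.inl ?_⟩
    intro e h z
    rw [Category.id_comp]
    exact hex e h z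
-- END W7

end General

variable (U : FU CP)

-- BEGIN W8
/-- the transported relation -/
def w8Rl {c Q R : CP} (A F : U.El c) (g : Q ⟶ c) (n : ℕ) (H : Rl U Q) (k : R ⟶ Q) : Rl U R where
  P d f x y := Dn (fun e (m : e ⟶ d) => ∃ u v : U.El e,
    U.Cmp A F (n + 1) e ((m ≫ f) ≫ k ≫ g) u (U.res m x) ∧
    U.Cmp A F n e ((m ≫ f) ≫ k ≫ g) v (U.res m y) ∧ H.P e ((m ≫ f) ≫ k) u v)
  mono f g' x y K := by
    intro e1 h1
    obtain ⟨e2, h2, u, v, K1, K2, K3⟩ := K e1 (h1 ≫ g')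
    refine ⟨e2, h2, u, v, ?_, ?_, ?_⟩
    · simpa only [U.res_comp, Category.assoc] using K1
    · simpa only [U.res_comp, Category.assoc] using K2
    · simpa only [U.res_comp, Category.assoc] using K3
  loc f x y K := by
    intro e1 h1
    obtain ⟨e2, h2, K2⟩ := K e1 h1
    obtain ⟨e3, h3, u, v, K3, K4, K5⟩ := K2 e2 (𝟙 e2)
    refine ⟨e3, (h3 ≫ 𝟙 e2) ≫ h2, u, v, ?_, ?_, ?_⟩
    · simpa only [U.res_comp, Category.assoc] using K3
    · simpa only [U.res_comp, Category.assoc] using K4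
    · simpa only [U.res_comp, Category.assoc] using K5
  congr f x x' y y' hx hy K := by
    refine K.imp ?_
    rintro e h ⟨u, v, K1, K2, K3⟩
    exact ⟨u, v, Cmp.congr U K1 (U.eq_refl _) (U.eq_res h hx),
      Cmp.congr U K2 (U.eq_refl _) (U.eq_res h hy), K3⟩

theorem w8_iff {c Q R : CP} (A F : U.El c) (g : Q ⟶ c) (n : ℕ) (H : Rl U Q) (k : R ⟶ Q) {d : CP}
    (f : d ⟶ R) (x y : U.El d) : (w8Rl U A F g n H k).P d f x y ↔
    Dn (fun e (m : e ⟶ d) => ∃ u v : U.El e,
    U.Cmp A F (n + 1) e ((m ≫ f) ≫ k ≫ g) u (U.res m x) ∧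
    U.Cmp A F n e ((m ≫ f) ≫ k ≫ g) v (U.res m y) ∧ H.P e ((m ≫ f) ≫ k) u v) := Iff.rfl

/-- (task W8) transport of the surjection along the injections -/
theorem leStarF_of_surj {c Q R : CP} {w A F : U.El c} (h : U.Chain w A F) (g : Q ⟶ c) (n : ℕ)
    (H : Rl U Q) (hH : CP.Surj g (U.ImB A F (n + 1)) (U.ImB A F n) H) (k : R ⟶ Q) {a b : U.El R}
    (ha : U.Val (U.res (k ≫ g) A) (U.nat R n) a)
    (hb : U.Val (U.res (k ≫ g) A) (U.nat R (n + 1)) b) : U.LeStarF a b := by
  refine U.leStarF_of a b (w8Rl U A F g n H k) ?_ ?_ ?_ ?_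
  · intro d f x y K
    refine U.mem_loc (((w8_iff U A F g n H k f x y).1 K).imp ?_)
    rintro e m ⟨u, v, K1, _, _⟩
    have h1 := (Cmp.dom U h K1).2
    have h2 := (inA_iff U h (n + 1) _ (w5_vres U (m ≫ f) hb) _).1 h1
    rwa [U.res_comp] at h2
  · intro d f x y K
    refine U.mem_loc (((w8_iff U A F g n H k f x y).1 K).imp ?_)
    rintro e m ⟨u, v, _, K1, _⟩
    have h1 := (Cmp.dom U h K1).2
    have h2 := (inA_iff U h n _ (w5_vres U (m ≫ f) ha) _).1 h1
    rwa [U.res_comp] at h2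
  · intro d f x y y' K K'
    refine U.eq_loc ?_
    intro d' j
    obtain ⟨e, m, u, v, K1, K2, K3⟩ := K d' j
    obtain ⟨e1, m1, u', v', K1', K2', K3'⟩ := K' e (m ≫ j)
    refine ⟨e1, m1 ≫ m, ?_⟩
    have L1 : U.Cmp A F (n + 1) e1 (((m1 ≫ m ≫ j) ≫ f) ≫ k ≫ g) (U.res m1 u)
        (U.res (m1 ≫ m ≫ j) x) := by
      have := Cmp.res U K1 m1
      simpa only [U.res_comp, Category.assoc] using this
    have L2 : U.Cmp A F n e1 (((m1 ≫ m ≫ j) ≫ f) ≫ k ≫ g) (U.res m1 v)
        (U.res (m1 ≫ m ≫ j) y) := by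
      have := Cmp.res U K2 m1
      simpa only [U.res_comp, Category.assoc] using this
    have L3 : H.P e1 (((m1 ≫ m ≫ j) ≫ f) ≫ k) (U.res m1 u) (U.res m1 v) := by
      have := H.mono _ m1 _ _ K3
      simpa only [U.res_comp, Category.assoc] using this
    have L4 : U.eq (U.res m1 u) u' := Cmp.functional U h L1 K1'
    have L5 : U.eq (U.res m1 v) v' := hH.unique _ _ _ _ _
      (H.congr _ _ _ _ _ L4 (U.eq_refl _) L3) K3'
    have L6 : U.eq (U.res (m1 ≫ m ≫ j) y) (U.res (m1 ≫ m ≫ j) y') :=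
      Cmp.injective U h (Cmp.congr U L2 L5 (U.eq_refl _)) K2'
    rw [Category.assoc]
    exact L6
  · intro d f y hy d' j
    have h1 : U.InA A n d (f ≫ k ≫ g) y := by
      refine (inA_iff U h n _ (w5_vres U f ha) _).2 hy
    obtain ⟨e1, m1, v, hv⟩ := Cmp.total U h h1 d' j
    have h2 : (U.ImB A F n).P e1 ((m1 ≫ j) ≫ f ≫ k ≫ g) v := by
      rw [w6_iff]
      refine Dn.of_all fun e' g' => ⟨U.res g' (U.res (m1 ≫ j) y), ?_⟩
      exact Cmp.res U hv g'
    have h3 : (U.ImB A F n).P e1 (((m1 ≫ j) ≫ f ≫ k) ≫ g) v := by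
      simpa only [Category.assoc] using h2
    obtain ⟨e2, m2, u, hu⟩ := hH.onto e1 ((m1 ≫ j) ≫ f ≫ k) v h3 e1 (𝟙 e1)
    have h4 := hH.dom _ _ _ _ hu
    obtain ⟨e3, m3, x, hx⟩ := h4 e2 (𝟙 e2)
    refine ⟨e3, (m3 ≫ 𝟙 e2) ≫ (m2 ≫ 𝟙 e1) ≫ m1, x, ?_⟩
    rw [w8_iff]
    refine Dn.of_all fun e4 m4 => ⟨U.res m4 (U.res (m3 ≫ 𝟙 e2) u),
      U.res m4 (U.res (m3 ≫ 𝟙 e2) (U.res (m2 ≫ 𝟙 e1) v)), ?_, ?_, ?_⟩
    · have := Cmp.res U hx m4
      simpa only [U.res_comp, Category.assoc] using this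
    · have := Cmp.res U (Cmp.res U (Cmp.res U hv (m2 ≫ 𝟙 e1)) (m3 ≫ 𝟙 e2)) m4
      simpa only [U.res_comp, Category.assoc] using this
    · have := H.mono _ m4 _ _ (H.mono _ (m3 ≫ 𝟙 e2) _ _ hu)
      simpa only [U.res_comp, Category.assoc] using this
-- END W8

-- BEGIN W9
/-- (task W9) the conclusion of the chain principle holds at some extension -/
theorem chain_ext {c : CP} {w A F : U.El c} (h : U.Chain w A F) :
    ∃ (d : CP) (g : d ⟶ c) (n m a b : U.El d), U.mem n (U.res g w) ∧ U.IsSuccF n m ∧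
      U.Val (U.res g A) n a ∧ U.Val (U.res g A) m b ∧ U.LeStarF a b := by
  obtain ⟨d0, f0, a0, ha0⟩ := exists_A U h 0 c (𝟙 c)
  have h' := Chain.res U h (f0 ≫ 𝟙 c)
  obtain ⟨Q, g, n, H, hH⟩ := CP.cover U a0 (fun n => U.ImB (U.res (f0 ≫ 𝟙 c) A)
    (U.res (f0 ≫ 𝟙 c) F) n) (fun n d f x hx => U.imB_subset h' ha0 n d f x hx)
    (fun n d f x hx => U.imB_succ h' n d f x hx)
  obtain ⟨e1, g1, a, ha⟩ := w5_exA U h' n g Q (𝟙 Q)
  obtain ⟨e2, g2, b, hb⟩ := w5_exA U h' (n + 1) ((g1 ≫ 𝟙 Q) ≫ g) e1 (𝟙 e1)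
  have ha' := w5_vres U (g2 ≫ 𝟙 e1) ha
  have hb' : U.Val (U.res (((g2 ≫ 𝟙 e1) ≫ (g1 ≫ 𝟙 Q)) ≫ g) (U.res (f0 ≫ 𝟙 c) A))
      (U.nat e2 (n + 1)) b := by
    rw [Category.assoc]
    exact hb
  have ha'' : U.Val (U.res (((g2 ≫ 𝟙 e1) ≫ (g1 ≫ 𝟙 Q)) ≫ g) (U.res (f0 ≫ 𝟙 c) A))
      (U.nat e2 n) (U.res (g2 ≫ 𝟙 e1) a) := by
    rw [Category.assoc]
    exact ha'
  have key := U.leStarF_of_surj h' g n H hH ((g2 ≫ 𝟙 e1) ≫ (g1 ≫ 𝟙 Q)) ha'' hb'
  rw [← U.res_comp] at ha'' hb'
  exact ⟨e2, _, U.nat e2 n, U.nat e2 (n + 1), U.res (g2 ≫ 𝟙 e1) a, b,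
    nat_mem U (IsIndF.res U h.ind _) n, U.nat_succ e2 n, ha'', hb', key⟩

theorem concl_of_chain {c : CP} {w A F : U.El c} (h : U.Chain w A F) : U.Concl w A := by
  intro d f
  obtain ⟨e, g, n, m, a, b, h1, h2, h3, h4, h5⟩ := U.chain_ext (Chain.res U h f)
  refine ⟨e, g, n, m, a, b, ?_, h2, ?_, ?_, h5⟩
  · rw [U.res_comp]; exact h1
  · rw [U.res_comp]; exact h3
  · rw [U.res_comp]; exact h4
-- END W9

end FU

end Pool.Agent.Lib.ZFM
end
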